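import Mathlib

/-!
Module J10a (SMITH, block J): numerical estimates for large `n`.
-/

set_option autoImplicit false

namespace Pool.Agent.Sm.BJ

theorem half_le_sqrt {q : ℝ} (hq : 3 ≤ q) : Real.exp (1 / 2) ≤ √q := by
  rw [Real.le_sqrt' (Real.exp_pos _), ← Real.exp_nat_mul]
  have h1 : Real.exp ((2 : ℕ) * (1 / 2 : ℝ)) = Real.exp 1 := by norm_num
  rw [h1]
  have := Real.exp_one_lt_d9
  linarith

theorem numeric (h B : ℕ) (c : ℝ) : ∃ n0 : ℕ, ∀ n : ℕ, n0 ≤ n → ∀ q : ℝ, 3 ≤ q →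
    ∀ m w : ℕ, ((w + m : ℕ) : ℝ) ≤ 2 * Real.log n →
    (m : ℝ) * 2 ^ (w + h + m) * c * ((n + B : ℕ) : ℝ) ^ 2 ≤ √q ^ ⌊Real.log n ^ 3⌋₊ := by
  obtain ⟨N1, hN1⟩ := exists_nat_ge (8 * 2 ^ h * |c|)
  obtain ⟨N2, hN2⟩ := exists_nat_ge (Real.exp 4)
  refine ⟨N1 + N2 + B + 1, ?_⟩
  intro n hn q hq m w hmw
  have hn1 : (N1 : ℝ) ≤ n := by exact_mod_cast (by omega : N1 ≤ n)
  have hn2 : (N2 : ℝ) ≤ n := by exact_mod_cast (by omega : N2 ≤ n)
  have hnB : (B : ℝ) ≤ n := by exact_mod_cast (by omega : B ≤ n)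
  have hn0 : (0 : ℝ) < n := by exact_mod_cast (by omega : 0 < n)
  set L := Real.log n with hL
  have hL4 : 4 ≤ L := by
    rw [hL, Real.le_log_iff_exp_le hn0]
    linarith
  have hLn : L ≤ n := (Real.log_le_sub_one_of_pos hn0).trans (by linarith)
  have hexp : Real.exp L = n := Real.exp_log hn0
  have hm : (m : ℝ) ≤ 2 * n := by
    push_cast at hmw
    have : (0 : ℝ) ≤ w := Nat.cast_nonneg _
    linarith
  have h2 : (2 : ℝ) ^ (w + h + m) ≤ 2 ^ h * n ^ 2 := by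
    have e1 : (2 : ℝ) ^ (w + h + m) = 2 ^ h * 2 ^ (w + m) := by
      rw [← pow_add]
      congr 1
      ring
    rw [e1]
    apply mul_le_mul_of_nonneg_left _ (by positivity)
    calc (2 : ℝ) ^ (w + m) ≤ (Real.exp 1) ^ (w + m) := by
          apply pow_le_pow_left₀ (by norm_num)
          have := Real.exp_one_gt_d9
          linarith
      _ = Real.exp ((w + m : ℕ) : ℝ) := by
          rw [← Real.exp_nat_mul, mul_one]
      _ ≤ Real.exp (2 * L) := Real.exp_le_exp.2 hmw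
      _ = n ^ 2 := by
          rw [two_mul, Real.exp_add, hexp, sq]
  have h3 : (m : ℝ) * 2 ^ (w + h + m) * c * ((n + B : ℕ) : ℝ) ^ 2 ≤ (n : ℝ) ^ 6 := by
    have e0 : (m : ℝ) * 2 ^ (w + h + m) * c * ((n + B : ℕ) : ℝ) ^ 2 ≤
        (m : ℝ) * 2 ^ (w + h + m) * |c| * ((n + B : ℕ) : ℝ) ^ 2 := by
      have := le_abs_self c
      gcongr
    refine e0.trans ?_
    push_cast
    calc (m : ℝ) * 2 ^ (w + h + m) * |c| * ((n : ℝ) + B) ^ 2 ≤
        (2 * n) * (2 ^ h * n ^ 2) * |c| * (n + n) ^ 2 := by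
          gcongr
      _ = (8 * 2 ^ h * |c|) * (n : ℝ) ^ 5 := by ring
      _ ≤ n * (n : ℝ) ^ 5 := by
          gcongr
          linarith
      _ = (n : ℝ) ^ 6 := by ring
  refine h3.trans ?_
  have h4 : (n : ℝ) ^ 6 = Real.exp (6 * L) := by
    rw [← hexp, ← Real.exp_nat_mul]
    norm_num
  rw [h4]
  have h5 : L ^ 3 - 1 ≤ (⌊L ^ 3⌋₊ : ℝ) := by
    have := Nat.lt_floor_add_one (L ^ 3)
    linarith
  calc Real.exp (6 * L) ≤ Real.exp ((⌊L ^ 3⌋₊ : ℝ) * (1 / 2)) := by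
        apply Real.exp_le_exp.2
        nlinarith [mul_nonneg (by linarith : (0 : ℝ) ≤ L - 4) (by positivity : 0 ≤ L ^ 2),
          mul_nonneg (by linarith : (0 : ℝ) ≤ L - 4) (by linarith : (0 : ℝ) ≤ L)]
    _ = Real.exp (1 / 2) ^ ⌊L ^ 3⌋₊ := by rw [← Real.exp_nat_mul]
    _ ≤ √q ^ ⌊L ^ 3⌋₊ := by
        apply pow_le_pow_left₀ (Real.exp_pos _).le
        exact half_le_sqrt hq

/-- many large primes against few small primes -/
theorem window (K M A : ℕ) : ∃ n0 : ℕ, ∀ n : ℕ, n0 ≤ n →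
    (A : ℝ) ≤ Real.log n ^ 3 - 1 ∧
    (K : ℝ) * (1 + 6 * Real.log (Real.log n)) ≤ Real.log n / (8 * (M + 1)) := by
  have h1 : Filter.Tendsto (fun n : ℕ => Real.log n) Filter.atTop Filter.atTop :=
    Real.tendsto_log_atTop.comp tendsto_natCast_atTop_atTop
  have h2 : ∀ᶠ x : ℝ in Filter.atTop, (A : ℝ) ≤ x ^ 3 - 1 ∧
      (K : ℝ) * (1 + 6 * Real.log x) ≤ x / (8 * (M + 1)) := by
    have h3 := Real.isLittleO_log_id_atTop
    have h4 : ∀ᶠ x : ℝ in Filter.atTop, ‖Real.log x‖ ≤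
        (1 / (8 * (M + 1) * 12 * (K + 1)) : ℝ) * ‖id x‖ := h3.def (by positivity)
    filter_upwards [h4, Filter.eventually_ge_atTop ((A : ℝ) + 2),
      Filter.eventually_ge_atTop (2 * (8 * (M + 1)) * K : ℝ)] with x hx hxA hxK
    have hA : (0 : ℝ) ≤ A := Nat.cast_nonneg _
    have hx0 : 0 < x := by linarith
    constructor
    · nlinarith [mul_nonneg hx0.le hx0.le, mul_pos hx0 hx0]
    · rw [Real.norm_eq_abs, id, Real.norm_eq_abs, abs_of_pos hx0] at hx
      have h5 : Real.log x ≤ 1 / (8 * (M + 1) * 12 * (K + 1)) * x := (le_abs_self _).trans hx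
      have hM : (0 : ℝ) < 8 * (M + 1) := by positivity
      have h6 : (K : ℝ) ≤ x / (8 * (M + 1)) / 2 := by
        rw [le_div_iff₀ (by norm_num), le_div_iff₀ hM]
        linarith
      have h7 : (K : ℝ) * (6 * Real.log x) ≤ x / (8 * (M + 1)) / 2 := by
        have hK : (0 : ℝ) ≤ K := Nat.cast_nonneg _
        calc (K : ℝ) * (6 * Real.log x) ≤ K * (6 * (1 / (8 * (M + 1) * 12 * (K + 1)) * x)) := by
              gcongr
          _ = (K / (K + 1)) * (x / (8 * (M + 1)) / 2) := by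
              field_simp
              ring
          _ ≤ 1 * (x / (8 * (M + 1)) / 2) := by
              apply mul_le_mul_of_nonneg_right _ (by positivity)
              rw [div_le_one (by positivity)]
              linarith
          _ = _ := one_mul _
      linarith
  exact Filter.eventually_atTop.1 (h1.eventually h2)

end Pool.Agent.Sm.BJ
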