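import Pool.Agent.Lib.Sm.JDefs

/-!
Module J1 (SMITH, block J): the number of pairs (code, dual vector) for one class.

Proof. Let `B` be the set of values of `z.2` (a pairwise unlinked subset of `V1 × V1`, 16 elements).
* If `B` has at most 2 elements: at most `16^2 * 2^m * 16^(card S)` possibilities.
* If `B` has at least 3 elements `a, b, c`: the set of all `y` unlinked with `a, b, c` has at most 4
  elements (translate `a` to `0`: `b, c` are distinct non-zero singular vectors with
  `ee b.2 c.1 + ee c.2 b.1 = 0`, they span a maximal totally singular plane; finite check, 16^2 pairs).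
  So all values of `z.2` AND of `z.1` are in this set: at most `4^(m + card S)` possibilities for each
  of the at most `16^3` triples.
-/

set_option autoImplicit false

namespace Pool.Agent.Sm.BJ2

namespace J1

/-- Unlinked elements of `V1 × V1`. -/
def unl1 (y z : V1 × V1) : Bool := decide (ee (y.2 + z.2) (y.1 + z.1) = 0)

theorem J1_check : ∀ b c : V1 × V1, b ≠ 0 → c ≠ 0 → b ≠ c → unl1 b 0 = true → unl1 c 0 = true →
    unl1 b c = true →
    (Finset.univ.filter fun y : V1 × V1 => unl1 y 0 = true ∧ unl1 y b = true ∧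
      unl1 y c = true).card ≤ 4 := by
  decide +kernel

theorem unl1_shift (y z a : V1 × V1) : unl1 (y + a) (z + a) = unl1 y z := by
  have h2 : ∀ x : V1, x + x = 0 := by decide
  unfold unl1
  congr 2
  simp only [Prod.snd_add, Prod.fst_add]
  have e1 : y.2 + a.2 + (z.2 + a.2) = y.2 + z.2 + (a.2 + a.2) := by abel
  have e2 : y.1 + a.1 + (z.1 + a.1) = y.1 + z.1 + (a.1 + a.1) := by abel
  rw [e1, e2, h2, h2, add_zero, add_zero]

theorem J1_card (a b c : V1 × V1) (hab : a ≠ b) (hac : a ≠ c) (hbc : b ≠ c)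
    (h1 : unl1 b a = true) (h2 : unl1 c a = true) (h3 : unl1 b c = true) :
    (Finset.univ.filter fun y : V1 × V1 => unl1 y a = true ∧ unl1 y b = true ∧
      unl1 y c = true).card ≤ 4 := by
  have hz : ∀ x : V1 × V1, x + x = 0 := by decide
  have key : ∀ x y : V1 × V1, unl1 (x + a) (y + a) = unl1 x y := fun x y => unl1_shift x y a
  have hba : b + a ≠ 0 := by
    intro h
    apply hab
    have := congrArg (· + a) h
    simp only [add_assoc, hz, add_zero, zero_add] at this
    exact this.symm
  have hca : c + a ≠ 0 := by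
    intro h
    apply hac
    have := congrArg (· + a) h
    simp only [add_assoc, hz, add_zero, zero_add] at this
    exact this.symm
  have hbca : b + a ≠ c + a := fun h => hbc (add_right_cancel h)
  have e0 : unl1 (b + a) 0 = true := by
    have := key b a
    rw [hz] at this
    rw [this, h1]
  have e1 : unl1 (c + a) 0 = true := by
    have := key c a
    rw [hz] at this
    rw [this, h2]
  have e2 : unl1 (b + a) (c + a) = true := by rw [key, h3]
  refine le_trans ?_ (J1_check (b + a) (c + a) hba hca hbca e0 e1 e2)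
  refine Finset.card_le_card_of_injOn (fun y => y + a) ?_ (fun x _ y _ h => add_right_cancel h)
  intro y hy
  simp only [Finset.coe_filter, Finset.mem_univ, true_and, Set.mem_ofPred_eq] at hy ⊢
  refine ⟨?_, ?_, ?_⟩
  · have := key y a
    rw [hz] at this
    rw [this, hy.1]
  · rw [key, hy.2.1]
  · rw [key, hy.2.2]

end J1

open J1 in
theorem T1core : ∃ C : ℕ, ∀ (S : Type) (_ : Finite S) (m : ℕ),
    Nat.card {z : (S → V1 × V1) × (Fin m → V1 × V1) //
      (∀ i j, ee ((z.2 i).2 + (z.2 j).2) ((z.2 i).1 + (z.2 j).1) = 0) ∧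
      ∀ s j, ee ((z.1 s).2 + (z.2 j).2) ((z.1 s).1 + (z.2 j).1) = 0} ≤
      C * (4 ^ (Nat.card S + m) + 2 ^ m * 16 ^ Nat.card S) := by
  classical
  refine ⟨16 ^ 3 + 16 ^ 2, ?_⟩
  intro S hS m
  have := Fintype.ofFinite S
  set U : (V1 × V1) × (V1 × V1) × (V1 × V1) → Finset (V1 × V1) := fun t =>
    Finset.univ.filter fun y : V1 × V1 => unl1 y t.1 = true ∧ unl1 y t.2.1 = true ∧
      unl1 y t.2.2 = true with hU
  set good : Finset ((V1 × V1) × (V1 × V1) × (V1 × V1)) :=
    Finset.univ.filter fun t => (U t).card ≤ 4 with hgood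
  set P : (V1 × V1) × (V1 × V1) × (V1 × V1) →
      Finset ((S → V1 × V1) × (Fin m → V1 × V1)) := fun t =>
    (Fintype.piFinset fun _ : S => U t) ×ˢ (Fintype.piFinset fun _ : Fin m => U t) with hP
  set Q : (V1 × V1) × (V1 × V1) →
      Finset ((S → V1 × V1) × (Fin m → V1 × V1)) := fun t =>
    Finset.univ ×ˢ (Fintype.piFinset fun _ : Fin m => ({t.1, t.2} : Finset (V1 × V1))) with hQ
  have hcard : Fintype.card (V1 × V1) = 16 := by decide
  have hPc : (good.biUnion P).card ≤ 16 ^ 3 * 4 ^ (Nat.card S + m) := by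
    refine le_trans (Finset.card_biUnion_le_card_mul _ _ (4 ^ (Nat.card S + m)) ?_) ?_
    · intro t ht
      have ht' : (U t).card ≤ 4 := (Finset.mem_filter.1 ht).2
      simp only [hP, Finset.card_product, Fintype.card_piFinset, Finset.prod_const,
        Finset.card_univ, Fintype.card_fin]
      rw [Nat.card_eq_fintype_card, pow_add]
      exact Nat.mul_le_mul (Nat.pow_le_pow_left ht' _) (Nat.pow_le_pow_left ht' _)
    · refine Nat.mul_le_mul_right _ ?_
      refine le_trans (Finset.card_le_univ _) ?_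
      simp only [Fintype.card_prod, hcard]
      norm_num
  have hQc : ((Finset.univ : Finset ((V1 × V1) × (V1 × V1))).biUnion Q).card ≤
      16 ^ 2 * (2 ^ m * 16 ^ Nat.card S) := by
    refine le_trans (Finset.card_biUnion_le_card_mul _ _ (2 ^ m * 16 ^ Nat.card S) ?_) ?_
    · intro t _
      simp only [hQ, Finset.card_product, Fintype.card_piFinset, Finset.prod_const,
        Finset.card_univ, Fintype.card_fin, Fintype.card_fun, hcard]
      rw [Nat.card_eq_fintype_card, mul_comm]
      exact Nat.mul_le_mul_right _ (Nat.pow_le_pow_left Finset.card_le_two _)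
    · refine Nat.mul_le_mul_right _ ?_
      rw [Finset.card_univ, Fintype.card_prod, hcard]
      norm_num
  rw [Nat.card_eq_fintype_card, Fintype.card_subtype]
  have hsub : (Finset.univ.filter fun z : (S → V1 × V1) × (Fin m → V1 × V1) =>
      (∀ i j, ee ((z.2 i).2 + (z.2 j).2) ((z.2 i).1 + (z.2 j).1) = 0) ∧
      ∀ s j, ee ((z.1 s).2 + (z.2 j).2) ((z.1 s).1 + (z.2 j).1) = 0) ⊆
      good.biUnion P ∪ Finset.univ.biUnion Q := by
    intro z hz
    obtain ⟨hz1, hz2⟩ := (Finset.mem_filter.1 hz).2
    by_cases h3 : ∃ i j k, z.2 i ≠ z.2 j ∧ z.2 i ≠ z.2 k ∧ z.2 j ≠ z.2 k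
    · obtain ⟨i, j, k, hij, hik, hjk⟩ := h3
      refine Finset.mem_union_left _ (Finset.mem_biUnion.2 ⟨(z.2 i, z.2 j, z.2 k), ?_, ?_⟩)
      · refine Finset.mem_filter.2 ⟨Finset.mem_univ _, ?_⟩
        exact J1_card _ _ _ hij hik hjk (decide_eq_true (hz1 j i)) (decide_eq_true (hz1 k i))
          (decide_eq_true (hz1 j k))
      · refine Finset.mem_product.2 ⟨?_, ?_⟩
        · refine Fintype.mem_piFinset.2 fun s => Finset.mem_filter.2 ⟨Finset.mem_univ _, ?_⟩
          exact ⟨decide_eq_true (hz2 s i), decide_eq_true (hz2 s j), decide_eq_true (hz2 s k)⟩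
        · refine Fintype.mem_piFinset.2 fun s => Finset.mem_filter.2 ⟨Finset.mem_univ _, ?_⟩
          exact ⟨decide_eq_true (hz1 s i), decide_eq_true (hz1 s j), decide_eq_true (hz1 s k)⟩
    · refine Finset.mem_union_right _ ?_
      push Not at h3
      by_cases h2 : ∃ i j, z.2 i ≠ z.2 j
      · obtain ⟨i, j, hij⟩ := h2
        refine Finset.mem_biUnion.2 ⟨(z.2 i, z.2 j), Finset.mem_univ _, ?_⟩
        refine Finset.mem_product.2 ⟨Finset.mem_univ _, Fintype.mem_piFinset.2 fun k => ?_⟩
        simp only [Finset.mem_insert, Finset.mem_singleton]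
        by_cases hik : z.2 i = z.2 k
        · exact Or.inl hik.symm
        · exact Or.inr (h3 i j k hij hik).symm
      · push Not at h2
        rcases isEmpty_or_nonempty (Fin m) with hm | ⟨⟨j0⟩⟩
        · refine Finset.mem_biUnion.2 ⟨(0, 0), Finset.mem_univ _, ?_⟩
          exact Finset.mem_product.2 ⟨Finset.mem_univ _, Fintype.mem_piFinset.2 fun k =>
            (hm.false k).elim⟩
        · refine Finset.mem_biUnion.2 ⟨(z.2 j0, z.2 j0), Finset.mem_univ _, ?_⟩
          refine Finset.mem_product.2 ⟨Finset.mem_univ _, Fintype.mem_piFinset.2 fun k => ?_⟩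
          simp only [Finset.mem_insert, Finset.mem_singleton]
          exact Or.inl (h2 k j0)
  refine le_trans (Finset.card_le_card hsub) (le_trans (Finset.card_union_le _ _) ?_)
  refine le_trans (Nat.add_le_add hPc hQc) ?_
  nlinarith [Nat.zero_le (16 ^ 3 * (2 ^ m * 16 ^ Nat.card S)), Nat.zero_le (16 ^ 2 * 4 ^ (Nat.card S + m))]

end Pool.Agent.Sm.BJ2
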