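import Pool.Agent.Lib.Sm.J10b
import Pool.Agent.Lib.SmK.Grid

/-!
Module J11 (SMITH, blocks J + K): almost all monic squarefree polynomials are typical.
-/

set_option autoImplicit false

open Polynomial Pool.Agent.BSDP.R

namespace Pool.Agent.Sm.BJ

open Pool.Agent.SmK (DD IsGrid Pts ev xs Nice Dist)

section
variable {k : Type} [Field k] [Finite k]

/-- the set of the bad primes -/
noncomputable def badSet (d : TwData k) : Finset k[X] :=
  open Classical in Finset.univ.image d.ell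

omit [Finite k] in
theorem mem_badSet (d : TwData k) {P : k[X]} : P ∈ badSet d ↔ ∃ μ, d.ell μ = P := by
  classical
  unfold badSet
  simp

omit [Finite k] in
theorem badSet_irr (d : TwData k) : ∀ P ∈ badSet d, P.Monic ∧ Irreducible P := by
  intro P hP
  obtain ⟨μ, rfl⟩ := (mem_badSet d).1 hP
  exact ⟨d.ell_monic μ, d.ell_irr μ⟩

/-- the increasing enumeration of the degrees -/
noncomputable def sg (T : Finset ℕ) : Fin T.card ≃ T := (T.orderIsoOfFin rfl).toEquiv

noncomputable def dgT (T : Finset ℕ) (j : Fin T.card) : ℕ := (sg T j : ℕ)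

omit [Finite k] in
theorem dgT_strictMono (T : Finset ℕ) : StrictMono (dgT T) := by
  intro i j h
  have := (T.orderIsoOfFin rfl).strictMono h
  exact this

/-- the points of a grid as a grid in the sense of J7 -/
noncomputable def ePts (k : Type) [Field k] (T : Finset ℕ) : Pts k T ≃ Grid k (dgT T) :=
  (Equiv.piCongrLeft (fun t : T => (Irr k (t : ℕ) : Type)) (sg T)).symm

omit [Finite k] in
theorem ePts_apply (T : Finset ℕ) (x : Pts k T) (j : Fin T.card) :
    (ePts k T x j).1 = (x (sg T j)).1 := rfl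

omit [Finite k] in
theorem ev_ePts (g : k[X] × Finset ℕ) (x : Pts k g.2) :
    ev g x = g.1 * ∏ j, (ePts k g.2 x j).1 := by
  unfold ev
  congr 1
  exact (Equiv.prod_comp (sg g.2) (fun t => (x t).1)).symm

theorem pts_final (h2 : (2 : k) ≠ 0) (d : TwData k) : ∃ C0 : ℕ, ∀ ε : ℝ, 0 < ε → ∃ R : ℕ,
    ∀ kk C : ℕ, ∃ n0 : ℕ, ∀ n : ℕ, n0 ≤ n →
      ∀ g : k[X] × Finset ℕ,
      IsGrid (badSet d) ⌊Real.log n ^ 3⌋₊ n g →
      (∃ x : Pts k g.2, Nice (2 ^ C) ⌊Real.log n ^ 3⌋₊ n (ev g x)) →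
      (Nat.card {x : Pts k g.2 // ¬ Typ d (ev g x) R kk C ⌊Real.log n ^ 3⌋₊} : ℝ) ≤
        ε * Nat.card (Pts k g.2) ∧
      Nat.card (Σ x : Pts k g.2, Selp d (ev g x)) ≤ C0 * Nat.card (Pts k g.2) := by
  classical
  obtain ⟨C0, hC0⟩ := grid_final h2 d
  refine ⟨C0, fun ε hε => ?_⟩
  obtain ⟨R, hR⟩ := hC0 ε hε
  refine ⟨R, fun kk C => ?_⟩
  obtain ⟨n0, hn0⟩ := hR kk C
  refine ⟨n0, fun n hn => ?_⟩
  rintro ⟨Ds, T⟩ hg ⟨x0, hx0⟩
  set N0 := ⌊Real.log n ^ 3⌋₊ with hN0
  have hdisj := (SmK.ev_eq hg x0).1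
  have hpo := SmK.primesOf_ev hg x0
  have hcx := SmK.card_xs x0
  -- the image of the grid
  have hcard : Nat.card (Pts k T) = Nat.card (Grid k (dgT T)) := Nat.card_congr (ePts k T)
  have hdegx : ∀ t : T, ((x0 t).1).natDegree = t := fun t => (x0 t).2.2.2
  have hcardD : (primesOf (ev (Ds, T) x0)).card = (primesOf Ds).card + T.card := by
    rw [hpo, Finset.card_union_of_disjoint hdisj, hcx]
  have hfewS : ((primesOf Ds).card : ℝ) ≤ 6 * Real.log (Real.log n) := by
    refine le_trans ?_ hx0.fewSmall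
    have h3 : primesOf Ds ⊆ {P ∈ primesOf (ev (Ds, T) x0) | P.natDegree < N0} := by
      intro P hP
      rw [Finset.mem_filter, hpo]
      exact ⟨Finset.mem_union_left _ hP, hg.small P hP⟩
    exact_mod_cast Finset.card_le_card h3
  have hmany : Real.log n / (8 * ((2 ^ C : ℕ) : ℝ)) ≤
      (Finset.univ.filter fun j => 2 ^ C ∣ dgT T j).card := by
    refine hx0.many.trans ?_
    have h3 : {P ∈ primesOf (ev (Ds, T) x0) | N0 ≤ P.natDegree ∧ 2 ^ C ∣ P.natDegree} ⊆
        (Finset.univ.filter fun j => 2 ^ C ∣ dgT T j).image fun j => (x0 (sg T j)).1 := by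
      intro P hP
      rw [Finset.mem_filter, hpo, Finset.mem_union] at hP
      rcases hP.1 with h | h
      · have := hg.small P h
        have := hP.2.1
        omega
      · obtain ⟨t, rfl⟩ := (SmK.mem_xs x0).1 h
        rw [Finset.mem_image]
        refine ⟨(sg T).symm t, ?_, ?_⟩
        · rw [Finset.mem_filter]
          refine ⟨Finset.mem_univ _, ?_⟩
          unfold dgT
          rw [Equiv.apply_symm_apply, ← hdegx t]
          exact hP.2.2
        · rw [Equiv.apply_symm_apply]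
    exact_mod_cast (Finset.card_le_card h3).trans Finset.card_image_le
  have hodd : (∃ Q ∈ primesOf Ds, Odd Q.natDegree) ∨ ∃ j, Odd (dgT T j) := by
    obtain ⟨P, hP, hPo⟩ := hx0.odd
    rw [hpo, Finset.mem_union] at hP
    rcases hP with h | h
    · exact Or.inl ⟨P, h, hPo⟩
    · obtain ⟨t, rfl⟩ := (SmK.mem_xs x0).1 h
      refine Or.inr ⟨(sg T).symm t, ?_⟩
      unfold dgT
      rw [Equiv.apply_symm_apply, ← hdegx t]
      exact hPo
  have hsumT : ∑ j, dgT T j = ∑ t ∈ T, t := by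
    unfold dgT
    rw [Equiv.sum_comp (sg T) (fun t : T => (t : ℕ))]
    exact Finset.sum_coe_sort T (fun t => t)
  obtain ⟨hA, hB⟩ := hn0 n hn Ds T.card (dgT T) hg.monic
    (fun μ => hg.notdvd _ ((mem_badSet d).2 ⟨μ, rfl⟩))
    hg.small (dgT_strictMono T) (fun j => hg.large _ (sg T j).2)
    (by rw [hsumT]; exact hg.deg)
    (by
      have h3 := hx0.few
      rw [hcardD] at h3
      exact h3)
    hfewS hmany hodd
  constructor
  · rw [hcard]
    refine le_trans (le_of_eq ?_) hA
    congr 1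
    apply Nat.card_congr
    refine (ePts k T).subtypeEquiv fun x => ?_
    rw [ev_ePts]
  · rw [hcard]
    refine le_trans (le_of_eq ?_) hB
    apply Nat.card_congr
    refine (ePts k T).sigmaCongr fun x => ?_
    exact Equiv.cast (by rw [ev_ePts])

omit [Finite k] in
theorem three_le_card [Finite k] (h2 : (2 : k) ≠ 0) : 3 ≤ Nat.card k := by
  have hk := Fintype.ofFinite k
  have h3 : 1 < Nat.card k := Finite.one_lt_card
  have h4 : Nat.card k ≠ 2 := by
    intro h
    apply h2
    have h5 : ((Nat.card k : ℕ) : k) = 0 := by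
      rw [Nat.card_eq_fintype_card]
      exact FiniteField.cast_card_eq_zero k
    rw [h] at h5
    exact_mod_cast h5
  omega

theorem natCard_DD (B : Finset k[X]) (n : ℕ) (p : k[X] → Prop) [DecidablePred p] :
    Nat.card {D : k[X] // D ∈ DD B n ∧ p D} = ((DD B n).filter p).card :=
  Nat.subtype_card _ fun _ => Finset.mem_filter

open Classical in
/-- **Typical `D`.** -/
theorem JK_aux (h2 : (2 : k) ≠ 0) (d : TwData k) : ∃ C0 : ℕ, ∀ ε : ℝ, 0 < ε → ∃ R : ℕ,
    ∀ kk C : ℕ, ∃ n0 : ℕ, ∀ n : ℕ, n0 ≤ n →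
      (Nat.card {D : k[X] // D ∈ DD (badSet d) n ∧ ¬ Typ d D R kk C ⌊Real.log n ^ 3⌋₊} : ℝ) ≤
        ε * (DD (badSet d) n).card ∧
      ∑ D ∈ DD (badSet d) n with Typ d D R kk C ⌊Real.log n ^ 3⌋₊,
        (Nat.card (Selp d D) : ℝ) ≤ C0 * (DD (badSet d) n).card := by
  obtain ⟨C0, hC0⟩ := pts_final h2 d
  refine ⟨C0 + 1, fun ε hε => ?_⟩
  obtain ⟨R, hR⟩ := hC0 (ε / 2) (by positivity)
  refine ⟨R, fun kk C => ?_⟩
  obtain ⟨n1, hn1⟩ := hR kk C
  have hq3 := three_le_card h2
  obtain ⟨n2, hn2⟩ := SmK.anatomy hq3 (badSet d) (badSet_irr d) (2 ^ C) (by positivity)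
    (min (ε / 2) (1 / 2 ^ R)) (by positivity)
  obtain ⟨n3, hn3⟩ := window 0 0 (∑ μ, (d.ell μ).natDegree + 1)
  refine ⟨n1 + n2 + n3, fun n hn => ?_⟩
  have hA := hn1 n (by omega)
  have hB := hn2 n (by omega)
  have hN := (hn3 n (by omega)).1
  set N0 := ⌊Real.log n ^ 3⌋₊ with hN0
  set BB := badSet d with hBB
  set X := DD BB n with hX
  have hell : ∀ P ∈ BB, P.natDegree < N0 := by
    intro P hP
    obtain ⟨μ, rfl⟩ := (mem_badSet d).1 hP
    have h3 := Finset.single_le_sum (f := fun μ => (d.ell μ).natDegree)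
      (fun i _ => Nat.zero_le _) (Finset.mem_univ μ)
    have h4 : (d.ell μ).natDegree + 1 + 1 ≤ N0 := by
      apply Nat.le_floor
      push_cast at hN ⊢
      have h5 : ((d.ell μ).natDegree : ℝ) ≤ ∑ μ, ((d.ell μ).natDegree : ℝ) := by
        exact_mod_cast h3
      linarith
    omega
  have hfinI : ∀ t, Fintype (Irr k t) := fun t => Fintype.ofFinite _
  have hnice : ∀ D : k[X], Nice (2 ^ C) N0 n D → Dist N0 D := fun D h => h.distinct
  -- the number of all points
  have hall : ∑ g ∈ SmK.Grid BB N0 n, (Nat.card (Pts k g.2) : ℝ) ≤ X.card := by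
    have h3 := SmK.grid_sum BB (badSet_irr d) N0 n hell (fun _ => (1 : ℝ))
    have h4 : ∑ g ∈ SmK.Grid BB N0 n, (Nat.card (Pts k g.2) : ℝ) =
        ∑ g ∈ SmK.Grid BB N0 n, ∑ x : Pts k g.2, (1 : ℝ) := by
      refine Finset.sum_congr rfl fun g _ => ?_
      rw [Finset.sum_const, Finset.card_univ, nsmul_eq_mul, mul_one, Nat.card_eq_fintype_card]
    rw [h4, ← h3, Finset.sum_const, nsmul_eq_mul, mul_one]
    exact_mod_cast Finset.card_filter_le _ _
  -- sums over nice D
  have hsplit : ∀ (F : k[X] → ℝ), (∀ D, 0 ≤ F D) →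
      ∑ D ∈ X with Nice (2 ^ C) N0 n D, F D =
      ∑ g ∈ SmK.Grid BB N0 n, ∑ x : Pts k g.2,
        if Nice (2 ^ C) N0 n (ev g x) then F (ev g x) else 0 := by
    intro F _
    rw [← SmK.grid_sum BB (badSet_irr d) N0 n hell
      (fun D => if Nice (2 ^ C) N0 n D then F D else 0), ← Finset.sum_filter,
      Finset.filter_filter]
    refine Finset.sum_congr ?_ fun _ _ => rfl
    ext D
    simp only [Finset.mem_filter]
    constructor
    · rintro ⟨h, h'⟩
      exact ⟨h, hnice D h', h'⟩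
    · rintro ⟨h, _, h'⟩
      exact ⟨h, h'⟩
  have hX0 : (0 : ℝ) ≤ X.card := Nat.cast_nonneg _
  have hBnot : ((X.filter fun D => ¬ Nice (2 ^ C) N0 n D).card : ℝ) ≤
      min (ε / 2) (1 / 2 ^ R) * X.card := by
    have e1 := natCard_DD BB n (fun D => ¬ Nice (2 ^ C) N0 n D)
    rw [← hX] at e1
    rw [← e1]
    exact hB
  constructor
  · -- (1)
    rw [natCard_DD, ← hX]
    have h3 : ((X.filter fun D => ¬ Typ d D R kk C N0).card : ℝ) ≤
        (X.filter fun D => ¬ Nice (2 ^ C) N0 n D).card +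
        ∑ D ∈ X with Nice (2 ^ C) N0 n D, (if Typ d D R kk C N0 then (0 : ℝ) else 1) := by
      have h4 : ∑ D ∈ X with Nice (2 ^ C) N0 n D, (if Typ d D R kk C N0 then (0 : ℝ) else 1) =
          ((X.filter fun D => Nice (2 ^ C) N0 n D ∧ ¬ Typ d D R kk C N0).card : ℝ) := by
        rw [Finset.card_eq_sum_ones, ← Finset.filter_filter, Finset.sum_filter
          (s := X.filter fun D => Nice (2 ^ C) N0 n D)]
        push_cast
        refine Finset.sum_congr rfl fun D _ => ?_
        by_cases h : Typ d D R kk C N0 <;> simp [h]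
      rw [h4]
      have h5 : X.filter (fun D => ¬ Typ d D R kk C N0) ⊆
          (X.filter fun D => ¬ Nice (2 ^ C) N0 n D) ∪
          (X.filter fun D => Nice (2 ^ C) N0 n D ∧ ¬ Typ d D R kk C N0) := by
        intro D hD
        rw [Finset.mem_filter] at hD
        rw [Finset.mem_union, Finset.mem_filter, Finset.mem_filter]
        by_cases h : Nice (2 ^ C) N0 n D
        · exact Or.inr ⟨hD.1, h, hD.2⟩
        · exact Or.inl ⟨hD.1, h⟩
      have h6 := (Finset.card_le_card h5).trans (Finset.card_union_le _ _)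
      exact_mod_cast h6
    refine h3.trans ?_
    rw [hsplit _ (fun D => by split_ifs <;> norm_num)]
    have h7 : ∑ g ∈ SmK.Grid BB N0 n, ∑ x : Pts k g.2,
        (if Nice (2 ^ C) N0 n (ev g x) then (if Typ d (ev g x) R kk C N0 then (0 : ℝ) else 1)
          else 0) ≤ ∑ g ∈ SmK.Grid BB N0 n, ε / 2 * (Nat.card (Pts k g.2) : ℝ) := by
      apply Finset.sum_le_sum
      intro g hg
      by_cases hx : ∃ x : Pts k g.2, Nice (2 ^ C) N0 n (ev g x)
      · refine le_trans ?_ (hA g (SmK.mem_Grid.1 hg) hx).1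
        have h8 : (Nat.card {x : Pts k g.2 // ¬ Typ d (ev g x) R kk C N0} : ℝ) =
            ∑ x : Pts k g.2, (if Typ d (ev g x) R kk C N0 then (0 : ℝ) else 1) := by
          rw [Nat.card_eq_fintype_card, Fintype.card_subtype, Finset.card_eq_sum_ones,
            Finset.sum_filter]
          push_cast
          refine Finset.sum_congr rfl fun x _ => ?_
          by_cases h : Typ d (ev g x) R kk C N0 <;> simp [h]
        rw [h8]
        apply Finset.sum_le_sum
        intro x _
        split_ifs <;> norm_num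
      · push Not at hx
        rw [Finset.sum_eq_zero fun x _ => by rw [if_neg (hx x)]]
        positivity
    rw [← Finset.mul_sum] at h7
    have h8 : ε / 2 * ∑ g ∈ SmK.Grid BB N0 n, (Nat.card (Pts k g.2) : ℝ) ≤ ε / 2 * X.card :=
      mul_le_mul_of_nonneg_left hall (by positivity)
    have h9 : min (ε / 2) (1 / 2 ^ R) * (X.card : ℝ) ≤ ε / 2 * X.card :=
      mul_le_mul_of_nonneg_right (min_le_left _ _) hX0
    linarith
  · -- (2)
    have h3 : ∑ D ∈ X with Typ d D R kk C N0, (Nat.card (Selp d D) : ℝ) ≤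
        ∑ D ∈ X with Nice (2 ^ C) N0 n D, (Nat.card (Selp d D) : ℝ) +
        ∑ D ∈ X with ¬ Nice (2 ^ C) N0 n D, (2 : ℝ) ^ R := by
      simp only [Finset.sum_filter]
      rw [← Finset.sum_add_distrib]
      apply Finset.sum_le_sum
      intro D _
      by_cases hT : Typ d D R kk C N0
      · rw [if_pos hT]
        by_cases h : Nice (2 ^ C) N0 n D
        · rw [if_pos h, if_neg (not_not.2 h), add_zero]
        · rw [if_neg h, if_pos h, zero_add]
          exact_mod_cast hT.small
      · rw [if_neg hT]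
        split_ifs <;> positivity
    refine h3.trans ?_
    rw [hsplit _ (fun D => Nat.cast_nonneg _), Finset.sum_const, nsmul_eq_mul]
    have h7 : ∑ g ∈ SmK.Grid BB N0 n, ∑ x : Pts k g.2,
        (if Nice (2 ^ C) N0 n (ev g x) then (Nat.card (Selp d (ev g x)) : ℝ)
          else 0) ≤ ∑ g ∈ SmK.Grid BB N0 n, C0 * (Nat.card (Pts k g.2) : ℝ) := by
      apply Finset.sum_le_sum
      intro g hg
      by_cases hx : ∃ x : Pts k g.2, Nice (2 ^ C) N0 n (ev g x)
      · have h8 := (hA g (SmK.mem_Grid.1 hg) hx).2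
        have hfinSel : ∀ x : Pts k g.2, Finite (Selp d (ev g x)) := by
          intro x
          have := finite_PD (ev g x)
          infer_instance
        rw [Nat.card_sigma] at h8
        have h9 : (∑ x : Pts k g.2, (Nat.card (Selp d (ev g x)) : ℝ)) ≤
            C0 * (Nat.card (Pts k g.2) : ℝ) := by
          exact_mod_cast h8
        refine le_trans ?_ h9
        apply Finset.sum_le_sum
        intro x _
        split_ifs
        · exact le_rfl
        · exact Nat.cast_nonneg _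
      · push Not at hx
        rw [Finset.sum_eq_zero fun x _ => by rw [if_neg (hx x)]]
        positivity
    rw [← Finset.mul_sum] at h7
    have h8 : (C0 : ℝ) * ∑ g ∈ SmK.Grid BB N0 n, (Nat.card (Pts k g.2) : ℝ) ≤ C0 * X.card :=
      mul_le_mul_of_nonneg_left hall (Nat.cast_nonneg _)
    have h9 : ((X.filter fun D => ¬ Nice (2 ^ C) N0 n D).card : ℝ) * 2 ^ R ≤ X.card := by
      calc ((X.filter fun D => ¬ Nice (2 ^ C) N0 n D).card : ℝ) * 2 ^ R ≤
          (min (ε / 2) (1 / 2 ^ R) * X.card) * 2 ^ R := by gcongr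
        _ ≤ (1 / 2 ^ R * X.card) * 2 ^ R := by
            gcongr
            exact min_le_right _ _
        _ = X.card := by
            field_simp
    push_cast
    linarith

end

end Pool.Agent.Sm.BJ

namespace Pool.Agent.Sm

open Pool.Agent.SmK (DD)

open Classical in
/-- **Theorem JK.** Almost all monic squarefree `D` prime to the bad primes are typical; the average
of the order of the explicit Selmer group over the typical `D` is bounded by `C0` independently of
`ε, R, kk, C`. -/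
theorem JK {k : Type} [Field k] [Finite k] (h2 : (2 : k) ≠ 0) (d : TwData k) :
    ∃ C0 : ℕ, ∀ ε : ℝ, 0 < ε → ∃ R : ℕ, ∀ kk C : ℕ, ∃ n0 : ℕ, ∀ n : ℕ, n0 ≤ n →
      (Nat.card {D : k[X] // D ∈ DD (BJ.badSet d) n ∧
        ¬ Typ d D R kk C ⌊Real.log n ^ 3⌋₊} : ℝ) ≤ ε * (DD (BJ.badSet d) n).card ∧
      ∑ D ∈ DD (BJ.badSet d) n with Typ d D R kk C ⌊Real.log n ^ 3⌋₊,
        (Nat.card (Selp d D) : ℝ) ≤ C0 * (DD (BJ.badSet d) n).card :=
  BJ.JK_aux h2 d

end Pool.Agent.Sm
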