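import Pool.Agent.Lib.Sm.JDefs

/-!
Module J2 (SMITH, block J): the number of pairs (code, dual vector) for a non-generic independent
`r`-tuple. Write `E = V1 ^ r` (`4^r` elements), `Z = E × E`, `q (x, l) = pr l x`.

Proof. Let `z` be counted, `W0` the span of the differences `z i - z j`; it is totally singular
(`q = 0` on it; `q (z i - z j) = 0` and the polar form of two differences vanishes), contained in its
orthogonal, so `#W0 <= 4^r`. There are finitely many pairs `(a, W0)` (their number is the constant).
For a fixed pair with all `z j` in `a + W0`: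
1. `Good = {(x, l) in a + W0 : pr l (g f + T f x) = 0 for all f}` has less than `4^r` elements: at most
   `(4^r - 1)^m` sequences.
2. `#W0 = 4^r`, `Good = a + W0`. Let `V` be the projection of `W0` to the first `E`.
   (a) `V = E`: the projection `a + W0 -> E` is a bijection: at most as many sequences as sequences
   `x : Fin m -> E` for which some `v` is taken less than `kk` times on `W`:
   `<= 4^r * (W.card + 1)^kk * (4^r - 1)^(W.card) * (4^r)^(m - W.card)` (choose `v`, the set of the less
   than `kk` places, the other values).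
   (b) `V /= E`: then `Dep T g x`, contradiction. `(0, m)` is in `W0` for `m` in `V^perp` (`W0` is
   maximal). From `pr l (g f + T f x) = 0` and the same for `(x, l + m)`:
   `pr m (g f + T f x) = 0`; so `V^perp` is stable under all `T f`. By `symm` and `nondeg` the maps
   `T f` and the scalars generate all `2 x 2` matrices, so `V^perp /= 0` contains `a ⊗ V1` for some
   `a /= 0` in `F_2^r`; then `sum a_i x_i = const = t` on `a + W0` and `sum a_i g_f i = T f t`.
-/

set_option autoImplicit false

namespace Pool.Agent.Sm.BJ2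

namespace J2

section form

theorem two_V1 (x : V1) : x + x = 0 := by
  revert x; decide

theorem two_E {r : ℕ} (x : Fin r → V1) : x + x = 0 := by
  funext i; exact two_V1 (x i)

theorem two_Z {r : ℕ} (x : (Fin r → V1) × (Fin r → V1)) : x + x = 0 := by
  ext1 <;> exact two_E _

theorem two_F (x : ZMod 2) : x + x = 0 := by
  revert x; decide

theorem ee_add_left (x y z : V1) : ee (x + y) z = ee x z + ee y z := by
  revert x y z; decide

theorem ee_add_right (x y z : V1) : ee x (y + z) = ee x y + ee x z := by
  revert x y z; decide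

theorem ee_smul_left (s : ZMod 2) (x z : V1) : ee (s • x) z = s * ee x z := by
  revert s x z; decide

theorem ee_smul_right (s : ZMod 2) (x z : V1) : ee x (s • z) = s * ee x z := by
  revert s x z; decide

theorem ee_comm (x z : V1) : ee x z = ee z x := by
  revert x z; decide

theorem ee_nondeg (x : V1) (h : ∀ z, ee x z = 0) : x = 0 := by
  revert x; decide

theorem pr_add_left {r : ℕ} (x y z : Fin r → V1) : pr (x + y) z = pr x z + pr y z := by
  simp only [pr, Pi.add_apply, ee_add_left, Finset.sum_add_distrib]

theorem pr_add_right {r : ℕ} (x y z : Fin r → V1) : pr x (y + z) = pr x y + pr x z := by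
  simp only [pr, Pi.add_apply, ee_add_right, Finset.sum_add_distrib]

theorem pr_smul_left {r : ℕ} (s : ZMod 2) (x z : Fin r → V1) : pr (s • x) z = s • pr x z := by
  simp only [pr, Pi.smul_apply, ee_smul_left, smul_eq_mul, Finset.mul_sum]

theorem pr_smul_right {r : ℕ} (s : ZMod 2) (x z : Fin r → V1) : pr x (s • z) = s • pr x z := by
  simp only [pr, Pi.smul_apply, ee_smul_right, smul_eq_mul, Finset.mul_sum]

theorem pr_comm {r : ℕ} (x z : Fin r → V1) : pr x z = pr z x := by
  simp only [pr]
  exact Finset.sum_congr rfl fun i _ => ee_comm _ _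

theorem pr_zero_left {r : ℕ} (z : Fin r → V1) : pr 0 z = 0 := by
  simp [pr, ee]

theorem pr_single {r : ℕ} (x : Fin r → V1) (i : Fin r) (v : V1) :
    pr x (Pi.single i v) = ee (x i) v := by
  classical
  rw [pr, Finset.sum_eq_single i]
  · rw [Pi.single_eq_same]
  · intro j _ hj
    rw [Pi.single_eq_of_ne hj]
    simp [ee]
  · intro h
    exact absurd (Finset.mem_univ i) h

theorem pr_nondeg {r : ℕ} (x : Fin r → V1) (h : ∀ z, pr x z = 0) : x = 0 := by
  funext i
  refine ee_nondeg _ fun v => ?_
  rw [← pr_single x i v]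
  exact h _

/-- The quadratic form. -/
def qq {r : ℕ} (z : (Fin r → V1) × (Fin r → V1)) : ZMod 2 := pr z.2 z.1

/-- The polar form. -/
def bb (r : ℕ) : LinearMap.BilinForm (ZMod 2) ((Fin r → V1) × (Fin r → V1)) :=
  LinearMap.mk₂ (ZMod 2) (fun y z => pr y.2 z.1 + pr z.2 y.1)
    (by
      intro a b c
      simp only [Prod.snd_add, Prod.fst_add, pr_add_left, pr_add_right]
      ring)
    (by
      intro s a c
      simp only [Prod.smul_snd, Prod.smul_fst, pr_smul_left, pr_smul_right, smul_add])
    (by
      intro a b c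
      simp only [Prod.snd_add, Prod.fst_add, pr_add_left, pr_add_right]
      ring)
    (by
      intro s a c
      simp only [Prod.smul_snd, Prod.smul_fst, pr_smul_left, pr_smul_right, smul_add])

theorem bb_apply {r : ℕ} (y z : (Fin r → V1) × (Fin r → V1)) :
    bb r y z = pr y.2 z.1 + pr z.2 y.1 := rfl

theorem bb_comm {r : ℕ} (y z : (Fin r → V1) × (Fin r → V1)) : bb r y z = bb r z y := by
  rw [bb_apply, bb_apply, add_comm]

theorem qq_add {r : ℕ} (y z : (Fin r → V1) × (Fin r → V1)) :
    qq (y + z) = qq y + qq z + bb r y z := by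
  simp only [qq, bb_apply, Prod.snd_add, Prod.fst_add, pr_add_left, pr_add_right]
  ring

theorem bb_nondeg (r : ℕ) : (bb r).Nondegenerate := by
  have h : ∀ x, (∀ y, bb r x y = 0) → x = 0 := by
    intro x hx
    ext1
    · refine pr_nondeg _ fun z => ?_
      have := hx (0, z)
      rw [bb_apply] at this
      rw [pr_comm]
      rw [pr_comm x.2, pr_zero_left, zero_add] at this
      exact this
    · refine pr_nondeg _ fun z => ?_
      have := hx (z, 0)
      rw [bb_apply, pr_zero_left, add_zero] at this
      exact this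
  refine ⟨h, ?_⟩
  intro y hy
  refine h y fun x => ?_
  rw [bb_comm]
  exact hy x

theorem card_Z_finrank (r : ℕ) :
    Module.finrank (ZMod 2) ((Fin r → V1) × (Fin r → V1)) = 4 * r := by
  rw [Module.finrank_prod, Module.finrank_pi_fintype]
  simp only [Module.finrank_prod, Module.finrank_self, Finset.sum_const, Finset.card_univ,
    Fintype.card_fin, smul_eq_mul]
  ring

/-- A totally singular subspace has at most `4 ^ r` elements. -/
theorem card_singular {r : ℕ} (W : Submodule (ZMod 2) ((Fin r → V1) × (Fin r → V1)))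
    (h : ∀ z ∈ W, qq z = 0) : Nat.card W ≤ 4 ^ r := by
  have hb : ∀ y ∈ W, ∀ z ∈ W, bb r y z = 0 := by
    intro y hy z hz
    have := qq_add y z
    rw [h _ (W.add_mem hy hz), h _ hy, h _ hz, zero_add, zero_add] at this
    exact this.symm
  have hle : W ≤ (bb r).orthogonal W := by
    intro z hz y hy
    exact hb y hy z hz
  have h1 := LinearMap.BilinForm.finrank_orthogonal (bb_nondeg r) W
  have h2 := Submodule.finrank_mono hle
  rw [h1, card_Z_finrank] at h2
  have h3 : Module.finrank (ZMod 2) W ≤ 2 * r := by omega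
  rw [Module.natCard_eq_pow_finrank (K := ZMod 2), Nat.card_zmod]
  calc 2 ^ Module.finrank (ZMod 2) W ≤ 2 ^ (2 * r) := Nat.pow_le_pow_right (by norm_num) h3
    _ = 4 ^ r := by rw [pow_mul]; norm_num

/-- The span of pairwise orthogonal singular vectors is totally singular. -/
theorem span_singular {r : ℕ} (s : Set ((Fin r → V1) × (Fin r → V1)))
    (h1 : ∀ z ∈ s, qq z = 0) (h2 : ∀ y ∈ s, ∀ z ∈ s, bb r y z = 0) :
    ∀ z ∈ Submodule.span (ZMod 2) s, qq z = 0 := by
  have hb : ∀ y ∈ Submodule.span (ZMod 2) s, ∀ z ∈ Submodule.span (ZMod 2) s, bb r y z = 0 := by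
    intro y hy z hz
    induction hy using Submodule.span_induction with
    | mem y hy =>
      induction hz using Submodule.span_induction with
      | mem z hz => exact h2 y hy z hz
      | zero => simp
      | add a b _ _ ha hb => rw [map_add, ha, hb, add_zero]
      | smul c a _ ha => rw [map_smul, ha, smul_zero]
    | zero => simp
    | add a b _ _ ha hb => rw [map_add, LinearMap.add_apply, ha, hb, add_zero]
    | smul c a _ ha => rw [map_smul, LinearMap.smul_apply, ha, smul_zero]
  intro z hz
  induction hz using Submodule.span_induction with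
  | mem z hz => exact h1 z hz
  | zero => simp [qq, pr_zero_left]
  | add a b ha' hb' ha hb'' => rw [qq_add, ha, hb'', hb a ha' b hb', add_zero, add_zero]
  | smul c a _ ha =>
    have : qq (c • a) = c * (c * qq a) := by
      simp only [qq, Prod.smul_snd, Prod.smul_fst, pr_smul_left, pr_smul_right, smul_eq_mul]
    rw [this, ha, mul_zero, mul_zero]

end form

section count

open Finset in
/-- Subsets with less than `k` elements. -/
theorem card_small_subsets {α : Type} [DecidableEq α] (W : Finset α) (k : ℕ) :
    (W.powerset.filter fun J => J.card < k).card ≤ (W.card + 1) ^ k := by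
  have h1 : (W.powerset.filter fun J => J.card < k) ⊆
      (Finset.range k).biUnion fun i => W.powersetCard i := by
    intro J hJ
    rw [Finset.mem_filter, Finset.mem_powerset] at hJ
    exact Finset.mem_biUnion.2 ⟨J.card, Finset.mem_range.2 hJ.2,
      Finset.mem_powersetCard.2 ⟨hJ.1, rfl⟩⟩
  have h2 : ∀ n : ℕ, ∀ k : ℕ, ∑ i ∈ Finset.range k, n ^ i ≤ (n + 1) ^ k := by
    intro n k
    induction k with
    | zero => simp
    | succ k ih =>
      rw [Finset.sum_range_succ']
      have : ∑ i ∈ Finset.range k, n ^ (i + 1) = n * ∑ i ∈ Finset.range k, n ^ i := by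
        rw [Finset.mul_sum]
        exact Finset.sum_congr rfl fun i _ => by rw [pow_succ]; ring
      rw [this, pow_zero, pow_succ]
      have h3 : 1 ≤ (n + 1) ^ k := Nat.one_le_pow _ _ (by omega)
      nlinarith [Nat.mul_le_mul_left n ih]
  calc _ ≤ _ := Finset.card_le_card h1
    _ ≤ ∑ i ∈ Finset.range k, (W.powersetCard i).card := Finset.card_biUnion_le
    _ ≤ ∑ i ∈ Finset.range k, W.card ^ i := Finset.sum_le_sum fun i _ => by
        rw [Finset.card_powersetCard]
        exact Nat.choose_le_pow _ _
    _ ≤ _ := h2 _ _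

/-- Sequences in which some value is taken less than `kk` times on `W`. -/
theorem card_nongeneric {E : Type} [Fintype E] [DecidableEq E] (hE : 2 ≤ Fintype.card E) (m kk : ℕ)
    (W : Finset (Fin m)) :
    (Finset.univ.filter fun x : Fin m → E =>
      ∃ v : E, (W.filter fun j => x j = v).card < kk).card ≤
      Fintype.card E * ((W.card + 1) ^ kk *
        ((Fintype.card E - 1) ^ W.card * Fintype.card E ^ (m - W.card))) := by
  set N := Fintype.card E with hN
  set P : E → Finset (Fin m) → Finset (Fin m → E) := fun v J =>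
    Fintype.piFinset fun j => if j ∈ J then {v} else if j ∈ W then Finset.univ.erase v
      else Finset.univ with hP
  have hcard : ∀ v J, (P v J).card ≤ (N - 1) ^ W.card * N ^ (m - W.card) := by
    intro v J
    rw [hP, Fintype.card_piFinset]
    calc ∏ j, (if j ∈ J then ({v} : Finset E) else if j ∈ W then Finset.univ.erase v
          else Finset.univ).card
        ≤ ∏ j : Fin m, (if j ∈ W then (N - 1) else N) := by
          refine Finset.prod_le_prod' fun j _ => ?_
          by_cases h1 : j ∈ J <;> by_cases h2 : j ∈ W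
          · rw [if_pos h1, if_pos h2, Finset.card_singleton]; omega
          · rw [if_pos h1, if_neg h2, Finset.card_singleton]; omega
          · rw [if_neg h1, if_pos h2, if_pos h2, Finset.card_erase_of_mem (Finset.mem_univ _),
              Finset.card_univ]
          · rw [if_neg h1, if_neg h2, if_neg h2, Finset.card_univ]
      _ = (N - 1) ^ W.card * N ^ (m - W.card) := by
          rw [Finset.prod_ite, Finset.prod_const, Finset.prod_const]
          congr 2
          · congr 1
            ext j
            simp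
          · have : (Finset.univ.filter fun j : Fin m => j ∉ W) = Wᶜ := by
              ext j
              simp
            rw [this, Finset.card_compl, Fintype.card_fin]
  have hsub : (Finset.univ.filter fun x : Fin m → E =>
      ∃ v : E, (W.filter fun j => x j = v).card < kk) ⊆
      (Finset.univ : Finset E).biUnion fun v =>
        (W.powerset.filter fun J => J.card < kk).biUnion fun J => P v J := by
    intro x hx
    obtain ⟨v, hv⟩ := (Finset.mem_filter.1 hx).2
    refine Finset.mem_biUnion.2 ⟨v, Finset.mem_univ _, Finset.mem_biUnion.2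
      ⟨W.filter fun j => x j = v, ?_, ?_⟩⟩
    · exact Finset.mem_filter.2 ⟨Finset.mem_powerset.2 (Finset.filter_subset _ _), hv⟩
    · refine Fintype.mem_piFinset.2 fun j => ?_
      by_cases h2 : j ∈ W <;> by_cases h1 : x j = v
      · rw [if_pos (Finset.mem_filter.2 ⟨h2, h1⟩)]
        exact Finset.mem_singleton.2 h1
      · have hn : j ∉ W.filter fun j => x j = v := fun h => h1 (Finset.mem_filter.1 h).2
        rw [if_neg hn, if_pos h2]
        exact Finset.mem_erase.2 ⟨h1, Finset.mem_univ _⟩
      · have hn : j ∉ W.filter fun j => x j = v := fun h => h2 (Finset.mem_filter.1 h).1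
        rw [if_neg hn, if_neg h2]
        exact Finset.mem_univ _
      · have hn : j ∉ W.filter fun j => x j = v := fun h => h2 (Finset.mem_filter.1 h).1
        rw [if_neg hn, if_neg h2]
        exact Finset.mem_univ _
  refine le_trans (Finset.card_le_card hsub) ?_
  refine Finset.card_biUnion_le_card_mul _ _ _ fun v _ => ?_
  refine le_trans (Finset.card_biUnion_le_card_mul _ _ _ fun J _ => hcard v J) ?_
  exact Nat.mul_le_mul_right _ (card_small_subsets W kk)

end count

section algebra

/-- A non-zero submodule of `V1 ^ r` which is stable under all `T f` contains some `a ⊗ V1`. -/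
theorem stable_sub {r : ℕ} {F : Type} (T : F → V1 →ₗ[ZMod 2] V1)
    (hs : ∀ f w w', ee w' (T f w) = ee w (T f w'))
    (hn : ∀ w, w ≠ 0 → ∃ f, ee w (T f w) = 1)
    (M : Submodule (ZMod 2) (Fin r → V1)) (hM : M ≠ ⊥)
    (hst : ∀ f, ∀ x ∈ M, (fun i => T f (x i)) ∈ M) :
    ∃ a : Fin r → ZMod 2, a ≠ 0 ∧ ∀ w : V1, (fun i => a i • w) ∈ M := by
  -- the matrices of `T f`
  have hform : ∀ f, ∃ s b c : ZMod 2, ∀ w : V1, T f w = (s * w.1 + b * w.2, c * w.1 + s * w.2) := by
    intro f
    have h1 := hs f (1, 0) (0, 1)
    refine ⟨(T f (1, 0)).1, (T f (0, 1)).1, (T f (1, 0)).2, fun w => ?_⟩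
    have e1 : w = w.1 • ((1, 0) : V1) + w.2 • ((0, 1) : V1) := by
      ext <;> simp
    have e2 : (T f (0, 1)).2 = (T f (1, 0)).1 := by
      simp only [ee] at h1
      simpa using h1.symm
    conv_lhs => rw [e1]
    rw [map_add, map_smul, map_smul]
    ext
    · simp only [Prod.fst_add, Prod.smul_fst, smul_eq_mul]; ring
    · simp only [Prod.snd_add, Prod.smul_snd, smul_eq_mul, e2]; ring
  choose s b c hT using hform
  -- the operators `b E12 + c E21` preserve `M`
  have hop : ∀ f, ∀ x ∈ M, (fun i => ((b f * (x i).2, c f * (x i).1) : V1)) ∈ M := by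
    intro f x hx
    have h1 := M.sub_mem (hst f x hx) (M.smul_mem (s f) hx)
    have h2 : (fun i => T f (x i)) - s f • x = fun i => ((b f * (x i).2, c f * (x i).1) : V1) := by
      funext i
      simp only [Pi.sub_apply, Pi.smul_apply, hT]
      ext
      · simp only [Prod.fst_sub, Prod.smul_fst, smul_eq_mul]; ring
      · simp only [Prod.snd_sub, Prod.smul_snd, smul_eq_mul]; ring
    rwa [h2] at h1
  have hval : ∀ f w, ee w (T f w) = c f * w.1 + b f * w.2 := by
    intro f w
    have h3 : ∀ s b c : ZMod 2, ∀ w : V1,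
        ee w (s * w.1 + b * w.2, c * w.1 + s * w.2) = c * w.1 + b * w.2 := by decide
    rw [hT f w]
    exact h3 _ _ _ _
  obtain ⟨f1, h1⟩ := hn (1, 0) (by decide)
  obtain ⟨f2, h2⟩ := hn (0, 1) (by decide)
  obtain ⟨f3, h3⟩ := hn (1, 1) (by decide)
  rw [hval] at h1 h2 h3
  simp only [mul_one, mul_zero, add_zero, zero_add] at h1 h2 h3
  -- both `E12` and `E21` preserve `M`
  have hadd : ∀ (β γ β' γ' : ZMod 2),
      (∀ x ∈ M, (fun i => ((β * (x i).2, γ * (x i).1) : V1)) ∈ M) →
      (∀ x ∈ M, (fun i => ((β' * (x i).2, γ' * (x i).1) : V1)) ∈ M) →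
      ∀ x ∈ M, (fun i => (((β + β') * (x i).2, (γ + γ') * (x i).1) : V1)) ∈ M := by
    intro β γ β' γ' p q x hx
    have := M.add_mem (p x hx) (q x hx)
    have e : (fun i => ((β * (x i).2, γ * (x i).1) : V1)) +
        (fun i => ((β' * (x i).2, γ' * (x i).1) : V1)) =
        fun i => (((β + β') * (x i).2, (γ + γ') * (x i).1) : V1) := by
      funext i
      ext
      · simp only [Pi.add_apply, Prod.fst_add]; ring
      · simp only [Pi.add_apply, Prod.snd_add]; ring
    rwa [e] at this
  have hz2 : ∀ t : ZMod 2, t = 0 ∨ t = 1 := by decide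
  have hE : (∀ x ∈ M, (fun i => (((1 : ZMod 2) * (x i).2, (0 : ZMod 2) * (x i).1) : V1)) ∈ M) ∧
      (∀ x ∈ M, (fun i => (((0 : ZMod 2) * (x i).2, (1 : ZMod 2) * (x i).1) : V1)) ∈ M) := by
    have p1 := hop f1
    have p2 := hop f2
    have p3 := hop f3
    rw [h1] at p1
    rw [h2] at p2
    have e11 : (1 : ZMod 2) + 1 = 0 := by decide
    rcases hz2 (b f1) with hb | hb <;> rw [hb] at p1
    · -- `f1 = E21`
      refine ⟨?_, p1⟩
      rcases hz2 (c f2) with hc | hc <;> rw [hc] at p2
      · exact p2
      · have := hadd 1 1 0 1 p2 p1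
        rw [e11, add_zero] at this
        exact this
    · -- `f1 = E12 + E21`
      rcases hz2 (b f3) with hb3 | hb3
      · have hc3 : c f3 = 1 := by rw [hb3, add_zero] at h3; exact h3
        rw [hb3, hc3] at p3
        refine ⟨?_, p3⟩
        have := hadd 1 1 0 1 p1 p3
        rw [e11, add_zero] at this
        exact this
      · have hc3 : c f3 = 0 := by
          rw [hb3] at h3
          rcases hz2 (c f3) with h | h
          · exact h
          · rw [h] at h3
            exact absurd h3 (by decide)
        rw [hb3, hc3] at p3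
        refine ⟨p3, ?_⟩
        have := hadd 1 1 1 0 p1 p3
        rw [e11, add_zero] at this
        exact this
  obtain ⟨hE12, hE21⟩ := hE
  obtain ⟨x, hx, hx0⟩ := (Submodule.ne_bot_iff M).1 hM
  have q1 := hE12 x hx
  have q2 := hE21 x hx
  have q3 := hE21 _ q1
  have q4 := hE12 _ q2
  simp only [one_mul, zero_mul] at q1 q2 q3 q4
  have hlin : ∀ a : Fin r → ZMod 2, (fun i => ((a i, 0) : V1)) ∈ M → (fun i => ((0, a i) : V1)) ∈ M →
      ∀ w : V1, (fun i => a i • w) ∈ M := by
    intro a ha hb w
    have := M.add_mem (M.smul_mem w.1 ha) (M.smul_mem w.2 hb)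
    have e : w.1 • (fun i => ((a i, 0) : V1)) + w.2 • (fun i => ((0, a i) : V1)) =
        fun i => a i • w := by
      funext i
      ext
      · simp only [Pi.add_apply, Pi.smul_apply, Prod.fst_add, Prod.smul_fst, smul_eq_mul]; ring
      · simp only [Pi.add_apply, Pi.smul_apply, Prod.snd_add, Prod.smul_snd, smul_eq_mul]; ring
    rwa [e] at this
  by_cases hx1 : (fun i => (x i).1) = 0
  · refine ⟨fun i => (x i).2, ?_, hlin _ q1 q3⟩
    intro hx2
    apply hx0
    funext i
    ext
    · exact congrFun hx1 i
    · exact congrFun hx2 i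
  · exact ⟨fun i => (x i).1, hx1, hlin _ q4 q2⟩

end algebra

section final

/-- Case 2 (b): a maximal totally singular subspace which does not project onto `V1 ^ r`. -/
theorem dep_of_proj {r : ℕ} {F : Type} (T : F → V1 →ₗ[ZMod 2] V1)
    (hs : ∀ f w w', ee w' (T f w) = ee w (T f w'))
    (hn : ∀ w, w ≠ 0 → ∃ f, ee w (T f w) = 1) (g : F → Fin r → V1)
    (a : (Fin r → V1) × (Fin r → V1))
    (W : Submodule (ZMod 2) ((Fin r → V1) × (Fin r → V1)))
    (hW : ∀ z ∈ W, qq z = 0) (hc : Nat.card W = 4 ^ r)
    (hgood : ∀ z, z + a ∈ W → ∀ f, pr z.2 (fun i => g f i + T f (z.1 i)) = 0)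
    (hV : W.map (LinearMap.fst (ZMod 2) (Fin r → V1) (Fin r → V1)) ≠ ⊤)
    {J : Type} (z : J → (Fin r → V1) × (Fin r → V1)) (hz : ∀ j, z j + a ∈ W) :
    Dep T g (fun j => (z j).1) := by
  classical
  -- the orthogonal of the projection
  set M : Submodule (ZMod 2) (Fin r → V1) :=
    { carrier := {m | ∀ x ∈ W, pr m x.1 = 0}
      add_mem' := by
        intro m m' h h' x hx
        rw [pr_add_left, h x hx, h' x hx, add_zero]
      zero_mem' := by
        intro x _
        exact pr_zero_left _
      smul_mem' := by
        intro s m h x hx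
        rw [pr_smul_left, h x hx, smul_zero] } with hMdef
  have hM : ∀ m, m ∈ M ↔ ∀ x ∈ W, pr m x.1 = 0 := fun m => Iff.rfl
  -- `(0, m)` is in `W`
  have hmem : ∀ m ∈ M, ((0, m) : (Fin r → V1) × (Fin r → V1)) ∈ W := by
    intro m hm
    by_contra hnot
    have h1 : ∀ z ∈ Submodule.span (ZMod 2) (insert ((0, m) : (Fin r → V1) × (Fin r → V1))
        (W : Set ((Fin r → V1) × (Fin r → V1)))), qq z = 0 := by
      refine span_singular _ ?_ ?_
      · intro z hz
        rcases hz with rfl | hz
        · simp only [qq]
          rw [pr_comm, pr_zero_left]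
        · exact hW z hz
      · have hbW : ∀ y ∈ W, ∀ z ∈ W, bb r y z = 0 := by
          intro y hy z hz
          have := qq_add y z
          rw [hW _ (W.add_mem hy hz), hW _ hy, hW _ hz, zero_add, zero_add] at this
          exact this.symm
        have hbm : ∀ y ∈ W, bb r (0, m) y = 0 := by
          intro y hy
          rw [bb_apply, pr_comm y.2, pr_zero_left, add_zero]
          exact hm y hy
        intro y hy z hz
        rcases hy with rfl | hy <;> rcases hz with rfl | hz
        · rw [bb_apply]; exact two_F _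
        · exact hbm z hz
        · rw [bb_comm]; exact hbm y hy
        · exact hbW y hy z hz
    have h2 := card_singular _ h1
    have h3 : W < Submodule.span (ZMod 2) (insert ((0, m) : (Fin r → V1) × (Fin r → V1))
        (W : Set ((Fin r → V1) × (Fin r → V1)))) := by
      refine lt_of_le_of_ne ?_ ?_
      · intro x hx
        exact Submodule.subset_span (Or.inr hx)
      · intro h
        apply hnot
        rw [h]
        exact Submodule.subset_span (Or.inl rfl)
    have h4 : Nat.card W < Nat.card (Submodule.span (ZMod 2)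
        (insert ((0, m) : (Fin r → V1) × (Fin r → V1))
        (W : Set ((Fin r → V1) × (Fin r → V1))))) :=
      Set.Finite.card_lt_card (Set.toFinite _) h3
    omega
  -- the key relation
  have hkey : ∀ z, z + a ∈ W → ∀ m ∈ M, ∀ f, pr m (fun i => g f i + T f (z.1 i)) = 0 := by
    intro z hz m hm f
    have h1 := hgood z hz f
    have h2 := hgood (z + (0, m)) (by
      have := W.add_mem hz (hmem m hm)
      rwa [add_right_comm]) f
    simp only [Prod.snd_add, Prod.fst_add, Pi.add_apply, Pi.zero_apply, add_zero] at h2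
    rw [pr_add_left, h1, zero_add] at h2
    exact h2
  -- `M` is stable
  have hst : ∀ f, ∀ x ∈ M, (fun i => T f (x i)) ∈ M := by
    intro f m hm
    rw [hM]
    intro x hx
    have e0 : a + a ∈ W := by rw [two_Z]; exact W.zero_mem
    have h1 := hkey a e0 m hm f
    have h2 := hkey (x + a) (by rw [add_assoc, two_Z, add_zero]; exact hx) m hm f
    have h3 : pr m (fun i => g f i + T f ((x + a).1 i)) + pr m (fun i => g f i + T f (a.1 i)) =
        pr m (fun i => T f (x.1 i)) := by
      rw [← pr_add_right]
      congr 1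
      funext i
      simp only [Pi.add_apply, Prod.fst_add, map_add]
      have : ∀ p q s : V1, p + (q + s) + (p + s) = q := by decide
      exact this _ _ _
    rw [h1, h2, add_zero] at h3
    have h4 : pr (fun i => T f (m i)) x.1 = pr m (fun i => T f (x.1 i)) := by
      simp only [pr]
      refine Finset.sum_congr rfl fun i _ => ?_
      rw [ee_comm, ← hs f]
    rw [h4, ← h3]
  -- `M` is not trivial
  have hMne : M ≠ ⊥ := by
    intro hbot
    apply hV
    by_contra hV'
    obtain ⟨φ, hφ, hφW⟩ := Submodule.exists_le_ker_of_lt_top _ (lt_top_iff_ne_top.2 hV')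
    -- the vector representing `φ`
    set m : Fin r → V1 := fun i => (φ (Pi.single i (0, 1)), φ (Pi.single i (1, 0))) with hm
    have hrep : ∀ x, pr m x = φ x := by
      intro x
      have e1 : x = ∑ i, Pi.single i (x i) := (Finset.univ_sum_single x).symm
      conv_rhs => rw [e1]
      rw [map_sum]
      refine Finset.sum_congr rfl fun i _ => ?_
      have e2 : (Pi.single i (x i) : Fin r → V1) =
          (x i).1 • (Pi.single i ((1, 0) : V1) : Fin r → V1) +
            (x i).2 • (Pi.single i ((0, 1) : V1) : Fin r → V1) := by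
        rw [← Pi.single_smul, ← Pi.single_smul, ← Pi.single_add]
        congr 1
        ext <;> simp
      rw [e2, map_add, map_smul, map_smul]
      simp only [ee, hm, smul_eq_mul]
      ring
    have hmM : m ∈ M := by
      rw [hM]
      intro x hx
      rw [hrep]
      exact hφW (Submodule.mem_map_of_mem hx)
    rw [hbot, Submodule.mem_bot] at hmM
    apply hφ
    refine LinearMap.ext fun x => ?_
    rw [← hrep x, hmM, pr_zero_left]
    rfl
  obtain ⟨α, hα, hαM⟩ := stable_sub T hs hn M hMne hst
  have hprα : ∀ (w : V1) (x : Fin r → V1), pr (fun i => α i • w) x = ee w (∑ i, α i • x i) := by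
    intro w x
    have : ∀ s : Finset (Fin r), ∑ i ∈ s, ee (α i • w) (x i) = ee w (∑ i ∈ s, α i • x i) := by
      intro s
      induction s using Finset.induction_on with
      | empty => simp [ee]
      | insert i s hi ih =>
        rw [Finset.sum_insert hi, Finset.sum_insert hi, ee_add_right, ih, ee_smul_left,
          ee_smul_right]
    exact this Finset.univ
  have hconst : ∀ z, z + a ∈ W → ∑ i, α i • z.1 i = ∑ i, α i • a.1 i := by
    intro z hz
    have h1 : ∀ w, ee w (∑ i, α i • (z + a).1 i) = 0 := by
      intro w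
      rw [← hprα]
      exact (hM _).1 (hαM w) _ hz
    have h2 : ∑ i, α i • (z + a).1 i = 0 := by
      refine ee_nondeg _ fun w => ?_
      rw [ee_comm]
      exact h1 w
    have h3 : ∑ i, α i • (z + a).1 i = ∑ i, α i • z.1 i + ∑ i, α i • a.1 i := by
      rw [← Finset.sum_add_distrib]
      refine Finset.sum_congr rfl fun i _ => ?_
      rw [Prod.fst_add, Pi.add_apply, smul_add]
    rw [h3] at h2
    have h4 : ∀ p q : V1, p + q = 0 → p = q := by decide
    exact h4 _ _ h2
  refine ⟨α, hα, ∑ i, α i • a.1 i, fun j => hconst _ (hz j), fun f => ?_⟩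
  have e0 : a + a ∈ W := by rw [two_Z]; exact W.zero_mem
  have h1 : ∀ w, ee w (∑ i, α i • (g f i + T f (a.1 i))) = 0 := by
    intro w
    rw [← hprα]
    exact hkey a e0 _ (hαM w) f
  have h2 : ∑ i, α i • (g f i + T f (a.1 i)) = 0 := by
    refine ee_nondeg _ fun w => ?_
    rw [ee_comm]
    exact h1 w
  have h3 : ∑ i, α i • (g f i + T f (a.1 i)) = ∑ i, α i • g f i + T f (∑ i, α i • a.1 i) := by
    rw [map_sum, ← Finset.sum_add_distrib]
    refine Finset.sum_congr rfl fun i _ => ?_
    rw [smul_add, map_smul]
  rw [h3] at h2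
  have h4 : ∀ p q : V1, p + q = 0 → p = q := by decide
  exact h4 _ _ h2

end final

end J2

open J2 in
theorem T2core (r kk : ℕ) (hr : 1 ≤ r) : ∃ C : ℕ, ∀ (F : Type) (_ : Finite F)
    (T : F → V1 →ₗ[ZMod 2] V1)
    (_ : ∀ f w w', ee w' (T f w) = ee w (T f w'))
    (_ : ∀ w, w ≠ 0 → ∃ f, ee w (T f w) = 1)
    (g : F → Fin r → V1) (m : ℕ) (W : Finset (Fin m)),
    Nat.card {z : Fin m → (Fin r → V1) × (Fin r → V1) //
      (∀ i j, Unl (z i) (z j)) ∧
      (∀ f j, pr (z j).2 (fun i => g f i + T f ((z j).1 i)) = 0) ∧
      ¬ Dep T g (fun j => (z j).1) ∧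
      ∃ v : Fin r → V1, Nat.card {j : Fin m // j ∈ W ∧ (z j).1 = v} < kk} ≤
      C * (W.card + 1) ^ kk * (4 ^ r - 1) ^ W.card * (4 ^ r) ^ (m - W.card) := by
  classical
  have hfin : Finite (Submodule (ZMod 2) ((Fin r → V1) × (Fin r → V1))) := inferInstance
  have := Fintype.ofFinite (Submodule (ZMod 2) ((Fin r → V1) × (Fin r → V1)))
  have hN : 2 ≤ 4 ^ r := by
    calc 2 ≤ 4 ^ 1 := by norm_num
      _ ≤ 4 ^ r := Nat.pow_le_pow_right (by norm_num) hr
  have hcE : Fintype.card (Fin r → V1) = 4 ^ r := by
    rw [Fintype.card_fun, Fintype.card_fin]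
    congr 1
  refine ⟨Fintype.card (((Fin r → V1) × (Fin r → V1)) ×
    Submodule (ZMod 2) ((Fin r → V1) × (Fin r → V1))) * 4 ^ r, ?_⟩
  intro F hF T hs hn g m W
  set X : Finset (Fin m → (Fin r → V1) × (Fin r → V1)) := Finset.univ.filter fun z =>
      (∀ i j, Unl (z i) (z j)) ∧
      (∀ f j, pr (z j).2 (fun i => g f i + T f ((z j).1 i)) = 0) ∧
      ¬ Dep T g (fun j => (z j).1) ∧
      ∃ v : Fin r → V1, Nat.card {j : Fin m // j ∈ W ∧ (z j).1 = v} < kk with hX
  have hXc : Nat.card {z : Fin m → (Fin r → V1) × (Fin r → V1) //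
      (∀ i j, Unl (z i) (z j)) ∧
      (∀ f j, pr (z j).2 (fun i => g f i + T f ((z j).1 i)) = 0) ∧
      ¬ Dep T g (fun j => (z j).1) ∧
      ∃ v : Fin r → V1, Nat.card {j : Fin m // j ∈ W ∧ (z j).1 = v} < kk} = X.card := by
    rw [Nat.card_eq_fintype_card, Fintype.card_subtype]
  rw [hXc]
  set P : ((Fin r → V1) × (Fin r → V1)) × Submodule (ZMod 2) ((Fin r → V1) × (Fin r → V1)) →
      Finset (Fin m → (Fin r → V1) × (Fin r → V1)) := fun p =>
    X.filter fun z => (∀ y ∈ p.2, qq y = 0) ∧ ∀ j, z j + p.1 ∈ p.2 with hP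
  -- every counted sequence is in some `P`
  have hcover : X ⊆ Finset.univ.biUnion P := by
    intro z hz
    have hz' := (Finset.mem_filter.1 hz).2
    rcases isEmpty_or_nonempty (Fin m) with hm | ⟨⟨j0⟩⟩
    · refine Finset.mem_biUnion.2 ⟨(0, ⊥), Finset.mem_univ _, Finset.mem_filter.2 ⟨hz, ?_, ?_⟩⟩
      · intro y hy
        rw [(Submodule.mem_bot _).1 hy]
        exact pr_zero_left _
      · intro j
        exact (hm.false j).elim
    · refine Finset.mem_biUnion.2 ⟨(z j0, Submodule.span (ZMod 2) (Set.range fun j => z j + z j0)),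
        Finset.mem_univ _, Finset.mem_filter.2 ⟨hz, ?_, ?_⟩⟩
      · have hq : ∀ i j, qq (z i + z j) = 0 := fun i j => hz'.1 i j
        refine span_singular _ ?_ ?_
        · rintro _ ⟨i, rfl⟩
          exact hq i j0
        · rintro _ ⟨i, rfl⟩ _ ⟨j, rfl⟩
          have h1 := qq_add (z i + z j0) (z j + z j0)
          have h2 : z i + z j0 + (z j + z j0) = z i + z j := by
            rw [add_add_add_comm, two_Z, add_zero]
          rw [h2, hq, hq, hq, zero_add, zero_add] at h1
          exact h1.symm
      · intro j
        exact Submodule.subset_span ⟨j, rfl⟩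
  -- the bound for one `P`
  have hbound : ∀ p, (P p).card ≤ 4 ^ r * ((W.card + 1) ^ kk *
      ((4 ^ r - 1) ^ W.card * (4 ^ r) ^ (m - W.card))) := by
    rintro ⟨a, W0⟩
    by_cases hsing : ∀ y ∈ W0, qq y = 0
    swap
    · have : P (a, W0) = ∅ := by
        rw [hP]
        refine Finset.filter_eq_empty_iff.2 ?_
        intro z _ h
        exact hsing h.1
      rw [this, Finset.card_empty]
      exact Nat.zero_le _
    set good : Finset ((Fin r → V1) × (Fin r → V1)) := Finset.univ.filter fun z =>
      z + a ∈ W0 ∧ ∀ f, pr z.2 (fun i => g f i + T f (z.1 i)) = 0 with hgood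
    have hsub : P (a, W0) ⊆ Fintype.piFinset fun _ => good := by
      intro z hz
      have hz' := Finset.mem_filter.1 hz
      have hz2 := (Finset.mem_filter.1 hz'.1).2
      exact Fintype.mem_piFinset.2 fun j => Finset.mem_filter.2 ⟨Finset.mem_univ _, hz'.2.2 j,
        fun f => hz2.2.1 f j⟩
    have hW0c : Nat.card W0 ≤ 4 ^ r := card_singular W0 hsing
    set coset : Finset ((Fin r → V1) × (Fin r → V1)) := Finset.univ.filter fun z =>
      z + a ∈ W0 with hcoset
    have hcosc : coset.card = Nat.card W0 := by
      rw [hcoset, Nat.card_eq_fintype_card, Fintype.card_subtype]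
      refine Finset.card_bij (fun z _ => z + a) ?_ ?_ ?_
      · intro z hz
        exact Finset.mem_filter.2 ⟨Finset.mem_univ _, (Finset.mem_filter.1 hz).2⟩
      · intro x _ y _ h
        exact add_right_cancel h
      · intro y hy
        refine ⟨y + a, Finset.mem_filter.2 ⟨Finset.mem_univ _, ?_⟩, ?_⟩
        · rw [add_assoc, two_Z, add_zero]
          exact (Finset.mem_filter.1 hy).2
        · rw [add_assoc, two_Z, add_zero]
    have hgc : good ⊆ coset := by
      intro z hz
      exact Finset.mem_filter.2 ⟨Finset.mem_univ _, (Finset.mem_filter.1 hz).2.1⟩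
    by_cases hlt : good.card < 4 ^ r
    · -- case 1
      have h1 : (P (a, W0)).card ≤ (4 ^ r - 1) ^ m := by
        refine le_trans (Finset.card_le_card hsub) ?_
        rw [Fintype.card_piFinset, Finset.prod_const, Finset.card_univ, Fintype.card_fin]
        exact Nat.pow_le_pow_left (by omega) _
      have hWm : W.card ≤ m := by
        have := Finset.card_le_univ W
        rwa [Fintype.card_fin] at this
      have h2 : (4 ^ r - 1) ^ m ≤ (4 ^ r - 1) ^ W.card * (4 ^ r) ^ (m - W.card) := by
        calc (4 ^ r - 1) ^ m = (4 ^ r - 1) ^ W.card * (4 ^ r - 1) ^ (m - W.card) := by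
              rw [← pow_add]; congr 1; omega
          _ ≤ _ := Nat.mul_le_mul_left _ (Nat.pow_le_pow_left (by omega) _)
      have h3 : 1 ≤ 4 ^ r * (W.card + 1) ^ kk :=
        Nat.mul_pos (by positivity) (by positivity)
      calc (P (a, W0)).card ≤ 1 * ((4 ^ r - 1) ^ W.card * (4 ^ r) ^ (m - W.card)) := by
            rw [one_mul]; exact le_trans h1 h2
        _ ≤ (4 ^ r * (W.card + 1) ^ kk) * ((4 ^ r - 1) ^ W.card * (4 ^ r) ^ (m - W.card)) :=
            Nat.mul_le_mul_right _ h3
        _ = _ := by ring
    · -- case 2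
      have hgcard := Finset.card_le_card hgc
      rw [hcosc] at hgcard
      have hW0 : Nat.card W0 = 4 ^ r := by omega
      have hgeq : good = coset := Finset.eq_of_subset_of_card_le hgc (by rw [hcosc]; omega)
      have hall : ∀ z, z + a ∈ W0 → ∀ f, pr z.2 (fun i => g f i + T f (z.1 i)) = 0 := by
        intro z hz
        have : z ∈ good := by
          rw [hgeq]
          exact Finset.mem_filter.2 ⟨Finset.mem_univ _, hz⟩
        exact (Finset.mem_filter.1 this).2.2
      by_cases hV : W0.map (LinearMap.fst (ZMod 2) (Fin r → V1) (Fin r → V1)) = ⊤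
      · -- the projection is a bijection
        have hsurj : Set.SurjOn (Prod.fst : (Fin r → V1) × (Fin r → V1) → (Fin r → V1)) coset
            (Finset.univ : Finset (Fin r → V1)) := by
          intro x _
          have hx : x + a.1 ∈ W0.map (LinearMap.fst (ZMod 2) (Fin r → V1) (Fin r → V1)) := by
            rw [hV]; exact Submodule.mem_top
          obtain ⟨y, hy, hyx⟩ := hx
          refine ⟨y + a, ?_, ?_⟩
          · refine Finset.mem_coe.2 (Finset.mem_filter.2 ⟨Finset.mem_univ _, ?_⟩)
            rw [add_assoc, two_Z, add_zero]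
            exact hy
          · change y.1 + a.1 = x
            have h1 : y.1 = x + a.1 := hyx
            rw [h1, add_assoc, two_E, add_zero]
        have hinj : Set.InjOn (Prod.fst : (Fin r → V1) × (Fin r → V1) → (Fin r → V1)) coset := by
          refine Finset.injOn_of_surjOn_of_card_le _ ?_ hsurj ?_
          · intro x _
            exact Finset.mem_coe.2 (Finset.mem_univ _)
          · rw [hcosc, hW0, Finset.card_univ, hcE]
        have h2 := card_nongeneric (E := Fin r → V1) (by rw [hcE]; exact hN) m kk W
        rw [hcE] at h2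
        refine le_trans ?_ h2
        refine Finset.card_le_card_of_injOn (fun z j => (z j).1) ?_ ?_
        · intro z hz
          have hz2 := (Finset.mem_filter.1 (Finset.mem_filter.1 hz).1).2
          obtain ⟨v, hv⟩ := hz2.2.2.2
          refine Finset.mem_coe.2 (Finset.mem_filter.2 ⟨Finset.mem_univ _, v, ?_⟩)
          rw [Nat.card_eq_fintype_card, Fintype.card_subtype] at hv
          refine lt_of_le_of_lt (le_of_eq ?_) hv
          congr 1
          ext j
          simp
        · intro z hz z' hz' h
          have hz2 := (Finset.mem_filter.1 hz).2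
          have hz2' := (Finset.mem_filter.1 hz').2
          funext j
          exact hinj (Finset.mem_coe.2 (Finset.mem_filter.2 ⟨Finset.mem_univ _, hz2.2 j⟩))
            (Finset.mem_coe.2 (Finset.mem_filter.2 ⟨Finset.mem_univ _, hz2'.2 j⟩))
            (congrFun h j)
      · -- dependent
        have : P (a, W0) = ∅ := by
          refine Finset.filter_eq_empty_iff.2 ?_
          intro z hz h
          have hz2 := (Finset.mem_filter.1 hz).2
          exact hz2.2.2.1 (dep_of_proj T hs hn g a W0 hsing hW0 hall hV z h.2)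
        rw [this, Finset.card_empty]
        exact Nat.zero_le _
  calc X.card ≤ (Finset.univ.biUnion P).card := Finset.card_le_card hcover
    _ ≤ Finset.univ.card * (4 ^ r * ((W.card + 1) ^ kk *
        ((4 ^ r - 1) ^ W.card * (4 ^ r) ^ (m - W.card)))) :=
        Finset.card_biUnion_le_card_mul _ _ _ fun p _ => hbound p
    _ = _ := by
        rw [Finset.card_univ]
        ring

end Pool.Agent.Sm.BJ2
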