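import Pool.Agent.Lib.Sm.JDefs

/-!
Module J3 (SMITH, block J): the number of solutions of a system of equations over `F_2` in terms of the
dual vectors.
-/

set_option autoImplicit false

namespace Pool.Agent.Sm.BJ

/-- the sign of an element of `ZMod 2` -/
def sgz (x : ZMod 2) : ℤ := if x = 0 then 1 else -1

theorem sgz_add (x y : ZMod 2) : sgz (x + y) = sgz x * sgz y := by
  revert x y; decide

theorem sgz_zero : sgz 0 = 1 := rfl

theorem sgz_le (x : ZMod 2) : sgz x ≤ 1 := by revert x; decide

theorem sum_sgz {V : Type} [AddCommGroup V] [Fintype V] (f : V →+ ZMod 2) :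
    ∑ x, sgz (f x) = open Classical in if ∀ x, f x = 0 then (Fintype.card V : ℤ) else 0 := by
  classical
  split_ifs with h
  · simp only [h, sgz_zero, Finset.sum_const, Finset.card_univ, nsmul_eq_mul, mul_one]
  · push Not at h
    obtain ⟨y, hy⟩ := h
    have hy1 : f y = 1 := by
      generalize f y = a at hy ⊢
      revert a; decide
    have h1 : ∑ x, sgz (f x) = ∑ x, sgz (f (x + y)) :=
      (Fintype.sum_equiv (Equiv.addRight y) _ _ (fun x => rfl)).symm
    have h2 : ∑ x, sgz (f (x + y)) = - ∑ x, sgz (f x) := by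
      rw [← Finset.sum_neg_distrib]
      apply Finset.sum_congr rfl
      intro x _
      rw [map_add, sgz_add, hy1]
      simp [sgz]
    linarith

theorem ee_comm (x y : V1) : ee x y = ee y x := by
  revert x y; decide

theorem ee_add_left (x y z : V1) : ee (x + y) z = ee x z + ee y z := by
  revert x y z; decide

theorem ee_add_right (x y z : V1) : ee x (y + z) = ee x y + ee x z := by
  revert x y z; decide

theorem ee_smul_right (a : ZMod 2) (x y : V1) : ee x (a • y) = a * ee x y := by
  revert a x y; decide

theorem ee_smul_left (a : ZMod 2) (x y : V1) : ee (a • x) y = a * ee x y := by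
  revert a x y; decide

theorem ee_zero_right (x : V1) : ee x 0 = 0 := by revert x; decide

theorem ee_zero_left (x : V1) : ee 0 x = 0 := by revert x; decide

theorem ee_nondeg (x : V1) (h : ∀ y, ee y x = 0) : x = 0 := by
  revert x; decide

theorem pr_comm {r : ℕ} (x y : Fin r → V1) : pr x y = pr y x := by
  unfold pr
  exact Finset.sum_congr rfl fun i _ => ee_comm _ _

theorem pr_add_left {r : ℕ} (x y z : Fin r → V1) : pr (x + y) z = pr x z + pr y z := by
  unfold pr
  rw [← Finset.sum_add_distrib]
  exact Finset.sum_congr rfl fun i _ => ee_add_left _ _ _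

theorem pr_add_right {r : ℕ} (x y z : Fin r → V1) : pr x (y + z) = pr x y + pr x z := by
  unfold pr
  rw [← Finset.sum_add_distrib]
  exact Finset.sum_congr rfl fun i _ => ee_add_right _ _ _

theorem pr_smul_right {r : ℕ} (a : ZMod 2) (x y : Fin r → V1) : pr x (a • y) = a * pr x y := by
  unfold pr
  rw [Finset.mul_sum]
  exact Finset.sum_congr rfl fun i _ => ee_smul_right _ _ _

theorem pr_zero_left {r : ℕ} (x : Fin r → V1) : pr 0 x = 0 := by
  unfold pr
  exact Finset.sum_eq_zero fun i _ => ee_zero_left _

theorem pr_zero_right {r : ℕ} (x : Fin r → V1) : pr x 0 = 0 := by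
  unfold pr
  exact Finset.sum_eq_zero fun i _ => ee_zero_right _

theorem pr_nondeg {r : ℕ} (x : Fin r → V1) (h : ∀ y, pr y x = 0) : x = 0 := by
  funext i
  apply ee_nondeg
  intro y
  have h1 := h (Pi.single i y)
  unfold pr at h1
  rw [Finset.sum_eq_single i] at h1
  · simpa using h1
  · intro j _ hj
    rw [Pi.single_eq_of_ne hj]
    exact ee_zero_left _
  · intro h'
    exact absurd (Finset.mem_univ i) h'

theorem dual_count {r : ℕ} {V I : Type} [AddCommGroup V] [Finite V] [Fintype I]
    (Φ : V →+ (I → Fin r → V1)) (c : I → Fin r → V1) :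
    Nat.card {ξ : V // Φ ξ = c} * (4 ^ r) ^ (Fintype.card I) ≤
      Nat.card V * Nat.card {l : I → Fin r → V1 // ∀ ξ, ∑ i, pr (l i) (Φ ξ i) = 0} := by
  classical
  have := Fintype.ofFinite V
  have hcardE : Fintype.card (I → Fin r → V1) = (4 ^ r) ^ (Fintype.card I) := by
    rw [Fintype.card_fun, Fintype.card_fun, Fintype.card_fin]
    rfl
  -- the double sum
  have key : ∑ l : I → Fin r → V1, ∑ ξ : V, sgz (∑ i, pr (l i) (Φ ξ i + c i)) =
      ∑ ξ : V, ∑ l : I → Fin r → V1, sgz (∑ i, pr (l i) (Φ ξ i + c i)) := Finset.sum_comm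
  have hR : ∀ ξ : V, ∑ l : I → Fin r → V1, sgz (∑ i, pr (l i) (Φ ξ i + c i)) =
      if Φ ξ = c then ((4 ^ r : ℕ) : ℤ) ^ (Fintype.card I) else 0 := by
    intro ξ
    let f : (I → Fin r → V1) →+ ZMod 2 :=
      { toFun := fun l => ∑ i, pr (l i) (Φ ξ i + c i)
        map_zero' := by
          apply Finset.sum_eq_zero
          intro i _
          exact pr_zero_left _
        map_add' := by
          intro x y
          rw [← Finset.sum_add_distrib]
          exact Finset.sum_congr rfl fun i _ => pr_add_left _ _ _ }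
    have h1 := sum_sgz f
    have h2 : (∀ x, f x = 0) ↔ Φ ξ = c := by
      constructor
      · intro h
        funext i
        have h3 : Φ ξ i + c i = 0 := by
          apply pr_nondeg
          intro y
          have h4 := h (Pi.single i y)
          change ∑ j, pr ((Pi.single i y : I → Fin r → V1) j) (Φ ξ j + c j) = 0 at h4
          rw [Finset.sum_eq_single i] at h4
          · simpa using h4
          · intro j _ hj
            rw [Pi.single_eq_of_ne hj]
            exact pr_zero_left _
          · intro h'
            exact absurd (Finset.mem_univ i) h'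
        have h5 : ∀ a b : V1, a + b = 0 → a = b := by decide
        funext j
        exact h5 _ _ (congrFun h3 j)
      · intro h l
        change ∑ i, pr (l i) (Φ ξ i + c i) = 0
        apply Finset.sum_eq_zero
        intro i _
        have h5 : ∀ a : V1, a + a = 0 := by decide
        have h6 : Φ ξ i + c i = 0 := by
          rw [h]
          funext j
          exact h5 _
        rw [h6]
        exact pr_zero_right _
    rw [show (∑ l : I → Fin r → V1, sgz (∑ i, pr (l i) (Φ ξ i + c i))) = ∑ l, sgz (f l) from rfl, h1]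
    by_cases h : Φ ξ = c
    · rw [if_pos (h2.2 h), if_pos h, hcardE]
      push_cast
      rfl
    · rw [if_neg (fun h' => h (h2.1 h')), if_neg h]
  have hL : ∀ l : I → Fin r → V1, ∑ ξ : V, sgz (∑ i, pr (l i) (Φ ξ i + c i)) ≤
      if ∀ ξ, ∑ i, pr (l i) (Φ ξ i) = 0 then (Fintype.card V : ℤ) else 0 := by
    intro l
    let f : V →+ ZMod 2 :=
      { toFun := fun ξ => ∑ i, pr (l i) (Φ ξ i)
        map_zero' := by
          apply Finset.sum_eq_zero
          intro i _
          rw [map_zero]
          exact pr_zero_right _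
        map_add' := by
          intro x y
          rw [← Finset.sum_add_distrib]
          refine Finset.sum_congr rfl fun i _ => ?_
          rw [map_add]
          exact pr_add_right _ _ _ }
    have h1 := sum_sgz f
    have h2 : ∑ ξ : V, sgz (∑ i, pr (l i) (Φ ξ i + c i)) =
        (∑ ξ : V, sgz (f ξ)) * sgz (∑ i, pr (l i) (c i)) := by
      rw [Finset.sum_mul]
      refine Finset.sum_congr rfl fun ξ _ => ?_
      rw [← sgz_add]
      congr 1
      change _ = ∑ i, pr (l i) (Φ ξ i) + _
      rw [← Finset.sum_add_distrib]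
      exact Finset.sum_congr rfl fun i _ => pr_add_right _ _ _
    rw [h2, h1]
    by_cases h : ∀ x, f x = 0
    · have h' : ∀ ξ, ∑ i, pr (l i) (Φ ξ i) = 0 := h
      rw [if_pos h, if_pos h']
      calc (Fintype.card V : ℤ) * sgz (∑ i, pr (l i) (c i)) ≤ (Fintype.card V : ℤ) * 1 :=
            mul_le_mul_of_nonneg_left (sgz_le _) (by positivity)
        _ = Fintype.card V := mul_one _
    · have h' : ¬ ∀ ξ, ∑ i, pr (l i) (Φ ξ i) = 0 := h
      rw [if_neg h, if_neg h', zero_mul]
  have h1 : ∑ ξ : V, (if Φ ξ = c then ((4 ^ r : ℕ) : ℤ) ^ (Fintype.card I) else 0) ≤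
      ∑ l : I → Fin r → V1, (if ∀ ξ, ∑ i, pr (l i) (Φ ξ i) = 0 then (Fintype.card V : ℤ) else 0) := by
    rw [← Finset.sum_congr rfl fun ξ _ => hR ξ, ← key]
    exact Finset.sum_le_sum fun l _ => hL l
  rw [← Finset.sum_filter, ← Finset.sum_filter, Finset.sum_const, Finset.sum_const,
    nsmul_eq_mul, nsmul_eq_mul] at h1
  rw [Nat.card_eq_fintype_card, Nat.card_eq_fintype_card, Nat.card_eq_fintype_card,
    Fintype.card_subtype, Fintype.card_subtype, mul_comm (Fintype.card V)]
  exact_mod_cast h1

end Pool.Agent.Sm.BJ
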