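import Pool.Agent.Lib.Sm.JDefs
import Pool.Agent.Lib.BSDP.R.Char

/-!
Module J4 (SMITH, block J): the additive Legendre symbol, constants and reciprocity.
-/

set_option autoImplicit false

open Polynomial Pool.Agent.BSDP.R

namespace Pool.Agent.Sm.BJ

variable {k : Type} [Field k]

theorem sgn_of_nonsq {x : k} (hx : ¬ IsSquare x) : sgn x = -1 := by
  have h0 : x ≠ 0 := by
    rintro rfl
    exact hx ⟨0, by ring⟩
  unfold sgn
  rw [if_neg h0, if_neg hx]

theorem sgn_sq {x : k} (h0 : x ≠ 0) (hx : IsSquare x) : sgn x = 1 := by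
  unfold sgn
  rw [if_neg h0, if_pos hx]

theorem sgn_one' : sgn (1 : k) = 1 := sgn_sq one_ne_zero ⟨1, by ring⟩

theorem sgn_pow' [Finite k] (x : k) (n : ℕ) : sgn (x ^ n) = sgn x ^ n := by
  induction n with
  | zero => rw [pow_zero, pow_zero, sgn_one']
  | succ n ih => rw [pow_succ, pow_succ, sgn_mul, ih]

theorem sgn_cases {x : k} (hx : x ≠ 0) : sgn x = 1 ∨ sgn x = -1 := by
  by_cases h : IsSquare x
  · exact Or.inl (sgn_sq hx h)
  · exact Or.inr (sgn_of_nonsq h)

/-- the additive sign -/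
noncomputable def asg (x : k) : ZMod 2 := open Classical in if sgn x = -1 then 1 else 0

theorem asg_mul [Finite k] {x y : k} (hx : x ≠ 0) (hy : y ≠ 0) : asg (x * y) = asg x + asg y := by
  unfold asg
  rw [sgn_mul]
  rcases sgn_cases hx with h | h <;> rcases sgn_cases hy with h' | h' <;> rw [h, h'] <;> norm_num
  decide

theorem asg_one : asg (1 : k) = 0 := by
  unfold asg
  rw [sgn_one', if_neg (by norm_num)]

theorem asg_pow [Finite k] {x : k} (hx : x ≠ 0) (n : ℕ) : asg (x ^ n) = n * asg x := by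
  induction n with
  | zero => rw [pow_zero, asg_one]; simp
  | succ n ih =>
    rw [pow_succ, asg_mul (pow_ne_zero n hx) hx, ih]
    push_cast
    ring

theorem leg_eq_asg [Finite k] (h2 : (2 : k) ≠ 0) {P : k[X]} (hP : Irreducible P) (hm : P.Monic)
    (f : k[X]) : leg P f = asg (resultant P f) := by
  unfold leg asg
  rw [chiP_eq_resultant h2 hP hm f]

theorem leg_C_nonsq [Finite k] (h2 : (2 : k) ≠ 0) {P : k[X]} (hP : Irreducible P) (hm : P.Monic)
    {u : k} (hu : ¬ IsSquare u) : leg P (C u) = (P.natDegree : ZMod 2) := by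
  have h0 : u ≠ 0 := by
    rintro rfl
    exact hu ⟨0, by ring⟩
  rw [leg_eq_asg h2 hP hm, resultant_C_right, natDegree_C, pow_zero, one_mul, asg_pow h0]
  have h1 : asg u = 1 := by
    unfold asg
    rw [if_pos (sgn_of_nonsq hu)]
  rw [h1, mul_one]

/-- the reciprocity sign -/
noncomputable def rho (k : Type) [Field k] (a b : ℕ) : ZMod 2 :=
  ((a * b : ℕ) : ZMod 2) * asg (-1 : k)

theorem resultant_ne {P Q : k[X]} (hP : Irreducible P) (hmP : P.Monic) (hQ : Irreducible Q)
    (hmQ : Q.Monic) (hne : P ≠ Q) : resultant P Q ≠ 0 := by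
  apply resultant_ne_zero
  rw [hP.coprime_iff_not_dvd]
  intro hd
  exact hne (eq_of_monic_of_associated hmP hmQ ((hP.dvd_irreducible_iff_associated hQ).1 hd))

theorem leg_recip [Finite k] (h2 : (2 : k) ≠ 0) {P Q : k[X]} (hP : Irreducible P) (hmP : P.Monic)
    (hQ : Irreducible Q) (hmQ : Q.Monic) (hne : P ≠ Q) :
    leg P Q = leg Q P + rho k P.natDegree Q.natDegree := by
  rw [leg_eq_asg h2 hP hmP, leg_eq_asg h2 hQ hmQ, resultant_comm]
  have h1 : (-1 : k) ≠ 0 := neg_ne_zero.2 one_ne_zero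
  rw [asg_mul (pow_ne_zero _ h1) (resultant_ne hQ hmQ hP hmP hne.symm), asg_pow h1, rho, add_comm]

theorem leg_self (P : k[X]) : leg P P = 0 := by
  unfold leg chiP
  rw [if_pos dvd_rfl, if_neg (by norm_num)]

end Pool.Agent.Sm.BJ
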