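import Pool.Agent.Lib.Sm.J3

/-!
Module J5 (SMITH, block J): patterns of symbols, the linear maps of a system of codes and their dual
vectors.
-/

set_option autoImplicit false

namespace Pool.Agent.Sm.BJ

/-- the unordered pairs -/
abbrev Prs (m : ℕ) : Type := {p : Fin m × Fin m // p.1 < p.2}

/-- patterns of symbols -/
abbrev Pat (F : Type) (m : ℕ) : Type := (Fin m → F → ZMod 2) × (Prs m → ZMod 2)

/-- the symmetric matrix of a function on pairs -/
def sy {m : ℕ} (η : Prs m → ZMod 2) (i j : Fin m) : ZMod 2 :=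
  if h : i < j then η ⟨(i, j), h⟩ else if h : j < i then η ⟨(j, i), h⟩ else 0

theorem sy_add {m : ℕ} (η η' : Prs m → ZMod 2) (i j : Fin m) :
    sy (η + η') i j = sy η i j + sy η' i j := by
  unfold sy
  split_ifs <;> simp

theorem sy_zero {m : ℕ} (i j : Fin m) : sy (0 : Prs m → ZMod 2) i j = 0 := by
  unfold sy
  split_ifs <;> simp

theorem sy_lt {m : ℕ} (η : Prs m → ZMod 2) {i j : Fin m} (h : i < j) :
    sy η i j = η ⟨(i, j), h⟩ := by
  unfold sy
  rw [dif_pos h]

theorem sy_gt {m : ℕ} (η : Prs m → ZMod 2) {i j : Fin m} (h : i < j) :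
    sy η j i = η ⟨(i, j), h⟩ := by
  unfold sy
  rw [dif_neg (not_lt.2 h.le), dif_pos h]

theorem sy_self {m : ℕ} (η : Prs m → ZMod 2) (i : Fin m) : sy η i i = 0 := by
  unfold sy
  rw [dif_neg (lt_irrefl _), dif_neg (lt_irrefl _)]

theorem sum_sy {m : ℕ} (η : Prs m → ZMod 2) (G : Fin m → Fin m → ZMod 2) :
    ∑ b, ∑ a, sy η a b * G a b = ∑ p : Prs m, η p * (G p.1.1 p.1.2 + G p.1.2 p.1.1) := by
  classical
  have h1 : ∑ b, ∑ a, sy η a b * G a b = ∑ q : Fin m × Fin m, sy η q.1 q.2 * G q.1 q.2 := by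
    rw [Fintype.sum_prod_type, Finset.sum_comm]
  have h2 : ∀ q : Fin m × Fin m, sy η q.1 q.2 * G q.1 q.2 =
      (if h : q.1 < q.2 then η ⟨q, h⟩ * G q.1 q.2 else 0) +
      (if h : q.2 < q.1 then η ⟨(q.2, q.1), h⟩ * G q.1 q.2 else 0) := by
    intro q
    unfold sy
    by_cases h : q.1 < q.2
    · rw [dif_pos h, dif_pos h, dif_neg (not_lt.2 h.le), add_zero]
    · rw [dif_neg h, dif_neg h]
      by_cases h' : q.2 < q.1
      · rw [dif_pos h', dif_pos h', zero_add]
      · rw [dif_neg h', dif_neg h', zero_mul, add_zero]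
  have h3 : ∑ q : Fin m × Fin m, (if h : q.1 < q.2 then η ⟨q, h⟩ * G q.1 q.2 else 0) =
      ∑ p : Prs m, η p * G p.1.1 p.1.2 := by
    rw [← Finset.sum_filter_add_sum_filter_not Finset.univ (fun q : Fin m × Fin m => q.1 < q.2)]
    rw [Finset.sum_eq_zero (s := Finset.univ.filter fun q : Fin m × Fin m => ¬ q.1 < q.2), add_zero]
    · rw [← Finset.sum_subtype_of_mem (p := fun q : Fin m × Fin m => q.1 < q.2)
        (f := fun q => if h : q.1 < q.2 then η ⟨q, h⟩ * G q.1 q.2 else 0)
        (s := Finset.univ.filter fun q : Fin m × Fin m => q.1 < q.2)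
        (fun x hx => (Finset.mem_filter.1 hx).2)]
      have : (Finset.subtype (fun q : Fin m × Fin m => q.1 < q.2)
          (Finset.univ.filter fun q : Fin m × Fin m => q.1 < q.2)) = Finset.univ := by
        ext x
        simp [x.2]
      rw [this]
      refine Finset.sum_congr rfl fun p _ => ?_
      rw [dif_pos p.2]
    · intro q hq
      rw [dif_neg (Finset.mem_filter.1 hq).2]
  have h4 : ∑ q : Fin m × Fin m, (if h : q.2 < q.1 then η ⟨(q.2, q.1), h⟩ * G q.1 q.2 else 0) =
      ∑ p : Prs m, η p * G p.1.2 p.1.1 := by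
    have h5 : ∑ q : Fin m × Fin m, (if h : q.2 < q.1 then η ⟨(q.2, q.1), h⟩ * G q.1 q.2 else 0) =
        ∑ q : Fin m × Fin m, (if h : q.1 < q.2 then η ⟨q, h⟩ * G q.2 q.1 else 0) :=
      Fintype.sum_equiv (Equiv.prodComm _ _) _ _ (fun q => rfl)
    rw [h5]
    rw [← Finset.sum_filter_add_sum_filter_not Finset.univ (fun q : Fin m × Fin m => q.1 < q.2)]
    rw [Finset.sum_eq_zero (s := Finset.univ.filter fun q : Fin m × Fin m => ¬ q.1 < q.2), add_zero]
    · rw [← Finset.sum_subtype_of_mem (p := fun q : Fin m × Fin m => q.1 < q.2)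
        (f := fun q => if h : q.1 < q.2 then η ⟨q, h⟩ * G q.2 q.1 else 0)
        (s := Finset.univ.filter fun q : Fin m × Fin m => q.1 < q.2)
        (fun x hx => (Finset.mem_filter.1 hx).2)]
      have : (Finset.subtype (fun q : Fin m × Fin m => q.1 < q.2)
          (Finset.univ.filter fun q : Fin m × Fin m => q.1 < q.2)) = Finset.univ := by
        ext x
        simp [x.2]
      rw [this]
      refine Finset.sum_congr rfl fun p _ => ?_
      rw [dif_pos p.2]
    · intro q hq
      rw [dif_neg (Finset.mem_filter.1 hq).2]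
  rw [h1, Finset.sum_congr rfl fun q _ => h2 q, Finset.sum_add_distrib, h3, h4,
    ← Finset.sum_add_distrib]
  exact Finset.sum_congr rfl fun p _ => by ring

theorem pr_sum_right {r : ℕ} {A : Type} (s : Finset A) (x : Fin r → V1) (y : A → Fin r → V1) :
    pr x (fun i => ∑ a ∈ s, y a i) = ∑ a ∈ s, pr x (y a) := by
  classical
  induction s using Finset.induction_on with
  | empty =>
    simp only [Finset.sum_empty]
    exact pr_zero_right _
  | insert a s ha ih =>
    simp only [Finset.sum_insert ha]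
    rw [← ih]
    exact pr_add_right _ _ _

/-- the linear map of the conditions at the large primes -/
noncomputable def PhiL {F : Type} [Fintype F] {r m : ℕ} (T : F → V1 →ₗ[ZMod 2] V1)
    (g : F → Fin r → V1) (x : Fin m → Fin r → V1) : Pat F m →+ (Fin m → Fin r → V1) where
  toFun ξ j i := ∑ f, ξ.1 j f • (g f i + T f (x j i)) + ∑ a, sy ξ.2 a j • (x a i + x j i)
  map_zero' := by
    funext j i
    simp [sy_zero]
  map_add' := by
    intro ξ ξ'
    funext j i
    simp only [Prod.fst_add, Prod.snd_add, Pi.add_apply, sy_add, add_smul, Finset.sum_add_distrib]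
    abel

/-- the linear map of the conditions at the small primes -/
noncomputable def PhiS {S : Type} {r m : ℕ} (y : S → Fin r → V1) (x : Fin m → Fin r → V1) :
    (Fin m → S → ZMod 2) →+ (S → Fin r → V1) where
  toFun ξ s i := ∑ j, ξ j s • (x j i + y s i)
  map_zero' := by
    funext s i
    simp
  map_add' := by
    intro ξ ξ'
    funext s i
    simp only [Pi.add_apply, add_smul, Finset.sum_add_distrib]

theorem pair_PhiL {F : Type} [Fintype F] {r m : ℕ} (T : F → V1 →ₗ[ZMod 2] V1)
    (g : F → Fin r → V1) (x : Fin m → Fin r → V1) (l : Fin m → Fin r → V1) (ξ : Pat F m) :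
    ∑ j, pr (l j) (PhiL T g x ξ j) =
      ∑ j, ∑ f, ξ.1 j f * pr (l j) (fun i => g f i + T f (x j i)) +
        ∑ p : Prs m, ξ.2 p * pr (l p.1.1 + l p.1.2) (x p.1.1 + x p.1.2) := by
  have h1 : ∀ j, pr (l j) (PhiL T g x ξ j) =
      ∑ f, ξ.1 j f * pr (l j) (fun i => g f i + T f (x j i)) +
        ∑ a, sy ξ.2 a j * pr (l j) (x a + x j) := by
    intro j
    have h2 : PhiL T g x ξ j = (fun i => ∑ f, (ξ.1 j f • (fun i => g f i + T f (x j i))) i) +
        fun i => ∑ a, (sy ξ.2 a j • (x a + x j)) i := by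
      funext i
      rfl
    rw [h2, pr_add_right, pr_sum_right, pr_sum_right]
    simp only [pr_smul_right]
  rw [Finset.sum_congr rfl fun j _ => h1 j, Finset.sum_add_distrib,
    sum_sy ξ.2 (fun a b => pr (l b) (x a + x b))]
  congr 1
  refine Finset.sum_congr rfl fun p _ => ?_
  congr 1
  rw [pr_add_left, add_comm (x p.1.2) (x p.1.1), add_comm]

theorem annL {F : Type} [Fintype F] {r m : ℕ} (T : F → V1 →ₗ[ZMod 2] V1)
    (g : F → Fin r → V1) (x : Fin m → Fin r → V1) (l : Fin m → Fin r → V1)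
    (h : ∀ ξ : Pat F m, ∑ j, pr (l j) (PhiL T g x ξ j) = 0) :
    (∀ i j, Unl (x i, l i) (x j, l j)) ∧
      ∀ f j, pr (l j) (fun i => g f i + T f (x j i)) = 0 := by
  classical
  have hpair : ∀ p : Prs m, pr (l p.1.1 + l p.1.2) (x p.1.1 + x p.1.2) = 0 := by
    intro p
    have h1 := h (0, Pi.single p 1)
    rw [pair_PhiL, Finset.sum_eq_single p] at h1
    · simpa using h1
    · intro b _ hb
      change (Pi.single p (1 : ZMod 2) : Prs m → ZMod 2) b * _ = 0
      rw [Pi.single_eq_of_ne hb, zero_mul]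
    · intro h'
      exact absurd (Finset.mem_univ _) h'
  constructor
  · intro i j
    unfold Unl
    rcases lt_trichotomy i j with hij | hij | hij
    · exact hpair ⟨(i, j), hij⟩
    · subst hij
      have h5 : ∀ a : V1, a + a = 0 := by decide
      have h6 : (x i, l i).1 + (x i, l i).1 = 0 := by
        funext a
        exact h5 _
      rw [h6]
      exact pr_zero_right _
    · have h1 := hpair ⟨(j, i), hij⟩
      rw [add_comm (l i), add_comm (x i)]
      exact h1
  · intro f j
    have h1 := h (Pi.single j (Pi.single f 1), 0)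
    rw [pair_PhiL] at h1
    have h2 : ∀ p : Prs m, ((0 : Prs m → ZMod 2) p) *
        pr (l p.1.1 + l p.1.2) (x p.1.1 + x p.1.2) = 0 := by
      intro p
      rw [Pi.zero_apply, zero_mul]
    rw [Finset.sum_eq_zero (fun p _ => h2 p), add_zero, Finset.sum_eq_single j,
      Finset.sum_eq_single f] at h1
    · simpa using h1
    · intro b _ hb
      change (Pi.single j (Pi.single f (1 : ZMod 2)) : Fin m → F → ZMod 2) j b * _ = 0
      rw [Pi.single_eq_same, Pi.single_eq_of_ne hb, zero_mul]
    · intro h'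
      exact absurd (Finset.mem_univ _) h'
    · intro b _ hb
      apply Finset.sum_eq_zero
      intro a _
      change (Pi.single j (Pi.single f (1 : ZMod 2)) : Fin m → F → ZMod 2) b a * _ = 0
      rw [Pi.single_eq_of_ne hb, Pi.zero_apply, zero_mul]
    · intro h'
      exact absurd (Finset.mem_univ _) h'

end Pool.Agent.Sm.BJ
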