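import Pool.Agent.Lib.Sm.J4
import Pool.Agent.Lib.Sm.J5

/-!
Module J6 (SMITH, block J): the conditions for a family of primes (small primes `ps`, large primes
`Pl`) in terms of the pattern of symbols.
-/

set_option autoImplicit false

open Polynomial Pool.Agent.BSDP.R

namespace Pool.Agent.Sm.BJ

/-- codes for a family of primes indexed by `I` -/
abbrev CodeF (h : ℕ) (I : Type) : Type := V1 × (Fin h → V1) × (I → V1)

/-- the condition at the prime `P i` -/
noncomputable def condF {k : Type} [Field k] (d : TwData k) {I : Type} [Fintype I] (P : I → k[X])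
    (c : CodeF d.h I) (i : I) : V1 :=
  leg (P i) (C d.u) • (c.1 + d.Tc (c.2.2 i)) +
    ∑ μ, leg (P i) (d.ell μ) • (c.2.1 μ + d.T μ (c.2.2 i)) +
    ∑ j, leg (P i) (P j) • (c.2.2 j + c.2.2 i)

/-- the maps attached to the fixed primes -/
def TF {k : Type} [Field k] (d : TwData k) (S : Type) : S ⊕ Fin d.h → V1 →ₗ[ZMod 2] V1 :=
  Sum.elim (fun _ => LinearMap.id) d.T

/-- the components of a system of codes at the fixed primes -/
def gF {r h m : ℕ} {S : Type} (c : Fin r → CodeF h (S ⊕ Fin m)) : S ⊕ Fin h → Fin r → V1 :=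
  fun f i => Sum.elim (fun s => (c i).2.2 (Sum.inl s)) (fun μ => (c i).2.1 μ) f

/-- the components at the large primes -/
def xF {r h m : ℕ} {S : Type} (c : Fin r → CodeF h (S ⊕ Fin m)) : Fin m → Fin r → V1 :=
  fun j i => (c i).2.2 (Sum.inr j)

/-- the components at the small primes -/
def yF {r h m : ℕ} {S : Type} (c : Fin r → CodeF h (S ⊕ Fin m)) : S → Fin r → V1 :=
  fun s i => (c i).2.2 (Sum.inl s)

/-- the pattern of a family -/
noncomputable def pat {k : Type} [Field k] {F : Type} {m : ℕ} (f : F → k[X]) (P : Fin m → k[X]) :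
    Pat F m :=
  (fun j x => leg (P j) (f x), fun p => leg (P p.1.2) (P p.1.1))

/-- the constant part of the conditions at the large primes -/
noncomputable def KL {k : Type} [Field k] (d : TwData k) {r m : ℕ} {S : Type} (dg : Fin m → ℕ)
    (c : Fin r → CodeF d.h (S ⊕ Fin m)) : Fin m → Fin r → V1 :=
  fun j i => (dg j : ZMod 2) • ((c i).1 + d.Tc (xF c j i)) +
    ∑ a, (if j < a then rho k (dg j) (dg a) else 0) • (xF c a i + xF c j i)

/-- the constant part of the conditions at the small primes -/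
noncomputable def KS {k : Type} [Field k] (d : TwData k) {r m : ℕ} {S : Type} [Fintype S]
    (ps : S → k[X]) (dg : Fin m → ℕ) (c : Fin r → CodeF d.h (S ⊕ Fin m)) : S → Fin r → V1 :=
  fun s i => leg (ps s) (C d.u) • ((c i).1 + d.Tc (yF c s i)) +
    ∑ μ, leg (ps s) (d.ell μ) • ((c i).2.1 μ + d.T μ (yF c s i)) +
    ∑ s', leg (ps s) (ps s') • (yF c s' i + yF c s i) +
    ∑ j, rho k (ps s).natDegree (dg j) • (xF c j i + yF c s i)

section
variable {k : Type} [Field k] [Finite k]

theorem leg_sy (h2 : (2 : k) ≠ 0) {F : Type} {m : ℕ} (f : F → k[X]) {P : Fin m → k[X]}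
    (hm : ∀ j, (P j).Monic) (hi : ∀ j, Irreducible (P j)) (hj : Function.Injective P)
    (j a : Fin m) :
    leg (P j) (P a) = sy (pat f P).2 a j +
      (if j < a then rho k (P j).natDegree (P a).natDegree else 0) := by
  rcases lt_trichotomy a j with h | h | h
  · rw [sy_lt _ h, if_neg (not_lt.2 h.le), add_zero]
    rfl
  · subst h
    rw [sy_self, if_neg (lt_irrefl _), add_zero, leg_self]
  · rw [sy_gt _ h, if_pos h]
    exact leg_recip h2 (hi j) (hm j) (hi a) (hm a) (fun h' => h.ne (hj h'))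

theorem condF_inr (h2 : (2 : k) ≠ 0) (d : TwData k) {r m : ℕ} {S : Type} [Fintype S]
    (ps : S → k[X]) {P : Fin m → k[X]} (hm : ∀ j, (P j).Monic) (hi : ∀ j, Irreducible (P j))
    (hj : Function.Injective P) (dg : Fin m → ℕ) (hdg : ∀ j, (P j).natDegree = dg j)
    (c : Fin r → CodeF d.h (S ⊕ Fin m)) (j : Fin m) (i : Fin r) :
    condF d (Sum.elim ps P) (c i) (Sum.inr j) =
      PhiL (TF d S) (gF c) (xF c) (pat (Sum.elim ps d.ell) P) j i + KL d dg c j i := by
  have hPhi : PhiL (TF d S) (gF c) (xF c) (pat (Sum.elim ps d.ell) P) j i =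
      ∑ f : S ⊕ Fin d.h, (pat (Sum.elim ps d.ell) P).1 j f • (gF c f i + TF d S f (xF c j i)) +
        ∑ a, sy (pat (Sum.elim ps d.ell) P).2 a j • (xF c a i + xF c j i) := rfl
  rw [hPhi, Fintype.sum_sum_type]
  unfold condF KL
  rw [Fintype.sum_sum_type]
  simp only [Sum.elim_inr, Sum.elim_inl]
  rw [leg_C_nonsq h2 (hi j) (hm j) d.u_nonsq, hdg]
  have h3 : ∀ a, leg (P j) (P a) • ((c i).2.2 (Sum.inr a) + (c i).2.2 (Sum.inr j)) =
      sy (pat (Sum.elim ps d.ell) P).2 a j • (xF c a i + xF c j i) +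
        (if j < a then rho k (dg j) (dg a) else 0) • (xF c a i + xF c j i) := by
    intro a
    rw [leg_sy h2 (Sum.elim ps d.ell) hm hi hj j a, hdg, hdg, add_smul]
    rfl
  rw [Finset.sum_congr rfl fun a _ => h3 a, Finset.sum_add_distrib]
  have h4 : ∑ x, (pat (Sum.elim ps d.ell) P).1 j (Sum.inl x) •
      (gF c (Sum.inl x) i + TF d S (Sum.inl x) (xF c j i)) =
      ∑ x, leg (P j) (ps x) • ((c i).2.2 (Sum.inl x) + (c i).2.2 (Sum.inr j)) := rfl
  have h5 : ∑ x, (pat (Sum.elim ps d.ell) P).1 j (Sum.inr x) •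
      (gF c (Sum.inr x) i + TF d S (Sum.inr x) (xF c j i)) =
      ∑ x, leg (P j) (d.ell x) • ((c i).2.1 x + d.T x ((c i).2.2 (Sum.inr j))) := rfl
  rw [h4, h5]
  have h6 : xF c j i = (c i).2.2 (Sum.inr j) := rfl
  rw [h6]
  abel

theorem condF_inl (h2 : (2 : k) ≠ 0) (d : TwData k) {r m : ℕ} {S : Type} [Fintype S]
    {ps : S → k[X]} (hps : ∀ s, (ps s).Monic) (hpi : ∀ s, Irreducible (ps s))
    {P : Fin m → k[X]} (hm : ∀ j, (P j).Monic) (hi : ∀ j, Irreducible (P j))
    (hne : ∀ s j, ps s ≠ P j) (dg : Fin m → ℕ) (hdg : ∀ j, (P j).natDegree = dg j)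
    (c : Fin r → CodeF d.h (S ⊕ Fin m)) (s : S) (i : Fin r) :
    condF d (Sum.elim ps P) (c i) (Sum.inl s) =
      PhiS (yF c) (xF c) (fun j s => (pat (Sum.elim ps d.ell) P).1 j (Sum.inl s)) s i +
        KS d ps dg c s i := by
  have hPhi : PhiS (yF c) (xF c) (fun j s => (pat (Sum.elim ps d.ell) P).1 j (Sum.inl s)) s i =
      ∑ j, (pat (Sum.elim ps d.ell) P).1 j (Sum.inl s) • (xF c j i + yF c s i) := rfl
  rw [hPhi]
  unfold condF KS
  rw [Fintype.sum_sum_type]
  simp only [Sum.elim_inr, Sum.elim_inl]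
  have h3 : ∀ j, leg (ps s) (P j) • ((c i).2.2 (Sum.inr j) + (c i).2.2 (Sum.inl s)) =
      (pat (Sum.elim ps d.ell) P).1 j (Sum.inl s) • (xF c j i + yF c s i) +
        rho k (ps s).natDegree (dg j) • (xF c j i + yF c s i) := by
    intro j
    rw [leg_recip h2 (hpi s) (hps s) (hi j) (hm j) (hne s j), hdg, add_smul]
    rfl
  rw [Finset.sum_congr rfl fun a _ => h3 a, Finset.sum_add_distrib]
  have h4 : ∀ s', yF c s' i = (c i).2.2 (Sum.inl s') := fun _ => rfl
  simp only [h4]
  abel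

end

theorem pair_PhiS {S : Type} [Fintype S] {r m : ℕ} (y : S → Fin r → V1) (x : Fin m → Fin r → V1)
    (l : S → Fin r → V1) (ζ : Fin m → S → ZMod 2) :
    ∑ s, pr (l s) (PhiS y x ζ s) = ∑ s, ∑ j, ζ j s * pr (l s) (x j + y s) := by
  refine Finset.sum_congr rfl fun s _ => ?_
  have h2 : PhiS y x ζ s = fun i => ∑ j, (ζ j s • (x j + y s)) i := by
    funext i
    rfl
  rw [h2, pr_sum_right]
  simp only [pr_smul_right]

/-- the linear map of all conditions -/
noncomputable def PhiA {S H : Type} [Fintype S] [Fintype H] {r m : ℕ}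
    (T : S ⊕ H → V1 →ₗ[ZMod 2] V1) (g : S ⊕ H → Fin r → V1) (y : S → Fin r → V1)
    (x : Fin m → Fin r → V1) : Pat (S ⊕ H) m →+ (S ⊕ Fin m → Fin r → V1) where
  toFun ξ := Sum.elim (PhiS y x (fun j s => ξ.1 j (Sum.inl s))) (PhiL T g x ξ)
  map_zero' := by
    funext a
    rcases a with s | j
    · exact congrFun (map_zero (PhiS y x)) s
    · exact congrFun (map_zero (PhiL T g x)) j
  map_add' := by
    intro ξ ξ'
    funext a
    rcases a with s | j
    · exact congrFun (map_add (PhiS y x) (fun j s => ξ.1 j (Sum.inl s))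
        (fun j s => ξ'.1 j (Sum.inl s))) s
    · exact congrFun (map_add (PhiL T g x) ξ ξ') j

theorem annA {S H : Type} [Fintype S] [Fintype H] {r m : ℕ}
    (T : S ⊕ H → V1 →ₗ[ZMod 2] V1) (hT : ∀ s, T (Sum.inl s) = LinearMap.id)
    (g : S ⊕ H → Fin r → V1) (y : S → Fin r → V1) (hg : ∀ s, g (Sum.inl s) = y s)
    (x : Fin m → Fin r → V1) (l : S ⊕ Fin m → Fin r → V1)
    (h : ∀ ξ : Pat (S ⊕ H) m, ∑ a, pr (l a) (PhiA T g y x ξ a) = 0) :
    (∀ i j, Unl (x i, l (Sum.inr i)) (x j, l (Sum.inr j))) ∧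
      ∀ s j, Unl (y s, l (Sum.inl s)) (x j, l (Sum.inr j)) := by
  classical
  have hsplit : ∀ ξ : Pat (S ⊕ H) m, ∑ a, pr (l a) (PhiA T g y x ξ a) =
      ∑ s, ∑ j, ξ.1 j (Sum.inl s) * pr (l (Sum.inl s)) (x j + y s) +
      (∑ j, ∑ f, ξ.1 j f * pr (l (Sum.inr j)) (fun i => g f i + T f (x j i)) +
        ∑ p : Prs m, ξ.2 p *
          pr (l (Sum.inr p.1.1) + l (Sum.inr p.1.2)) (x p.1.1 + x p.1.2)) := by
    intro ξ
    rw [Fintype.sum_sum_type]
    congr 1
    · exact pair_PhiS y x (fun s => l (Sum.inl s)) (fun j s => ξ.1 j (Sum.inl s))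
    · exact pair_PhiL T g x (fun j => l (Sum.inr j)) ξ
  have hpair : ∀ p : Prs m,
      pr (l (Sum.inr p.1.1) + l (Sum.inr p.1.2)) (x p.1.1 + x p.1.2) = 0 := by
    intro p
    have h1 := h (0, Pi.single p 1)
    rw [hsplit, Finset.sum_eq_single p] at h1
    · simpa using h1
    · intro b _ hb
      change (Pi.single p (1 : ZMod 2) : Prs m → ZMod 2) b * _ = 0
      rw [Pi.single_eq_of_ne hb, zero_mul]
    · intro h'
      exact absurd (Finset.mem_univ _) h'
  constructor
  · intro i j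
    unfold Unl
    rcases lt_trichotomy i j with hij | hij | hij
    · exact hpair ⟨(i, j), hij⟩
    · subst hij
      have h5 : ∀ a : V1, a + a = 0 := by decide
      have h6 : (x i, l (Sum.inr i)).1 + (x i, l (Sum.inr i)).1 = 0 := by
        funext a
        exact h5 _
      rw [h6]
      exact pr_zero_right _
    · have h1 := hpair ⟨(j, i), hij⟩
      change pr (l (Sum.inr i) + l (Sum.inr j)) (x i + x j) = 0
      rw [add_comm (l (Sum.inr i)), add_comm (x i)]
      exact h1
  · intro s j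
    have h1 := h (Pi.single j (Pi.single (Sum.inl s) 1), 0)
    rw [hsplit] at h1
    have h2 : ∀ p : Prs m, ((0 : Prs m → ZMod 2) p) *
        pr (l (Sum.inr p.1.1) + l (Sum.inr p.1.2)) (x p.1.1 + x p.1.2) = 0 := by
      intro p
      rw [Pi.zero_apply, zero_mul]
    have e1 : ∑ s', ∑ j', (Pi.single j (Pi.single (Sum.inl s) (1 : ZMod 2)) :
        Fin m → S ⊕ H → ZMod 2) j' (Sum.inl s') * pr (l (Sum.inl s')) (x j' + y s') =
        pr (l (Sum.inl s)) (x j + y s) := by
      rw [Finset.sum_eq_single s, Finset.sum_eq_single j]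
      · rw [Pi.single_eq_same, Pi.single_eq_same, one_mul]
      · intro b _ hb
        rw [Pi.single_eq_of_ne hb, Pi.zero_apply, zero_mul]
      · intro h'
        exact absurd (Finset.mem_univ _) h'
      · intro b _ hb
        apply Finset.sum_eq_zero
        intro a _
        by_cases ha : a = j
        · subst ha
          rw [Pi.single_eq_same, Pi.single_eq_of_ne (fun h' => hb (Sum.inl.inj h')), zero_mul]
        · rw [Pi.single_eq_of_ne ha, Pi.zero_apply, zero_mul]
      · intro h'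
        exact absurd (Finset.mem_univ _) h'
    have e2 : ∑ j', ∑ f, (Pi.single j (Pi.single (Sum.inl s) (1 : ZMod 2)) :
        Fin m → S ⊕ H → ZMod 2) j' f * pr (l (Sum.inr j')) (fun i => g f i + T f (x j' i)) =
        pr (l (Sum.inr j)) (fun i => g (Sum.inl s) i + T (Sum.inl s) (x j i)) := by
      rw [Finset.sum_eq_single j, Finset.sum_eq_single (Sum.inl s)]
      · rw [Pi.single_eq_same, Pi.single_eq_same, one_mul]
      · intro b _ hb
        rw [Pi.single_eq_same, Pi.single_eq_of_ne hb, zero_mul]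
      · intro h'
        exact absurd (Finset.mem_univ _) h'
      · intro b _ hb
        apply Finset.sum_eq_zero
        intro a _
        rw [Pi.single_eq_of_ne hb, Pi.zero_apply, zero_mul]
      · intro h'
        exact absurd (Finset.mem_univ _) h'
    rw [Finset.sum_eq_zero (fun p _ => h2 p), add_zero] at h1
    have h1' := (congrArg₂ (· + ·) e1 e2).symm.trans h1
    have e3 : (fun i => g (Sum.inl s) i + T (Sum.inl s) (x j i)) = x j + y s := by
      funext i
      rw [hg, hT, LinearMap.id_apply, Pi.add_apply, add_comm]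
    rw [e3] at h1'
    change pr (l (Sum.inl s) + l (Sum.inr j)) (y s + x j) = 0
    rw [pr_add_left, add_comm (y s)]
    exact h1'

end Pool.Agent.Sm.BJ
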