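import Pool.Agent.Lib.Sm.J6
import Pool.Agent.Lib.Sm.J1
import Pool.Agent.Lib.Sm.J2

/-!
Module J7 (SMITH, block J): the expected number of Selmer elements and of non-generic `r`-tuples in a
grid.
-/

set_option autoImplicit false

open Polynomial Pool.Agent.BSDP.R

namespace Pool.Agent.Sm.BJ

/-- the grid of families of primes of prescribed degrees -/
abbrev Grid (k : Type) [Field k] {m : ℕ} (dg : Fin m → ℕ) : Type := (j : Fin m) → Irr k (dg j)

/-- near uniformity of the symbols in a grid -/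
def NearU {k : Type} [Field k] {F : Type} (f : F → k[X]) {m : ℕ} (dg : Fin m → ℕ) : Prop :=
  ∀ ξ : Pat F m, Nat.card {P : Grid k dg // pat f (fun j => (P j).1) = ξ} * Nat.card (Pat F m) ≤
    2 * Nat.card (Grid k dg)

theorem push_count {G Q : Type} [Finite G] [Finite Q] (π : G → Q) (K : ℕ)
    (hU : ∀ q, Nat.card {x // π x = q} * Nat.card Q ≤ K) (R : Q → Prop) :
    Nat.card {x // R (π x)} * Nat.card Q ≤ Nat.card {q // R q} * K := by
  classical
  have := Fintype.ofFinite G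
  have := Fintype.ofFinite Q
  let f : {x // R (π x)} → Σ q : {q // R q}, {x // π x = q.1} :=
    fun x => ⟨⟨π x.1, x.2⟩, ⟨x.1, rfl⟩⟩
  have hf : Function.Injective f := by
    intro x y h
    have h5 : ∀ (a b : Σ q : {q // R q}, {x // π x = q.1}), a = b → a.2.1 = b.2.1 := by
      rintro a b rfl
      rfl
    exact Subtype.ext (h5 _ _ h)
  refine (Nat.mul_le_mul_right _ (Nat.card_le_card_of_injective f hf)).trans ?_
  rw [Nat.card_sigma, Finset.sum_mul]
  refine (Finset.sum_le_sum fun q _ => hU q.1).trans ?_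
  rw [Finset.sum_const, Finset.card_univ, smul_eq_mul, Nat.card_eq_fintype_card]

theorem double_count {A B C : Type} [Finite A] [Finite B] [Finite C] (S : A → B → Prop)
    (D : B → C → Prop) (Bad : B → Prop) (M K : ℕ)
    (h : ∀ b, Nat.card {a // S a b} * M ≤ K * Nat.card {l // D b l}) :
    Nat.card {p : A × B // S p.1 p.2 ∧ Bad p.2} * M ≤
      K * Nat.card {p : B × C // D p.1 p.2 ∧ Bad p.1} := by
  classical
  have := Fintype.ofFinite A
  have := Fintype.ofFinite B
  have := Fintype.ofFinite C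
  have e1 : {p : A × B // S p.1 p.2 ∧ Bad p.2} ≃ Σ b : {b // Bad b}, {a // S a b.1} :=
    { toFun := fun x => ⟨⟨x.1.2, x.2.2⟩, ⟨x.1.1, x.2.1⟩⟩
      invFun := fun y => ⟨(y.2.1, y.1.1), y.2.2, y.1.2⟩
      left_inv := fun x => rfl
      right_inv := fun y => rfl }
  have e2 : {p : B × C // D p.1 p.2 ∧ Bad p.1} ≃ Σ b : {b // Bad b}, {l // D b.1 l} :=
    { toFun := fun x => ⟨⟨x.1.1, x.2.2⟩, ⟨x.1.2, x.2.1⟩⟩
      invFun := fun y => ⟨(y.1.1, y.2.1), y.2.2, y.1.2⟩
      left_inv := fun x => rfl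
      right_inv := fun y => rfl }
  rw [Nat.card_congr e1, Nat.card_congr e2, Nat.card_sigma, Nat.card_sigma, Finset.sum_mul,
    Finset.mul_sum]
  exact Finset.sum_le_sum fun b _ => h b.1

theorem card_mono {A : Type} [Finite A] {p q : A → Prop} (h : ∀ a, p a → q a) :
    Nat.card {a // p a} ≤ Nat.card {a // q a} := by
  let f : {a // p a} → {a // q a} := fun a => ⟨a.1, h a.1 a.2⟩
  have hf : Function.Injective f := by
    intro a b hab
    have : (f a).1 = (f b).1 := by rw [hab]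
    exact Subtype.ext this
  exact Nat.card_le_card_of_injective f hf

theorem card_V1 : Nat.card V1 = 4 := by
  rw [Nat.card_eq_fintype_card]
  rfl

theorem card_E (r : ℕ) : Nat.card (Fin r → V1) = 4 ^ r := by
  rw [Nat.card_fun, card_V1, Nat.card_eq_fintype_card, Fintype.card_fin]

theorem add_self_V1 (a : V1) : a + a = 0 := by revert a; decide

theorem eq_of_add_V1 (a b : V1) (h : a + b = 0) : a = b := by revert a b; decide

instance finite_Irr {k : Type} [Field k] [Finite k] (n : ℕ) : Finite (Irr k n) := by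
  have h1 : {f : k[X] | f.natDegree ≤ n}.Finite := by
    have h2 : {f : k[X] | f.natDegree ≤ n} ⊆
        Set.range (fun a : Fin (n + 1) → k => ∑ i : Fin (n + 1), monomial (i : ℕ) (a i)) := by
      intro f hf
      refine ⟨fun i => f.coeff i, ?_⟩
      have h3 := f.as_sum_range' (n + 1) (Nat.lt_succ_of_le hf)
      rw [Finset.sum_range] at h3
      exact h3.symm
    exact (Set.finite_range _).subset h2
  exact (h1.subset fun f hf => hf.2.2.le).to_subtype

section
variable {k : Type} [Field k] [Finite k]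

theorem grid_L (h2 : (2 : k) ≠ 0) (d : TwData k) {r m : ℕ} {S : Type} [Fintype S]
    {ps : S → k[X]} {dg : Fin m → ℕ} (hinj : Function.Injective dg)
    (hU : NearU (Sum.elim ps d.ell) dg) (c : Fin r → CodeF d.h (S ⊕ Fin m)) :
    Nat.card {P : Grid k dg //
        ∀ j i, condF d (Sum.elim ps fun j => (P j).1) (c i) (Sum.inr j) = 0} * (4 ^ r) ^ m ≤
      2 * Nat.card (Grid k dg) * Nat.card {l : Fin m → Fin r → V1 //
        (∀ i j, Unl (xF c i, l i) (xF c j, l j)) ∧
        ∀ f j, pr (l j) (fun i => gF c f i + TF d S f (xF c j i)) = 0} := by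
  classical
  set Q := Pat (S ⊕ Fin d.h) m with hQ
  have hQ0 : 0 < Nat.card Q := Nat.card_pos
  set Φ := PhiL (TF d S) (gF c) (xF c) (m := m) with hΦ
  have h1 : Nat.card {P : Grid k dg //
        ∀ j i, condF d (Sum.elim ps fun j => (P j).1) (c i) (Sum.inr j) = 0} ≤
      Nat.card {P : Grid k dg // Φ (pat (Sum.elim ps d.ell) fun j => (P j).1) = KL d dg c} := by
    apply card_mono
    intro P hP
    funext j i
    have h3 := hP j i
    have hPinj : Function.Injective fun j => (P j).1 := by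
      intro a b hab
      apply hinj
      have ha := (P a).2.2.2
      have hb := (P b).2.2.2
      rw [← ha, ← hb]
      exact congrArg natDegree hab
    rw [condF_inr h2 d ps (fun j => (P j).2.1) (fun j => (P j).2.2.1) hPinj dg
      (fun j => (P j).2.2.2) c j i] at h3
    exact eq_of_add_V1 _ _ h3
  have h3 := push_count (G := Grid k dg) (Q := Q)
    (fun P => pat (Sum.elim ps d.ell) fun j => (P j).1) _ hU (fun ξ => Φ ξ = KL d dg c)
  have h4 := dual_count Φ (KL d dg c)
  rw [Fintype.card_fin] at h4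
  have h5 : Nat.card {l : Fin m → Fin r → V1 // ∀ ξ, ∑ i, pr (l i) (Φ ξ i) = 0} ≤
      Nat.card {l : Fin m → Fin r → V1 //
        (∀ i j, Unl (xF c i, l i) (xF c j, l j)) ∧
        ∀ f j, pr (l j) (fun i => gF c f i + TF d S f (xF c j i)) = 0} := by
    exact card_mono fun l hl => annL _ _ _ _ hl
  refine Nat.le_of_mul_le_mul_right ?_ hQ0
  calc _ ≤ Nat.card {P : Grid k dg //
        Φ (pat (Sum.elim ps d.ell) fun j => (P j).1) = KL d dg c} * (4 ^ r) ^ m * Nat.card Q :=
        Nat.mul_le_mul_right _ (Nat.mul_le_mul_right _ h1)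
    _ = (Nat.card {P : Grid k dg //
        Φ (pat (Sum.elim ps d.ell) fun j => (P j).1) = KL d dg c} * Nat.card Q) * (4 ^ r) ^ m := by
        ring
    _ ≤ (Nat.card {ξ // Φ ξ = KL d dg c} * (2 * Nat.card (Grid k dg))) * (4 ^ r) ^ m :=
        Nat.mul_le_mul_right _ h3
    _ = (2 * Nat.card (Grid k dg)) * (Nat.card {ξ // Φ ξ = KL d dg c} * (4 ^ r) ^ m) := by ring
    _ ≤ (2 * Nat.card (Grid k dg)) * (Nat.card Q *
        Nat.card {l : Fin m → Fin r → V1 // ∀ ξ, ∑ i, pr (l i) (Φ ξ i) = 0}) :=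
        Nat.mul_le_mul_left _ h4
    _ ≤ (2 * Nat.card (Grid k dg)) * (Nat.card Q * _) :=
        Nat.mul_le_mul_left _ (Nat.mul_le_mul_left _ h5)
    _ = _ := by ring

theorem grid_A (h2 : (2 : k) ≠ 0) (d : TwData k) {r m : ℕ} {S : Type} [Fintype S]
    {ps : S → k[X]} (hps : ∀ s, (ps s).Monic) (hpi : ∀ s, Irreducible (ps s))
    {dg : Fin m → ℕ} (hinj : Function.Injective dg) (hne : ∀ s j, (ps s).natDegree ≠ dg j)
    (hU : NearU (Sum.elim ps d.ell) dg) (c : Fin r → CodeF d.h (S ⊕ Fin m)) :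
    Nat.card {P : Grid k dg //
        ∀ a i, condF d (Sum.elim ps fun j => (P j).1) (c i) a = 0} *
          (4 ^ r) ^ (Nat.card S + m) ≤
      2 * Nat.card (Grid k dg) * Nat.card {l : S ⊕ Fin m → Fin r → V1 //
        (∀ i j, Unl (xF c i, l (Sum.inr i)) (xF c j, l (Sum.inr j))) ∧
        ∀ s j, Unl (yF c s, l (Sum.inl s)) (xF c j, l (Sum.inr j))} := by
  classical
  set Q := Pat (S ⊕ Fin d.h) m with hQ
  have hQ0 : 0 < Nat.card Q := Nat.card_pos
  set Φ := PhiA (TF d S) (gF c) (yF c) (xF c) with hΦ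
  set K : S ⊕ Fin m → Fin r → V1 := Sum.elim (KS d ps dg c) (KL d dg c) with hK
  have h1 : Nat.card {P : Grid k dg //
        ∀ a i, condF d (Sum.elim ps fun j => (P j).1) (c i) a = 0} ≤
      Nat.card {P : Grid k dg // Φ (pat (Sum.elim ps d.ell) fun j => (P j).1) = K} := by
    apply card_mono
    intro P hP
    funext a i
    have hPinj : Function.Injective fun j => (P j).1 := by
      intro a b hab
      apply hinj
      have ha := (P a).2.2.2
      have hb := (P b).2.2.2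
      rw [← ha, ← hb]
      exact congrArg natDegree hab
    have h3 := hP a i
    rcases a with s | j
    · rw [condF_inl h2 d hps hpi (fun j => (P j).2.1) (fun j => (P j).2.2.1)
        (fun s j h => hne s j (by rw [h]; exact (P j).2.2.2)) dg
        (fun j => (P j).2.2.2) c s i] at h3
      exact eq_of_add_V1 _ _ h3
    · rw [condF_inr h2 d ps (fun j => (P j).2.1) (fun j => (P j).2.2.1) hPinj dg
        (fun j => (P j).2.2.2) c j i] at h3
      exact eq_of_add_V1 _ _ h3
  have h3 := push_count (G := Grid k dg) (Q := Q)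
    (fun P => pat (Sum.elim ps d.ell) fun j => (P j).1) _ hU (fun ξ => Φ ξ = K)
  have h4 := dual_count Φ K
  rw [Fintype.card_sum, Fintype.card_fin, ← Nat.card_eq_fintype_card] at h4
  have h5 : Nat.card {l : S ⊕ Fin m → Fin r → V1 // ∀ ξ, ∑ i, pr (l i) (Φ ξ i) = 0} ≤
      Nat.card {l : S ⊕ Fin m → Fin r → V1 //
        (∀ i j, Unl (xF c i, l (Sum.inr i)) (xF c j, l (Sum.inr j))) ∧
        ∀ s j, Unl (yF c s, l (Sum.inl s)) (xF c j, l (Sum.inr j))} := by
    exact card_mono fun l hl => annA _ (fun _ => rfl) _ _ (fun _ => rfl) _ _ hl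
  refine Nat.le_of_mul_le_mul_right ?_ hQ0
  calc _ ≤ Nat.card {P : Grid k dg //
        Φ (pat (Sum.elim ps d.ell) fun j => (P j).1) = K} *
          (4 ^ r) ^ (Nat.card S + m) * Nat.card Q :=
        Nat.mul_le_mul_right _ (Nat.mul_le_mul_right _ h1)
    _ = (Nat.card {P : Grid k dg //
        Φ (pat (Sum.elim ps d.ell) fun j => (P j).1) = K} * Nat.card Q) *
          (4 ^ r) ^ (Nat.card S + m) := by
        ring
    _ ≤ (Nat.card {ξ // Φ ξ = K} * (2 * Nat.card (Grid k dg))) * (4 ^ r) ^ (Nat.card S + m) :=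
        Nat.mul_le_mul_right _ h3
    _ = (2 * Nat.card (Grid k dg)) * (Nat.card {ξ // Φ ξ = K} * (4 ^ r) ^ (Nat.card S + m)) := by
        ring
    _ ≤ (2 * Nat.card (Grid k dg)) * (Nat.card Q *
        Nat.card {l : S ⊕ Fin m → Fin r → V1 // ∀ ξ, ∑ i, pr (l i) (Φ ξ i) = 0}) :=
        Nat.mul_le_mul_left _ h4
    _ ≤ (2 * Nat.card (Grid k dg)) * (Nat.card Q * _) :=
        Nat.mul_le_mul_left _ (Nat.mul_le_mul_left _ h5)
    _ = _ := by ring

/-- T2 in a grid: the number of pairs (family, non-generic independent `r`-tuple). -/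
theorem T2grid (h2 : (2 : k) ≠ 0) (d : TwData k) (r kk : ℕ) (hr : 1 ≤ r) : ∃ C : ℕ,
    ∀ (S : Type) (_ : Fintype S) (ps : S → k[X]) (m : ℕ) (dg : Fin m → ℕ),
      Function.Injective dg → NearU (Sum.elim ps d.ell) dg → ∀ W : Finset (Fin m),
      Nat.card {p : Grid k dg × (Fin r → CodeF d.h (S ⊕ Fin m)) //
          (∀ j i, condF d (Sum.elim ps fun j => (p.1 j).1) (p.2 i) (Sum.inr j) = 0) ∧
          (¬ Dep (TF d S) (gF p.2) (xF p.2) ∧
            ∃ v : Fin r → V1, Nat.card {j : Fin m // j ∈ W ∧ xF p.2 j = v} < kk)} *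
          (4 ^ r) ^ W.card ≤
        2 * Nat.card (Grid k dg) * (4 ^ r) ^ (1 + Nat.card S + d.h) *
          (C * (W.card + 1) ^ kk * (4 ^ r - 1) ^ W.card) := by
  classical
  obtain ⟨C, hC⟩ := BJ2.T2core r kk hr
  refine ⟨C, ?_⟩
  intro S _ ps m dg hinj hU W
  have h1 := double_count (A := Grid k dg) (B := Fin r → CodeF d.h (S ⊕ Fin m))
    (C := Fin m → Fin r → V1)
    (fun P c => ∀ j i, condF d (Sum.elim ps fun j => (P j).1) (c i) (Sum.inr j) = 0)
    (fun c l => (∀ i j, Unl (xF c i, l i) (xF c j, l j)) ∧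
        ∀ f j, pr (l j) (fun i => gF c f i + TF d S f (xF c j i)) = 0)
    (fun c => ¬ Dep (TF d S) (gF c) (xF c) ∧
            ∃ v : Fin r → V1, Nat.card {j : Fin m // j ∈ W ∧ xF c j = v} < kk)
    ((4 ^ r) ^ m) (2 * Nat.card (Grid k dg)) (fun c => grid_L h2 d hinj hU c)
  set B := C * (W.card + 1) ^ kk * (4 ^ r - 1) ^ W.card * (4 ^ r) ^ (m - W.card) with hB
  -- the number of pairs (tuple, dual vector)
  have hsymm : ∀ f w w', ee w' (TF d S f w) = ee w (TF d S f w') := by
    intro f w w'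
    rcases f with s | μ
    · exact ee_comm _ _
    · exact d.symm μ w w'
  have hnd : ∀ w, w ≠ 0 → ∃ f, ee w (TF d S f w) = 1 := by
    intro w hw
    obtain ⟨μ, hμ⟩ := d.nondeg w hw
    exact ⟨Sum.inr μ, hμ⟩
  have h3 : Nat.card {p : (Fin r → CodeF d.h (S ⊕ Fin m)) × (Fin m → Fin r → V1) //
      ((∀ i j, Unl (xF p.1 i, p.2 i) (xF p.1 j, p.2 j)) ∧
        ∀ f j, pr (p.2 j) (fun i => gF p.1 f i + TF d S f (xF p.1 j i)) = 0) ∧
      ¬ Dep (TF d S) (gF p.1) (xF p.1) ∧
            ∃ v : Fin r → V1, Nat.card {j : Fin m // j ∈ W ∧ xF p.1 j = v} < kk} ≤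
      (4 ^ r) ^ (1 + Nat.card S + d.h) * B := by
    let Z : (S ⊕ Fin d.h → Fin r → V1) → Type := fun g =>
      {z : Fin m → (Fin r → V1) × (Fin r → V1) //
        (∀ i j, Unl (z i) (z j)) ∧
        (∀ f j, pr (z j).2 (fun i => g f i + TF d S f ((z j).1 i)) = 0) ∧
        ¬ Dep (TF d S) g (fun j => (z j).1) ∧
        ∃ v : Fin r → V1, Nat.card {j : Fin m // j ∈ W ∧ (z j).1 = v} < kk}
    have hfinZ : ∀ g, Finite (Z g) := fun g => Subtype.finite
    have hZ : ∀ g, Nat.card (Z g) ≤ B := fun g => hC (S ⊕ Fin d.h) inferInstance (TF d S)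
      hsymm hnd g m W
    let Y : Type := Σ q : (Fin r → V1) × (S ⊕ Fin d.h → Fin r → V1), Z q.2
    have hY : Nat.card Y ≤ (4 ^ r) ^ (1 + Nat.card S + d.h) * B := by
      have := Fintype.ofFinite ((Fin r → V1) × (S ⊕ Fin d.h → Fin r → V1))
      have e : Nat.card Y = ∑ q : (Fin r → V1) × (S ⊕ Fin d.h → Fin r → V1), Nat.card (Z q.2) :=
        Nat.card_sigma
      rw [e]
      refine (Finset.sum_le_sum fun q _ => hZ q.2).trans ?_
      rw [Finset.sum_const, smul_eq_mul, Finset.card_univ, ← Nat.card_eq_fintype_card,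
        Nat.card_prod, card_E, Nat.card_fun, card_E, Nat.card_sum]
      simp only [Nat.card_eq_fintype_card, Fintype.card_fin]
      rw [show 1 + Fintype.card S + d.h = (Fintype.card S + d.h) + 1 by ring, pow_succ]
      apply le_of_eq
      ring
    refine le_trans ?_ hY
    have hfinY : Finite Y := inferInstanceAs (Finite (Σ q : (Fin r → V1) ×
      (S ⊕ Fin d.h → Fin r → V1), Z q.2))
    let F : {p : (Fin r → CodeF d.h (S ⊕ Fin m)) × (Fin m → Fin r → V1) //
      ((∀ i j, Unl (xF p.1 i, p.2 i) (xF p.1 j, p.2 j)) ∧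
        ∀ f j, pr (p.2 j) (fun i => gF p.1 f i + TF d S f (xF p.1 j i)) = 0) ∧
      ¬ Dep (TF d S) (gF p.1) (xF p.1) ∧
            ∃ v : Fin r → V1, Nat.card {j : Fin m // j ∈ W ∧ xF p.1 j = v} < kk} → Y := fun p =>
      (⟨(fun i => (p.1.1 i).1, gF p.1.1), ⟨fun j => (xF p.1.1 j, p.1.2 j), p.2.1.1, p.2.1.2,
        p.2.2.1, p.2.2.2⟩⟩ : Y)
    apply Nat.card_le_card_of_injective F
    rintro ⟨⟨c, l⟩, hp⟩ ⟨⟨c', l'⟩, hp'⟩ heq
    have e1 : (fun i => (c i).1, gF c) = (fun i => (c' i).1, gF c') := congrArg Sigma.fst heq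
    have e2 : (fun j => (xF c j, l j)) = (fun j => (xF c' j, l' j)) := by
      have h5 : ∀ (a b : Y), a = b → a.2.1 = b.2.1 := by
        rintro a b rfl
        rfl
      exact h5 _ _ heq
    have e3 : (fun i => (c i).1) = (fun i => (c' i).1) := congrArg Prod.fst e1
    have e4 : gF c = gF c' := congrArg Prod.snd e1
    have e5 : ∀ j, xF c j = xF c' j := fun j => congrArg Prod.fst (congrFun e2 j)
    have e6 : l = l' := funext fun j => congrArg Prod.snd (congrFun e2 j)
    have e7 : c = c' := by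
      funext i
      refine Prod.ext (congrFun e3 i) (Prod.ext ?_ ?_)
      · funext μ
        exact congrFun (congrFun e4 (Sum.inr μ)) i
      · funext a
        rcases a with s | j
        · exact congrFun (congrFun e4 (Sum.inl s)) i
        · exact congrFun (e5 j) i
    subst e7
    subst e6
    rfl
  have hW : W.card ≤ m := by
    have := W.card_le_univ
    rwa [Fintype.card_fin] at this
  have h4 : (4 ^ r) ^ m = (4 ^ r) ^ W.card * (4 ^ r) ^ (m - W.card) := by
    rw [← pow_add, Nat.add_sub_cancel' hW]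
  have hpos : 0 < (4 ^ r) ^ (m - W.card) := by positivity
  refine Nat.le_of_mul_le_mul_right ?_ hpos
  refine le_trans (le_of_eq ?_) ((h1.trans (Nat.mul_le_mul_left _ h3)).trans (le_of_eq ?_))
  · rw [h4]
    ring
  · rw [hB]
    ring

/-- T1 in a grid: the number of pairs (family, Selmer element). -/
theorem T1grid (h2 : (2 : k) ≠ 0) (d : TwData k) : ∃ C : ℕ,
    ∀ (S : Type) (_ : Fintype S) (ps : S → k[X]), (∀ s, (ps s).Monic) →
      (∀ s, Irreducible (ps s)) → ∀ (m : ℕ) (dg : Fin m → ℕ),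
      Function.Injective dg → (∀ s j, (ps s).natDegree ≠ dg j) → NearU (Sum.elim ps d.ell) dg →
      4 ^ Nat.card S ≤ 2 ^ m →
      Nat.card {p : Grid k dg × CodeF d.h (S ⊕ Fin m) //
          ∀ a, condF d (Sum.elim ps fun j => (p.1 j).1) p.2 a = 0} ≤
        C * Nat.card (Grid k dg) := by
  classical
  obtain ⟨C, hC⟩ := BJ2.T1core
  refine ⟨2 * (4 ^ (1 + d.h) * (C * 2)), ?_⟩
  intro S _ ps hps hpi m dg hinj hne hU hS
  have h1 := double_count (A := Grid k dg) (B := Fin 1 → CodeF d.h (S ⊕ Fin m))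
    (C := S ⊕ Fin m → Fin 1 → V1)
    (fun P c => ∀ a i, condF d (Sum.elim ps fun j => (P j).1) (c i) a = 0)
    (fun c l => (∀ i j, Unl (xF c i, l (Sum.inr i)) (xF c j, l (Sum.inr j))) ∧
        ∀ s j, Unl (yF c s, l (Sum.inl s)) (xF c j, l (Sum.inr j)))
    (fun _ => True)
    ((4 ^ 1) ^ (Nat.card S + m)) (2 * Nat.card (Grid k dg))
    (fun c => grid_A h2 d hps hpi hinj hne hU c)
  have h0 : Nat.card {p : Grid k dg × CodeF d.h (S ⊕ Fin m) //
          ∀ a, condF d (Sum.elim ps fun j => (p.1 j).1) p.2 a = 0} ≤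
      Nat.card {p : Grid k dg × (Fin 1 → CodeF d.h (S ⊕ Fin m)) //
        (∀ a i, condF d (Sum.elim ps fun j => (p.1 j).1) (p.2 i) a = 0) ∧ True} := by
    apply Nat.card_le_card_of_injective (fun p => ⟨(p.1.1, fun _ => p.1.2),
      fun a _ => p.2 a, trivial⟩)
    rintro ⟨⟨P, c⟩, hp⟩ ⟨⟨P', c'⟩, hp'⟩ heq
    have e0 : (P, fun _ : Fin 1 => c) = (P', fun _ : Fin 1 => c') := congrArg Subtype.val heq
    have e1 : P = P' := congrArg Prod.fst e0
    have e2 : (fun _ : Fin 1 => c) = (fun _ : Fin 1 => c') := congrArg Prod.snd e0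
    have e3 : c = c' := congrFun e2 0
    subst e1
    subst e3
    rfl
  have h3 : Nat.card {p : (Fin 1 → CodeF d.h (S ⊕ Fin m)) × (S ⊕ Fin m → Fin 1 → V1) //
      ((∀ i j, Unl (xF p.1 i, p.2 (Sum.inr i)) (xF p.1 j, p.2 (Sum.inr j))) ∧
        ∀ s j, Unl (yF p.1 s, p.2 (Sum.inl s)) (xF p.1 j, p.2 (Sum.inr j))) ∧ True} ≤
      4 ^ (1 + d.h) * (C * (4 ^ (Nat.card S + m) + 2 ^ m * 16 ^ Nat.card S)) := by
    let Z : Type := {z : (S → V1 × V1) × (Fin m → V1 × V1) //
      (∀ i j, ee ((z.2 i).2 + (z.2 j).2) ((z.2 i).1 + (z.2 j).1) = 0) ∧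
      ∀ s j, ee ((z.1 s).2 + (z.2 j).2) ((z.1 s).1 + (z.2 j).1) = 0}
    have hZ : Nat.card Z ≤ C * (4 ^ (Nat.card S + m) + 2 ^ m * 16 ^ Nat.card S) :=
      hC S inferInstance m
    let Y : Type := (V1 × (Fin d.h → V1)) × Z
    have hY : Nat.card Y ≤
        4 ^ (1 + d.h) * (C * (4 ^ (Nat.card S + m) + 2 ^ m * 16 ^ Nat.card S)) := by
      have e : Nat.card Y = Nat.card V1 * Nat.card (Fin d.h → V1) * Nat.card Z := by
        rw [Nat.card_prod, Nat.card_prod]
      rw [e, Nat.card_fun, card_V1, Nat.card_eq_fintype_card (α := Fin d.h), Fintype.card_fin,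
        ← pow_succ', add_comm d.h 1]
      exact Nat.mul_le_mul_left _ hZ
    refine le_trans ?_ hY
    have hu : ∀ (a b a' b' : Fin 1 → V1), Unl (a, b) (a', b') →
        ee (b 0 + b' 0) (a 0 + a' 0) = 0 := by
      intro a b a' b' h
      unfold Unl pr at h
      rw [Fin.sum_univ_one] at h
      exact h
    apply Nat.card_le_card_of_injective (fun p =>
      ((((p.1.1 0).1, (p.1.1 0).2.1),
        ⟨(fun s => (yF p.1.1 s 0, p.1.2 (Sum.inl s) 0), fun j => (xF p.1.1 j 0,
          p.1.2 (Sum.inr j) 0)), fun i j => hu _ _ _ _ (p.2.1.1 i j),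
          fun s j => hu _ _ _ _ (p.2.1.2 s j)⟩) : Y))
    rintro ⟨⟨c, l⟩, hp⟩ ⟨⟨c', l'⟩, hp'⟩ heq
    have e1 : ((c 0).1, (c 0).2.1) = ((c' 0).1, (c' 0).2.1) := congrArg Prod.fst heq
    have e2 : ((fun s => (yF c s 0, l (Sum.inl s) 0), fun j => (xF c j 0, l (Sum.inr j) 0)) :
        (S → V1 × V1) × (Fin m → V1 × V1)) =
        (fun s => (yF c' s 0, l' (Sum.inl s) 0), fun j => (xF c' j 0, l' (Sum.inr j) 0)) :=
      congrArg (fun y : Y => y.2.1) heq
    have e3 : ∀ s, (yF c s 0, l (Sum.inl s) 0) = (yF c' s 0, l' (Sum.inl s) 0) :=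
      fun s => congrFun (congrArg Prod.fst e2) s
    have e4 : ∀ j, (xF c j 0, l (Sum.inr j) 0) = (xF c' j 0, l' (Sum.inr j) 0) :=
      fun j => congrFun (congrArg Prod.snd e2) j
    have e5 : l = l' := by
      funext a i
      have hi : i = 0 := Subsingleton.elim _ _
      subst hi
      rcases a with s | j
      · exact congrArg Prod.snd (e3 s)
      · exact congrArg Prod.snd (e4 j)
    have e6 : c = c' := by
      funext i
      have hi : i = 0 := Subsingleton.elim _ _
      subst hi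
      refine Prod.ext (Prod.mk.inj e1).1 (Prod.ext (Prod.mk.inj e1).2 ?_)
      funext a
      rcases a with s | j
      · exact congrArg Prod.fst (e3 s)
      · exact congrArg Prod.fst (e4 j)
    subst e5
    subst e6
    rfl
  have hpos : 0 < (4 ^ 1) ^ (Nat.card S + m) := by positivity
  refine Nat.le_of_mul_le_mul_right ?_ hpos
  have h5 : 2 ^ m * 16 ^ Nat.card S ≤ 4 ^ (Nat.card S + m) := by
    calc 2 ^ m * 16 ^ Nat.card S = 2 ^ m * (4 ^ Nat.card S * 4 ^ Nat.card S) := by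
          rw [← mul_pow]
          norm_num
      _ ≤ 2 ^ m * (4 ^ Nat.card S * 2 ^ m) :=
          Nat.mul_le_mul_left _ (Nat.mul_le_mul_left _ hS)
      _ = 4 ^ Nat.card S * (2 ^ m * 2 ^ m) := by ring
      _ = 4 ^ (Nat.card S + m) := by
          rw [← mul_pow, pow_add]
          norm_num
  calc _ ≤ Nat.card {p : Grid k dg × (Fin 1 → CodeF d.h (S ⊕ Fin m)) //
        (∀ a i, condF d (Sum.elim ps fun j => (p.1 j).1) (p.2 i) a = 0) ∧ True} *
          (4 ^ 1) ^ (Nat.card S + m) := Nat.mul_le_mul_right _ h0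
    _ ≤ 2 * Nat.card (Grid k dg) *
        (4 ^ (1 + d.h) * (C * (4 ^ (Nat.card S + m) + 2 ^ m * 16 ^ Nat.card S))) :=
        h1.trans (Nat.mul_le_mul_left _ h3)
    _ ≤ 2 * Nat.card (Grid k dg) *
        (4 ^ (1 + d.h) * (C * (4 ^ (Nat.card S + m) + 4 ^ (Nat.card S + m)))) :=
        Nat.mul_le_mul_left _ (Nat.mul_le_mul_left _ (Nat.mul_le_mul_left _
          (Nat.add_le_add_left h5 _)))
    _ = _ := by ring

end

end Pool.Agent.Sm.BJ
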