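import Pool.Agent.Lib.Sm.J7

/-!
Module J8 (SMITH, block J): from the family (small primes, large primes) to `D`.
-/

set_option autoImplicit false

open Polynomial Pool.Agent.BSDP.R

namespace Pool.Agent.Sm.BJ

/-- too many Selmer elements -/
def BadT1 {k : Type} [Field k] (d : TwData k) {S : Type} [Fintype S] {m : ℕ} (ps : S → k[X])
    (P : Fin m → k[X]) (R : ℕ) : Prop :=
  2 ^ R < Nat.card {c : CodeF d.h (S ⊕ Fin m) // ∀ a, condF d (Sum.elim ps P) c a = 0}

/-- a non-generic independent `r`-tuple -/
def BadT2 {k : Type} [Field k] (d : TwData k) {S : Type} [Fintype S] {m : ℕ} (ps : S → k[X])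
    (P : Fin m → k[X]) (W : Finset (Fin m)) (kk r : ℕ) : Prop :=
  ∃ c : Fin r → CodeF d.h (S ⊕ Fin m),
    (∀ j i, condF d (Sum.elim ps P) (c i) (Sum.inr j) = 0) ∧
    (¬ Dep (TF d S) (gF c) (xF c) ∧
      ∃ v : Fin r → V1, Nat.card {j : Fin m // j ∈ W ∧ xF c j = v} < kk)

theorem kap_mem {k : Type} [Field k] (d : TwData k) (D : k[X]) (w : V1) :
    kap d D w ∈ Selp d D := by
  intro P
  change cond d D (kap d D w) P = 0
  unfold cond kap
  simp only [add_self_V1, smul_zero, Finset.sum_const_zero, add_zero]

section
variable {k : Type} [Field k] [Finite k]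

theorem finite_PD (D : k[X]) : Finite (PD D) := by
  have : (↑(primesOf D) : Set k[X]).Finite := Finset.finite_toSet _
  exact this.to_subtype

theorem typ_of_family (h2 : (2 : k) ≠ 0) (d : TwData k) {D : k[X]} (hD : D ≠ 0) {S : Type}
    [Fintype S] {m : ℕ} {ps : S → k[X]} {P : Fin m → k[X]} (e : PD D ≃ S ⊕ Fin m)
    (he : ∀ a, (e.symm a).1 = Sum.elim ps P a) {R kk C N0 : ℕ}
    (hN0 : ∀ j, N0 ≤ (P j).natDegree)
    (W : Finset (Fin m)) (hW : ∀ j ∈ W, 2 ^ C ∣ (P j).natDegree) (hWk : kk ≤ W.card)
    (hdist : Function.Injective fun j => (P j).natDegree)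
    (hsmall : ∀ s, (ps s).natDegree < N0)
    (hfew : (Nat.card (PD D) : ℝ) ≤ 2 * Real.log D.natDegree)
    (hodd : ∃ P : PD D, Odd P.1.natDegree)
    (h1 : ¬ BadT1 d ps P R) (h3 : ∀ r, 1 ≤ r → r ≤ R → ¬ BadT2 d ps P W kk r) :
    Typ d D R kk C N0 := by
  classical
  have hfin := finite_PD D
  -- transport of codes
  let tr : Code d D → CodeF d.h (S ⊕ Fin m) := fun c => (c.1, c.2.1, fun a => c.2.2 (e.symm a))
  have htr : Function.Injective tr := by
    intro c c' h
    have h4 := Prod.mk.inj h
    have h5 := Prod.mk.inj h4.2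
    refine Prod.ext h4.1 (Prod.ext h5.1 ?_)
    funext Q
    have h6 := congrFun h5.2 (e Q)
    simpa using h6
  have hcond : ∀ c a, condF d (Sum.elim ps P) (tr c) a = cond d D c (e.symm a) := by
    intro c a
    unfold condF cond
    have e1 : ∀ b, Sum.elim ps P b = (e.symm b).1 := fun b => (he b).symm
    rw [e1 a]
    congr 1
    exact Fintype.sum_equiv e.symm _ _ (fun b => by rw [e1 b])
  -- T1
  have hT1 : Nat.card (Selp d D) ≤ 2 ^ R := by
    unfold BadT1 at h1
    rw [not_lt] at h1
    refine le_trans ?_ h1
    let F : Selp d D → {c : CodeF d.h (S ⊕ Fin m) // ∀ a, condF d (Sum.elim ps P) c a = 0} :=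
      fun c => ⟨tr c.1, fun a => by rw [hcond]; exact c.2 (e.symm a)⟩
    apply Nat.card_le_card_of_injective F
    intro c c' h
    exact Subtype.ext (htr (congrArg Subtype.val h))
  refine ⟨hT1, ?_, ?_, hfew, hodd⟩
  · intro r c hc hI w
    by_contra hlt
    rw [not_le] at hlt
    -- the places of W
    have hWsub : ∀ (v : Fin r → V1),
        Nat.card {j : Fin m // j ∈ W ∧ xF (fun i => tr (c i)) j = v} ≤
        Nat.card {P : PD D // N0 ≤ P.1.natDegree ∧ 2 ^ C ∣ P.1.natDegree ∧
          ∀ i, (c i).2.2 P = v i} := by
      intro v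
      have hv : ∀ j : Fin m, (e.symm (Sum.inr j)).1 = P j := fun j => he (Sum.inr j)
      let F : {j : Fin m // j ∈ W ∧ xF (fun i => tr (c i)) j = v} →
          {P : PD D // N0 ≤ P.1.natDegree ∧ 2 ^ C ∣ P.1.natDegree ∧
          ∀ i, (c i).2.2 P = v i} := fun j => ⟨e.symm (Sum.inr j.1), by
            rw [hv]; exact hN0 j.1, by rw [hv]; exact hW j.1 j.2.1,
            fun i => congrFun j.2.2 i⟩
      apply Nat.card_le_card_of_injective F
      intro j j' h
      have h4 : e.symm (Sum.inr j.1) = e.symm (Sum.inr j'.1) := congrArg Subtype.val h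
      exact Subtype.ext (Sum.inr.inj (e.symm.injective h4))
    rcases Nat.eq_zero_or_pos r with h0 | hr
    · subst h0
      have h4 := hWsub w
      have h5 : Nat.card {j : Fin m // j ∈ W ∧ xF (fun i => tr (c i)) j = w} = W.card := by
        rw [Nat.card_eq_fintype_card, Fintype.card_subtype]
        congr 1
        ext j
        simp only [Finset.mem_filter, Finset.mem_univ, true_and, and_iff_left_iff_imp]
        intro _
        exact Subsingleton.elim _ _
      omega
    · have hrR : r ≤ R := by
        have h4 : Nat.card (Fin r → ZMod 2) ≤ Nat.card (Selp d D) := by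
          let F : (Fin r → ZMod 2) → Selp d D := fun a =>
            ⟨∑ i, a i • c i, Submodule.sum_mem _ fun i _ => Submodule.smul_mem _ _ (hc i)⟩
          have hfinS : Finite (Selp d D) := inferInstance
          apply Nat.card_le_card_of_injective F
          intro a b hab
          have h5 : ∑ i, a i • c i = ∑ i, b i • c i := congrArg Subtype.val hab
          have h6 : a - b = 0 := by
            apply hI
            refine ⟨0, ?_⟩
            have h7 : kap d D 0 = 0 := by
              unfold kap
              simp only [map_zero]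
              rfl
            rw [h7]
            simp only [Pi.sub_apply, sub_smul, Finset.sum_sub_distrib]
            rw [h5, sub_self]
          exact sub_eq_zero.1 h6
        have h5 : Nat.card (Fin r → ZMod 2) = 2 ^ r := by
          rw [Nat.card_fun, Nat.card_eq_fintype_card, Nat.card_eq_fintype_card, ZMod.card,
            Fintype.card_fin]
        rw [h5] at h4
        exact (Nat.pow_le_pow_iff_right (by norm_num)).1 (h4.trans hT1)
      apply h3 r hr hrR
      refine ⟨fun i => tr (c i), ?_, ?_, w, (hWsub w).trans_lt hlt⟩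
      · intro j i
        rw [hcond]
        exact hc i _
      · rintro ⟨a, ha0, t, hx, hg⟩
        apply ha0
        apply hI a
        refine ⟨t, ?_⟩
        have hsum1 : ∀ Q : PD D, ∑ i, a i • (c i).2.2 Q = t := by
          intro Q
          obtain ⟨b, rfl⟩ := e.symm.surjective Q
          rcases b with s | j
          · have h4 := hg (Sum.inl s)
            exact h4
          · exact hx j
        have hsum2 : ∀ μ, ∑ i, a i • (c i).2.1 μ = d.T μ t := fun μ => hg (Sum.inr μ)
        set c0 : Code d D := ∑ i, a i • c i + kap d D t with hc0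
        have hc0mem : c0 ∈ Selp d D := by
          apply Submodule.add_mem
          · exact Submodule.sum_mem _ fun i _ => Submodule.smul_mem _ _ (hc i)
          · exact kap_mem d D t
        have hfst : ∀ (f : Fin r → Code d D), (∑ i, f i).2.2 = ∑ i, (f i).2.2 := by
          intro f
          rw [Prod.snd_sum, Prod.snd_sum]
        have hfst' : ∀ (f : Fin r → Code d D), (∑ i, f i).2.1 = ∑ i, (f i).2.1 := by
          intro f
          rw [Prod.snd_sum, Prod.fst_sum]
        have hx0 : ∀ Q, c0.2.2 Q = 0 := by
          intro Q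
          have h4 : c0.2.2 Q = ∑ i, a i • (c i).2.2 Q + t := by
            rw [hc0]
            change (∑ i, a i • c i).2.2 Q + t = _
            rw [hfst, Finset.sum_apply]
            rfl
          rw [h4, hsum1]
          exact add_self_V1 _
        have hg0 : ∀ μ, c0.2.1 μ = 0 := by
          intro μ
          have h4 : c0.2.1 μ = ∑ i, a i • (c i).2.1 μ + d.T μ t := by
            rw [hc0]
            change (∑ i, a i • c i).2.1 μ + d.T μ t = _
            rw [hfst', Finset.sum_apply]
            rfl
          rw [h4, hsum2]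
          exact add_self_V1 _
        obtain ⟨Q, hQ⟩ := hodd
        have hQ' := (mem_primesOf hD).1 Q.2
        have h4 : cond d D c0 Q = 0 := hc0mem Q
        unfold cond at h4
        simp only [hx0, hg0, map_zero, add_zero, smul_zero, Finset.sum_const_zero] at h4
        rw [leg_C_nonsq h2 hQ'.2.1 hQ'.1 d.u_nonsq] at h4
        have h5 : ((Q.1.natDegree : ℕ) : ZMod 2) = 1 := by
          rw [ZMod.natCast_eq_one_iff_odd]
          exact hQ
        rw [h5, one_smul] at h4
        have h6 : c0 = 0 := by
          refine Prod.ext h4 (Prod.ext ?_ ?_)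
          · funext μ
            exact hg0 μ
          · funext Q
            exact hx0 Q
        have h7 : ∀ x y : Code d D, x + y = 0 → x = y := by
          intro x y hxy
          have e1 := (Prod.mk.inj hxy)
          have e2 := Prod.mk.inj e1.2
          refine Prod.ext (eq_of_add_V1 _ _ e1.1) (Prod.ext ?_ ?_)
          · funext μ
            exact eq_of_add_V1 _ _ (congrFun e2.1 μ)
          · funext Q
            exact eq_of_add_V1 _ _ (congrFun e2.2 Q)
        exact h7 _ _ h6
  · intro A B hA hAB
    have hv : ∀ j : Fin m, (e.symm (Sum.inr j)).1 = P j := fun j => he (Sum.inr j)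
    have hs : ∀ s : S, (e.symm (Sum.inl s)).1 = ps s := fun s => he (Sum.inl s)
    obtain ⟨a, rfl⟩ := e.symm.surjective A
    obtain ⟨b, rfl⟩ := e.symm.surjective B
    rcases a with s | j
    · rw [hs] at hA
      have := hsmall s
      omega
    · rcases b with s | i
      · rw [hv, hs] at hAB
        have := hsmall s
        have := hN0 j
        omega
      · rw [hv, hv] at hAB
        rw [hdist hAB]

end

end Pool.Agent.Sm.BJ
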