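import Pool.Agent.Lib.Sm.QRH
import Pool.Agent.Lib.Sm.Q.NUInd

/-!
Module NU (SMITH, block JQ): near uniformity of the symbols in a grid (upper bound).

Proof. Induction on `m` (last coordinate; or product over `j` of conditional counts). Given
`P_0, ..., P_(j-1)` the number of `P` in `Irr k (d j)` with the prescribed symbols with respect to the
`M = #F + j` polynomials `f x`, `P_i` (`i < j`) is `2^-M ∑_T ± ∑_P chiP P (∏_T)` (`T` a subset of the
`M` polynomials; `P` divides none of them, the degrees are smaller), so at most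
`2^-M (#Irr + 2^M c n √q^(d j))`, and `#Irr k d ≥ q^d / (2 d)` (helper22, Lib/SmK, or direct),
`≤ 2^-M #Irr (1 + δ)` with `δ = 2^M c n 2 n / √q^(d j) ≤ 2^(#F + m) 2 c n^2 / √q^N0`, and
`(1 + δ)^m ≤ exp (m δ) ≤ 2`.
-/

set_option autoImplicit false

open Polynomial Pool.Agent.BSDP.R

namespace Pool.Agent.Sm

theorem NU_pow (w m : ℕ) : ∏ j : Fin m, (2 : ℝ) ^ (w + (j : ℕ)) =
    2 ^ (m * w + Nat.card {p : Fin m × Fin m // p.1 < p.2}) := by
  classical
  have hpairs : Nat.card {p : Fin m × Fin m // p.1 < p.2} = ∑ j : Fin m, (j : ℕ) := by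
    rw [Nat.card_eq_fintype_card, Fintype.card_subtype, Finset.card_filter,
      Fintype.sum_prod_type_right]
    apply Finset.sum_congr rfl
    intro j _
    simp only
    rw [← Finset.card_filter]
    have : (Finset.univ.filter fun i : Fin m => i < j) = Finset.Iio j := by
      ext i; simp
    rw [this, Fin.card_Iio]
  rw [Finset.prod_pow_eq_pow_sum, hpairs, Finset.sum_add_distrib, Finset.sum_const,
    Finset.card_univ, Fintype.card_fin, smul_eq_mul]

theorem NU_one (m : ℕ) (δ : ℝ) (hδ0 : 0 ≤ δ) (hmδ : m * δ ≤ 1 / 2) : (1 + δ) ^ m ≤ 2 := by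
  have h3 : (1 + δ) ^ m ≤ Real.exp δ ^ m := by
    apply pow_le_pow_left₀ (by positivity)
    rw [add_comm]
    exact Real.add_one_le_exp δ
  rw [← Real.exp_nat_mul] at h3
  have h4 : Real.exp (m * δ) ≤ Real.exp (1 / 2) := Real.exp_le_exp.2 hmδ
  have h5 : Real.exp (1 / 2) ≤ 2 := by
    have h6 : Real.exp (1 / 2) * Real.exp (1 / 2) = Real.exp 1 := by
      rw [← Real.exp_add]; norm_num
    have h7 := Real.exp_one_lt_d9
    have h8 := Real.exp_pos (1 / 2)
    nlinarith
  linarith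

theorem near_uniform : ∃ c : ℝ, 0 < c ∧ ∀ (k : Type) (_ : Field k) (_ : Finite k),
    (2 : k) ≠ 0 → ∀ (F : Type) (_ : Finite F) (f : F → k[X]),
    Function.Injective f → (∀ x, (f x).Monic) → (∀ x, Irreducible (f x)) →
    ∀ (m n N0 : ℕ) (d : Fin m → ℕ), StrictMono d → (∀ j, N0 ≤ d j) →
    (∀ x, (f x).natDegree < N0) → ∑ᶠ x, (f x).natDegree + ∑ j, d j ≤ n →
    (m : ℝ) * 2 ^ (Nat.card F + m) * c * n ^ 2 ≤ √(Nat.card k) ^ N0 →
    ∀ (ξ : Fin m → F → ZMod 2) (η : {p : Fin m × Fin m // p.1 < p.2} → ZMod 2),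
    Nat.card {P : (j : Fin m) → Irr k (d j) //
      (∀ j x, leg (P j).1 (f x) = ξ j x) ∧ ∀ p, leg (P p.1.2).1 (P p.1.1).1 = η p} *
      2 ^ (m * Nat.card F + Nat.card {p : Fin m × Fin m // p.1 < p.2}) ≤
      2 * Nat.card ((j : Fin m) → Irr k (d j)) := by
  classical
  refine ⟨92, by norm_num, ?_⟩
  intro k _ _ h2 F _ f hinj hmon hirr m n N0 d hd hN0 hfN hn hc ξ η
  have : Fintype F := Fintype.ofFinite F
  have hfinIrr : ∀ j, Finite (Irr k (d j)) := fun j => (Q.irr_finite (k := k) (d j)).to_subtype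
  rw [finsum_eq_sum_of_fintype] at hn
  have hq3 := Q.card_ge_three h2
  have hq0 : (0 : ℝ) ≤ (Nat.card k : ℝ) := Nat.cast_nonneg _
  have hq1 : (1 : ℝ) ≤ √(Nat.card k : ℝ) := by
    rw [Real.one_le_sqrt]
    exact_mod_cast (by omega : 1 ≤ Nat.card k)
  -- the degenerate case
  by_cases hd0 : ∃ j, d j = 0
  · obtain ⟨j, hj⟩ := hd0
    have hempty : IsEmpty (Irr k (d j)) := by
      constructor
      rintro ⟨P, hP⟩
      have h3 := hP.2.1.natDegree_pos
      rw [hP.2.2, hj] at h3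
      exact lt_irrefl _ h3
    have : IsEmpty {P : (j : Fin m) → Irr k (d j) //
      (∀ j x, leg (P j).1 (f x) = ξ j x) ∧ ∀ p, leg (P p.1.2).1 (P p.1.1).1 = η p} := by
      constructor
      rintro ⟨P, -⟩
      exact hempty.elim (P j)
    rw [Nat.card_of_isEmpty, zero_mul]
    exact Nat.zero_le _
  push Not at hd0
  have hdpos : ∀ j, 0 < d j := fun j => Nat.pos_of_ne_zero (hd0 j)
  set w := Fintype.card F with hw
  have hwc : Nat.card F = w := Nat.card_eq_fintype_card
  rw [hwc] at hc ⊢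
  set s : ℝ := √(Nat.card k : ℝ) with hs
  have hsN : (0 : ℝ) < s ^ N0 := by positivity
  set δ : ℝ := 2 ^ (w + m) * 46 * n ^ 2 / s ^ N0 with hδ
  have hδ0 : 0 ≤ δ := by positivity
  have hmδ : m * δ ≤ 1 / 2 := by
    rw [hδ, ← mul_div_assoc, div_le_iff₀ hsN]
    linarith
  have hirrc : ∀ j, Nat.card (Irr k (d j)) = (Q.irr k (d j)).card := by
    intro j
    unfold Q.irr
    rw [Nat.card_coe_set_eq, Set.ncard_eq_toFinset_card _ (Q.irr_finite (k := k) (d j))]
  have hdn : ∀ j, d j ≤ n := by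
    intro j
    have : d j ≤ ∑ j, d j := Finset.single_le_sum (fun _ _ => Nat.zero_le _) (Finset.mem_univ j)
    omega
  have hδj : ∀ j : Fin m, (2 : ℝ) ^ (Fintype.card F + (j : ℕ)) *
      (23 * n * √(Nat.card k : ℝ) ^ d j) ≤ δ * ((Q.irr k (d j)).card : ℝ) := by
    intro j
    rw [← hs, ← hw]
    have h3 := Q.card_irr_lower h2 (d j) (hdpos j)
    have h4 : (Nat.card k : ℝ) ^ d j ≤ 2 * d j * ((Q.irr k (d j)).card : ℝ) := by
      exact_mod_cast h3
    have h5 : (Nat.card k : ℝ) ^ d j = s ^ d j * s ^ d j := by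
      rw [← mul_pow, hs, Real.mul_self_sqrt hq0]
    have h6 : s ^ N0 ≤ s ^ d j := pow_le_pow_right₀ hq1 (hN0 j)
    have h7 : (2 : ℝ) ^ (w + (j : ℕ)) ≤ 2 ^ (w + m) :=
      pow_le_pow_right₀ (by norm_num) (by omega)
    have hnR : (d j : ℝ) ≤ n := by exact_mod_cast hdn j
    set I : ℝ := ((Q.irr k (d j)).card : ℝ) with hI
    have hI0 : 0 ≤ I := Nat.cast_nonneg _
    have hn0 : (0 : ℝ) ≤ n := Nat.cast_nonneg _
    have h8 : s ^ d j * s ^ N0 ≤ 2 * n * I := by
      calc s ^ d j * s ^ N0 ≤ s ^ d j * s ^ d j := by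
            apply mul_le_mul_of_nonneg_left h6 (by positivity)
        _ ≤ 2 * d j * I := by rw [← h5]; exact h4
        _ ≤ 2 * n * I := by
            apply mul_le_mul_of_nonneg_right _ hI0
            linarith
    rw [hδ, div_mul_eq_mul_div, le_div_iff₀ hsN]
    calc (2 : ℝ) ^ (w + (j : ℕ)) * (23 * n * s ^ d j) * s ^ N0
        = 2 ^ (w + (j : ℕ)) * (23 * n * (s ^ d j * s ^ N0)) := by ring
      _ ≤ 2 ^ (w + m) * (23 * n * (2 * n * I)) := by
          apply mul_le_mul h7 _ (by positivity) (by positivity)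
          apply mul_le_mul_of_nonneg_left h8 (by positivity)
      _ = 2 ^ (w + m) * 46 * n ^ 2 * I := by ring
  set η' : Fin m → Fin m → ZMod 2 := fun i j => if h : i < j then η ⟨(i, j), h⟩ else 0 with hη'
  have hmain := Q.nu_count h2 f hinj hmon hirr n δ hδ0 m d hd hdpos
    (fun j x => (hfN x).trans_le (hN0 j)) hn hδj ξ η'
  -- the number of tuples
  have hcount : Nat.card {P : (j : Fin m) → Irr k (d j) //
      (∀ j x, leg (P j).1 (f x) = ξ j x) ∧ ∀ p, leg (P p.1.2).1 (P p.1.1).1 = η p} ≤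
      (Q.tup f d ξ η').card := by
    have hmem : ∀ P : {P : (j : Fin m) → Irr k (d j) //
        (∀ j x, leg (P j).1 (f x) = ξ j x) ∧ ∀ p, leg (P p.1.2).1 (P p.1.1).1 = η p},
        (fun j => (P.1 j).1) ∈ Q.tup f d ξ η' := by
      rintro ⟨P, hP1, hP2⟩
      rw [Q.mem_tup]
      refine ⟨fun j => (Q.mem_irr _ _).2 (P j).2, hP1, ?_⟩
      intro i j hij
      rw [hη']
      simp only
      rw [dif_pos hij]
      exact hP2 ⟨(i, j), hij⟩
    have h3 := Nat.card_le_card_of_injective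
      (fun P : {P : (j : Fin m) → Irr k (d j) //
        (∀ j x, leg (P j).1 (f x) = ξ j x) ∧ ∀ p, leg (P p.1.2).1 (P p.1.1).1 = η p} =>
        (⟨fun j => (P.1 j).1, hmem P⟩ : {Q' : Fin m → k[X] // Q' ∈ Q.tup f d ξ η'})) (by
        intro P P' h
        apply Subtype.ext
        funext j
        apply Subtype.ext
        exact congrFun (congrArg Subtype.val h) j)
    refine h3.trans (le_of_eq ?_)
    rw [Nat.card_eq_fintype_card, Fintype.card_coe]
  have hpow := NU_pow w m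
  have hone := NU_one m δ hδ0 hmδ
  have hprod : ∏ j : Fin m, ((1 + δ) * ((Q.irr k (d j)).card : ℝ)) =
      (1 + δ) ^ m * ∏ j : Fin m, ((Q.irr k (d j)).card : ℝ) := by
    rw [Finset.prod_mul_distrib, Finset.prod_const, Finset.card_univ, Fintype.card_fin]
  have hpi : Nat.card ((j : Fin m) → Irr k (d j)) = ∏ j : Fin m, (Q.irr k (d j)).card := by
    rw [Nat.card_pi]
    exact Finset.prod_congr rfl fun j _ => hirrc j
  have hfin : ((Nat.card {P : (j : Fin m) → Irr k (d j) //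
      (∀ j x, leg (P j).1 (f x) = ξ j x) ∧ ∀ p, leg (P p.1.2).1 (P p.1.1).1 = η p} : ℕ) : ℝ) *
      2 ^ (m * w + Nat.card {p : Fin m × Fin m // p.1 < p.2}) ≤
      2 * ∏ j : Fin m, ((Q.irr k (d j)).card : ℝ) := by
    rw [← hpow]
    refine le_trans (mul_le_mul_of_nonneg_right (Nat.cast_le.2 hcount)
      (Finset.prod_nonneg fun _ _ => pow_nonneg (by norm_num) _)) ?_
    refine hmain.trans ?_
    rw [hprod]
    exact mul_le_mul_of_nonneg_right hone (Finset.prod_nonneg fun _ _ => Nat.cast_nonneg _)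
  rw [hpi]
  exact_mod_cast hfin

end Pool.Agent.Sm
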