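import Pool.Agent.Lib.Sm.J8
import Pool.Agent.Lib.Sm.NU

/-!
Module J9 (SMITH, block J): the proportion of bad families in a grid.
-/

set_option autoImplicit false

open Polynomial Pool.Agent.BSDP.R

namespace Pool.Agent.Sm.BJ

theorem card_proj {A B : Type} [Finite A] [Finite B] (R : A → B → Prop) :
    Nat.card {a : A // ∃ b, R a b} ≤ Nat.card {p : A × B // R p.1 p.2} := by
  classical
  let F : {a : A // ∃ b, R a b} → {p : A × B // R p.1 p.2} := fun a =>
    ⟨(a.1, a.2.choose), a.2.choose_spec⟩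
  apply Nat.card_le_card_of_injective F
  intro a b h
  exact Subtype.ext (congrArg (fun x => x.1.1) h)

theorem card_or {A : Type} [Finite A] (p q : A → Prop) :
    Nat.card {a // p a ∨ q a} ≤ Nat.card {a // p a} + Nat.card {a // q a} := by
  classical
  have := Fintype.ofFinite A
  rw [Nat.card_eq_fintype_card, Nat.card_eq_fintype_card, Nat.card_eq_fintype_card]
  exact Fintype.card_subtype_or _ _

theorem card_ex {A B : Type} [Finite A] (s : Finset B) (q : B → A → Prop) :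
    Nat.card {a // ∃ b, b ∈ s ∧ q b a} ≤ ∑ b ∈ s, Nat.card {a // q b a} := by
  classical
  induction s using Finset.induction_on with
  | empty =>
    have : IsEmpty {a // ∃ b, b ∈ (∅ : Finset B) ∧ q b a} := by
      constructor
      rintro ⟨a, b, hb, _⟩
      exact absurd hb (Finset.notMem_empty b)
    rw [Nat.card_of_isEmpty]
    exact Nat.zero_le _
  | insert b s hb ih =>
    rw [Finset.sum_insert hb]
    refine le_trans (card_mono (q := fun a => q b a ∨ ∃ b, b ∈ s ∧ q b a) ?_)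
      ((card_or _ _).trans (Nat.add_le_add_left ih _))
    rintro a ⟨b', hb', h⟩
    rcases Finset.mem_insert.1 hb' with rfl | h'
    · exact Or.inl h
    · exact Or.inr ⟨b', h', h⟩

theorem card_markov {A B : Type} [Finite A] [Finite B] (R : A → B → Prop) (M : ℕ) :
    Nat.card {a : A // M < Nat.card {b // R a b}} * M ≤ Nat.card {p : A × B // R p.1 p.2} := by
  classical
  have := Fintype.ofFinite A
  have := Fintype.ofFinite B
  have e1 : {p : A × B // R p.1 p.2} ≃ Σ a : A, {b // R a b} :=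
    { toFun := fun x => ⟨x.1.1, ⟨x.1.2, x.2⟩⟩
      invFun := fun y => ⟨(y.1, y.2.1), y.2.2⟩
      left_inv := fun x => rfl
      right_inv := fun y => rfl }
  rw [Nat.card_congr e1, Nat.card_sigma, Nat.card_eq_fintype_card, Fintype.card_subtype]
  calc _ = ∑ a ∈ Finset.univ.filter (fun a : A => M < Nat.card {b // R a b}), M := by
        rw [Finset.sum_const, smul_eq_mul]
    _ ≤ ∑ a ∈ Finset.univ.filter (fun a : A => M < Nat.card {b // R a b}),
          Nat.card {b // R a b} :=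
        Finset.sum_le_sum fun a ha => (Finset.mem_filter.1 ha).2.le
    _ ≤ _ := Finset.sum_le_sum_of_subset (Finset.filter_subset _ _)

/-- the saving beats the loss -/
theorem decay (r kk h C : ℕ) (hr : 1 ≤ r) {η : ℝ} (hη : 0 < η) : ∃ K : ℕ, ∀ s n : ℕ,
    K * (1 + s) ≤ n →
    2 * ((4 : ℝ) ^ r) ^ (1 + s + h) * (C * ((n : ℝ) + 1) ^ kk * ((4 : ℝ) ^ r - 1) ^ n) ≤
      η * ((4 : ℝ) ^ r) ^ n := by
  set E : ℝ := (4 : ℝ) ^ r with hE
  have hE4 : 4 ≤ E := by
    calc (4 : ℝ) = 4 ^ 1 := (pow_one _).symm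
      _ ≤ 4 ^ r := pow_le_pow_right₀ (by norm_num) hr
  set θ : ℝ := √((E - 1) / E) with hθ
  have hE0 : 0 < E := by linarith
  have hr0 : 0 < (E - 1) / E := div_pos (by linarith) hE0
  have hr1 : (E - 1) / E < 1 := by
    rw [div_lt_one hE0]
    linarith
  have hθ0 : 0 < θ := Real.sqrt_pos.2 hr0
  have hθ1 : θ < 1 := by
    rw [hθ, Real.sqrt_lt' (by norm_num)]
    linarith
  have hθ2 : θ * θ = (E - 1) / E := Real.mul_self_sqrt hr0.le
  -- polynomial against exponential
  have hlim := tendsto_pow_const_mul_const_pow_of_lt_one (k := kk) (r := θ) hθ0.le hθ1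
  have hη' : 0 < η * θ / (2 * (C + 1)) := by positivity
  obtain ⟨N1, hN1⟩ := Filter.eventually_atTop.1 (hlim.eventually (gt_mem_nhds hη'))
  set A : ℝ := E ^ (1 + h) with hA
  have hA1 : 1 ≤ A := one_le_pow₀ (by linarith)
  obtain ⟨K1, hK1⟩ := exists_pow_lt_of_lt_one (y := θ) (x := 1 / A) (by positivity) hθ1
  have hK1' : A * θ ^ K1 ≤ 1 := by
    have := (lt_div_iff₀' (by linarith : 0 < A)).1 hK1
    exact this.le
  refine ⟨max N1 K1, ?_⟩
  intro s n hn
  have hnN : N1 ≤ n := by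
    calc N1 ≤ max N1 K1 * 1 := by rw [mul_one]; exact le_max_left _ _
      _ ≤ max N1 K1 * (1 + s) := Nat.mul_le_mul_left _ (by omega)
      _ ≤ n := hn
  have hnK : K1 * (1 + s) ≤ n := (Nat.mul_le_mul_right _ (le_max_right _ _)).trans hn
  have h1 : E ^ (1 + s + h) * θ ^ n ≤ 1 := by
    have e1 : E ^ (1 + s + h) ≤ A ^ (1 + s) := by
      have e0 : A ^ (1 + s) = E ^ ((1 + h) * (1 + s)) := by
        rw [hA]
        exact (pow_mul _ _ _).symm
      rw [e0]
      apply pow_le_pow_right₀ (by linarith)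
      nlinarith
    have e2 : θ ^ n ≤ (θ ^ K1) ^ (1 + s) := by
      rw [← pow_mul]
      exact pow_le_pow_of_le_one hθ0.le hθ1.le hnK
    calc E ^ (1 + s + h) * θ ^ n ≤ A ^ (1 + s) * (θ ^ K1) ^ (1 + s) :=
          mul_le_mul e1 e2 (by positivity) (by positivity)
      _ = (A * θ ^ K1) ^ (1 + s) := by rw [mul_pow]
      _ ≤ 1 := pow_le_one₀ (by positivity) hK1'
  have h2 : ((n : ℝ) + 1) ^ kk * θ ^ n ≤ η / (2 * (C + 1)) := by
    have h3 := hN1 (n + 1) (by omega)
    push_cast at h3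
    rw [pow_succ, ← mul_assoc] at h3
    have h4 : ((n : ℝ) + 1) ^ kk * θ ^ n * θ ≤ η / (2 * (C + 1)) * θ := by
      refine h3.le.trans (le_of_eq ?_)
      ring
    exact le_of_mul_le_mul_right h4 hθ0
  have h5 : (E - 1) ^ n = E ^ n * (θ ^ n * θ ^ n) := by
    rw [← mul_pow, hθ2, ← mul_pow]
    congr 1
    field_simp
  rw [h5]
  have hC : (C : ℝ) / (C + 1) ≤ 1 := by
    rw [div_le_one (by positivity)]
    linarith
  calc 2 * E ^ (1 + s + h) * (C * ((n : ℝ) + 1) ^ kk * (E ^ n * (θ ^ n * θ ^ n)))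
      = 2 * C * (E ^ (1 + s + h) * θ ^ n) * (((n : ℝ) + 1) ^ kk * θ ^ n) * E ^ n := by ring
    _ ≤ 2 * C * 1 * (η / (2 * (C + 1))) * E ^ n := by gcongr
    _ = (C / (C + 1)) * (η * E ^ n) := by
        field_simp
    _ ≤ 1 * (η * E ^ n) := mul_le_mul_of_nonneg_right hC (by positivity)
    _ = η * E ^ n := one_mul _

section
variable {k : Type} [Field k] [Finite k]

/-- the proportion of bad families in a grid -/
theorem grid_bad (h2 : (2 : k) ≠ 0) (d : TwData k) : ∃ C0 : ℕ, ∀ ε : ℝ, 0 < ε → ∃ R : ℕ,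
    ∀ kk : ℕ, ∃ K : ℕ, ∀ (S : Type) (_ : Fintype S) (ps : S → k[X]), (∀ s, (ps s).Monic) →
      (∀ s, Irreducible (ps s)) → ∀ (m : ℕ) (dg : Fin m → ℕ),
      Function.Injective dg → (∀ s j, (ps s).natDegree ≠ dg j) → NearU (Sum.elim ps d.ell) dg →
      ∀ W : Finset (Fin m), K * (1 + Nat.card S) ≤ W.card →
      (Nat.card {p : Grid k dg × CodeF d.h (S ⊕ Fin m) //
          ∀ a, condF d (Sum.elim ps fun j => (p.1 j).1) p.2 a = 0} ≤
        C0 * Nat.card (Grid k dg)) ∧
      kk ≤ W.card ∧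
      (Nat.card {P : Grid k dg // BadT1 d ps (fun j => (P j).1) R ∨
          ∃ r, 1 ≤ r ∧ r ≤ R ∧ BadT2 d ps (fun j => (P j).1) W kk r} : ℝ) ≤
        ε * Nat.card (Grid k dg) := by
  classical
  obtain ⟨C1, hC1⟩ := T1grid h2 d
  refine ⟨C1, ?_⟩
  intro ε hε
  obtain ⟨R, hR⟩ := exists_nat_gt (C1 / (ε / 2))
  refine ⟨R, ?_⟩
  intro kk
  have hT2 : ∀ r, 1 ≤ r → ∃ K : ℕ, ∀ (S : Type) (_ : Fintype S) (ps : S → k[X]) (m : ℕ)
      (dg : Fin m → ℕ), Function.Injective dg → NearU (Sum.elim ps d.ell) dg →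
      ∀ W : Finset (Fin m), K * (1 + Nat.card S) ≤ W.card →
      (Nat.card {P : Grid k dg // BadT2 d ps (fun j => (P j).1) W kk r} : ℝ) ≤
        ε / (2 * (R + 1)) * Nat.card (Grid k dg) := by
    intro r hr
    obtain ⟨C, hC⟩ := T2grid h2 d r kk hr
    obtain ⟨K, hK⟩ := decay r kk d.h C hr (η := ε / (2 * (R + 1))) (by positivity)
    refine ⟨K, ?_⟩
    intro S _ ps m dg hinj hU W hW
    have h3 := hC S inferInstance ps m dg hinj hU W
    have h4 := hK (Nat.card S) W.card hW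
    have h5 := card_proj (A := Grid k dg) (B := Fin r → CodeF d.h (S ⊕ Fin m))
      (fun P c => (∀ j i, condF d (Sum.elim ps fun j => (P j).1) (c i) (Sum.inr j) = 0) ∧
          (¬ Dep (TF d S) (gF c) (xF c) ∧
            ∃ v : Fin r → V1, Nat.card {j : Fin m // j ∈ W ∧ xF c j = v} < kk))
    have h6 : Nat.card {P : Grid k dg // BadT2 d ps (fun j => (P j).1) W kk r} *
        (4 ^ r) ^ W.card ≤ 2 * Nat.card (Grid k dg) * (4 ^ r) ^ (1 + Nat.card S + d.h) *
          (C * (W.card + 1) ^ kk * (4 ^ r - 1) ^ W.card) :=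
      (Nat.mul_le_mul_right _ h5).trans h3
    have h7 : (Nat.card {P : Grid k dg // BadT2 d ps (fun j => (P j).1) W kk r} : ℝ) *
        ((4 : ℝ) ^ r) ^ W.card ≤ 2 * Nat.card (Grid k dg) *
          ((4 : ℝ) ^ r) ^ (1 + Nat.card S + d.h) *
          (C * ((W.card : ℝ) + 1) ^ kk * ((4 : ℝ) ^ r - 1) ^ W.card) := by
      have h8 : ((4 ^ r - 1 : ℕ) : ℝ) = (4 : ℝ) ^ r - 1 := by
        have e1 : 1 ≤ 4 ^ r := Nat.one_le_pow _ _ (by norm_num)
        rw [Nat.cast_sub e1]
        push_cast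
        rfl
      have h9 := (Nat.cast_le (α := ℝ)).2 h6
      simp only [Nat.cast_mul, Nat.cast_pow, h8, Nat.cast_add, Nat.cast_one, Nat.cast_ofNat]
        at h9
      exact h9
    have hpos : 0 < ((4 : ℝ) ^ r) ^ W.card := by positivity
    refine le_of_mul_le_mul_right ?_ hpos
    calc _ ≤ _ := h7
      _ = Nat.card (Grid k dg) * (2 * ((4 : ℝ) ^ r) ^ (1 + Nat.card S + d.h) *
          (C * ((W.card : ℝ) + 1) ^ kk * ((4 : ℝ) ^ r - 1) ^ W.card)) := by ring
      _ ≤ Nat.card (Grid k dg) * (ε / (2 * (R + 1)) * ((4 : ℝ) ^ r) ^ W.card) :=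
          mul_le_mul_of_nonneg_left h4 (Nat.cast_nonneg _)
      _ = _ := by ring
  choose! Kf hKf using hT2
  set K := ∑ r ∈ Finset.range (R + 1), Kf r + kk + 2 with hK
  refine ⟨K, ?_⟩
  intro S _ ps hps hpi m dg hinj hne hU W hW
  have hS1 : 1 ≤ 1 + Nat.card S := by omega
  have hWm : W.card ≤ m := by
    have := W.card_le_univ
    rwa [Fintype.card_fin] at this
  have h4S : 4 ^ Nat.card S ≤ 2 ^ m := by
    have e1 : (4 : ℕ) ^ Nat.card S = 2 ^ (2 * Nat.card S) := by
      rw [pow_mul]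
      norm_num
    rw [e1]
    apply Nat.pow_le_pow_right (by norm_num)
    have e2 : 2 * (1 + Nat.card S) ≤ K * (1 + Nat.card S) := Nat.mul_le_mul_right _ (by omega)
    omega
  have hT1 := hC1 S inferInstance ps hps hpi m dg hinj hne hU h4S
  have hkk : kk ≤ W.card := by
    have e2 : kk * 1 ≤ K * (1 + Nat.card S) := Nat.mul_le_mul (by omega) hS1
    omega
  refine ⟨hT1, hkk, ?_⟩
  -- T1
  have hB1 : (Nat.card {P : Grid k dg // BadT1 d ps (fun j => (P j).1) R} : ℝ) ≤
      ε / 2 * Nat.card (Grid k dg) := by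
    have h3 := card_markov (A := Grid k dg) (B := CodeF d.h (S ⊕ Fin m))
      (fun P c => ∀ a, condF d (Sum.elim ps fun j => (P j).1) c a = 0) (2 ^ R)
    have h4 := h3.trans hT1
    have h5 : (Nat.card {P : Grid k dg // BadT1 d ps (fun j => (P j).1) R} : ℝ) * 2 ^ R ≤
        C1 * Nat.card (Grid k dg) := by
      exact_mod_cast h4
    have h6 : (C1 : ℝ) ≤ ε / 2 * 2 ^ R := by
      rw [div_lt_iff₀ (by positivity)] at hR
      have h7 : (R : ℝ) ≤ 2 ^ R := by
        exact_mod_cast Nat.lt_two_pow_self.le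
      nlinarith
    have hpos : (0 : ℝ) < 2 ^ R := by positivity
    refine le_of_mul_le_mul_right ?_ hpos
    calc _ ≤ _ := h5
      _ ≤ ε / 2 * 2 ^ R * Nat.card (Grid k dg) :=
          mul_le_mul_of_nonneg_right h6 (Nat.cast_nonneg _)
      _ = _ := by ring
  -- T2
  have hB2 : ∀ r ∈ Finset.range (R + 1), (Nat.card {P : Grid k dg //
      1 ≤ r ∧ BadT2 d ps (fun j => (P j).1) W kk r} : ℝ) ≤
        ε / (2 * (R + 1)) * Nat.card (Grid k dg) := by
    intro r hr
    by_cases hr1 : 1 ≤ r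
    · have h3 := hKf r hr1 S inferInstance ps m dg hinj hU W (le_trans
        (Nat.mul_le_mul_right _ ?_) hW)
      · refine le_trans ?_ h3
        have h4 : Nat.card {P : Grid k dg // 1 ≤ r ∧ BadT2 d ps (fun j => (P j).1) W kk r} ≤
            Nat.card {P : Grid k dg // BadT2 d ps (fun j => (P j).1) W kk r} :=
          card_mono fun P (hP : 1 ≤ r ∧ BadT2 d ps (fun j => (P j).1) W kk r) => hP.2
        exact_mod_cast h4
      · have := Finset.single_le_sum (f := Kf) (fun i _ => Nat.zero_le _) hr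
        omega
    · have h3 : Nat.card {P : Grid k dg // 1 ≤ r ∧ BadT2 d ps (fun j => (P j).1) W kk r} = 0 := by
        have : IsEmpty {P : Grid k dg // 1 ≤ r ∧ BadT2 d ps (fun j => (P j).1) W kk r} :=
          ⟨fun P => hr1 P.2.1⟩
        exact Nat.card_of_isEmpty
      rw [h3]
      push_cast
      positivity
  -- union bound
  have hU1 : Nat.card {P : Grid k dg // BadT1 d ps (fun j => (P j).1) R ∨
          ∃ r, 1 ≤ r ∧ r ≤ R ∧ BadT2 d ps (fun j => (P j).1) W kk r} ≤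
      Nat.card {P : Grid k dg // BadT1 d ps (fun j => (P j).1) R} +
        ∑ r ∈ Finset.range (R + 1), Nat.card {P : Grid k dg //
          1 ≤ r ∧ BadT2 d ps (fun j => (P j).1) W kk r} := by
    refine (card_or _ _).trans (Nat.add_le_add_left ?_ _)
    refine le_trans ?_ (card_ex (Finset.range (R + 1)) (fun r (P : Grid k dg) =>
      1 ≤ r ∧ BadT2 d ps (fun j => (P j).1) W kk r))
    apply card_mono
    rintro P ⟨r, hr1, hrR, h⟩
    exact ⟨r, Finset.mem_range.2 (by omega), hr1, h⟩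
  have hU2 : (Nat.card {P : Grid k dg // BadT1 d ps (fun j => (P j).1) R ∨
          ∃ r, 1 ≤ r ∧ r ≤ R ∧ BadT2 d ps (fun j => (P j).1) W kk r} : ℝ) ≤
      Nat.card {P : Grid k dg // BadT1 d ps (fun j => (P j).1) R} +
        ∑ r ∈ Finset.range (R + 1), (Nat.card {P : Grid k dg //
          1 ≤ r ∧ BadT2 d ps (fun j => (P j).1) W kk r} : ℝ) := by
    exact_mod_cast hU1
  refine hU2.trans ((add_le_add hB1 (Finset.sum_le_sum hB2)).trans (le_of_eq ?_))
  rw [Finset.sum_const, Finset.card_range, nsmul_eq_mul]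
  push_cast
  field_simp
  ring

/-- near uniformity in the form used here -/
theorem nearU_of : ∃ c : ℝ, 0 < c ∧ ∀ (k : Type) (_ : Field k) (_ : Finite k),
    (2 : k) ≠ 0 → ∀ (F : Type) (_ : Finite F) (f : F → k[X]),
    Function.Injective f → (∀ x, (f x).Monic) → (∀ x, Irreducible (f x)) →
    ∀ (m n N0 : ℕ) (dg : Fin m → ℕ), StrictMono dg → (∀ j, N0 ≤ dg j) →
    (∀ x, (f x).natDegree < N0) → ∑ᶠ x, (f x).natDegree + ∑ j, dg j ≤ n →
    (m : ℝ) * 2 ^ (Nat.card F + m) * c * n ^ 2 ≤ √(Nat.card k) ^ N0 → NearU f dg := by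
  classical
  obtain ⟨c, hc, h⟩ := near_uniform
  refine ⟨c, hc, ?_⟩
  intro k _ _ h2 F _ f hf1 hf2 hf3 m n N0 dg hd1 hd2 hd3 hsum hnum ξ
  have := Fintype.ofFinite F
  have h1 := h k inferInstance inferInstance h2 F inferInstance f hf1 hf2 hf3 m n N0 dg hd1 hd2 hd3
    hsum hnum ξ.1 ξ.2
  have e1 : Nat.card (Pat F m) = 2 ^ (m * Nat.card F + Nat.card (Prs m)) := by
    rw [Nat.card_prod, Nat.card_fun, Nat.card_fun, Nat.card_fun, Nat.card_eq_fintype_card (α := Fin m),
      Fintype.card_fin, Nat.card_zmod, pow_add, ← pow_mul, mul_comm (Nat.card F)]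
  rw [e1]
  refine le_trans (Nat.mul_le_mul_right _ (le_of_eq ?_)) h1
  apply Nat.card_congr
  refine Equiv.subtypeEquivRight fun P => ?_
  constructor
  · intro hP
    constructor
    · intro j x
      exact congrFun (congrFun (congrArg Prod.fst hP) j) x
    · intro p
      exact congrFun (congrArg Prod.snd hP) p
  · rintro ⟨hP1, hP2⟩
    refine Prod.ext ?_ ?_
    · funext j x
      exact hP1 j x
    · funext p
      exact hP2 p

end

end Pool.Agent.Sm.BJ
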