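import Pool.Agent.Lib.Sm.JDefs
import Pool.Agent.Lib.Sm.Q.Primes

/-!
Module QRH (SMITH, block JQ): the Riemann hypothesis for the quadratic characters of `k[X]`, in the
form of a bound for the sums over the monic irreducible polynomials of degree `d` (Stepanov).
-/

set_option autoImplicit false

open Polynomial Pool.Agent.BSDP.R

namespace Pool.Agent.Sm

theorem quad_prime_sum : ∃ c : ℝ, 0 < c ∧ ∀ (k : Type) (_ : Field k) (_ : Finite k),
    (2 : k) ≠ 0 → ∀ M : k[X], Squarefree M → 0 < M.natDegree → ∀ d : ℕ, 1 ≤ d →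
    |∑ᶠ P ∈ Irr k d, (chiP P M : ℝ)| ≤ c * M.natDegree * √(Nat.card k) ^ d := by
  refine ⟨23, by norm_num, ?_⟩
  intro k _ _ h2 M hM hdeg d hd
  have h1 := Q.irr_sum h2 M hM hdeg d hd
  have h3 : ∑ᶠ P ∈ Irr k d, (chiP P M : ℝ) = ((∑ P ∈ Q.irr k d, chiP P M : ℤ) : ℝ) := by
    rw [finsum_mem_eq_finite_toFinset_sum _ (Q.irr_finite (k := k) d)]
    unfold Q.irr
    push_cast
    rfl
  rw [h3]
  refine le_trans ?_ h1
  have hd1 : (1 : ℝ) ≤ d := by exact_mod_cast hd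
  nlinarith [abs_nonneg ((∑ P ∈ Q.irr k d, chiP P M : ℤ) : ℝ)]

end Pool.Agent.Sm
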